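import Mathlib

set_option autoImplicit false

namespace Pool.Agent.H54OG

/-- A relation: the sums over the two lists of indices are to be equal. -/
abbrev Rel := List ℕ × List ℕ

/-- torsion-free -/
def TF (M : Type*) [AddCommGroup M] : Prop := ∀ (n : ℤ) (x : M), n ≠ 0 → n • x = 0 → x = 0

section
variable {M N : Type*} [AddCommGroup M] [AddCommGroup N]

/-- `x` satisfies the relation `c`. -/
def rl (x : ℕ → M) (c : Rel) : Prop := (c.1.map x).sum = (c.2.map x).sum

/-- the difference of the two sides -/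
def ev (x : ℕ → M) (c : Rel) : M := (c.1.map x).sum - (c.2.map x).sum

theorem rl_iff {x : ℕ → M} {c : Rel} : rl x c ↔ ev x c = 0 := sub_eq_zero.symm

/-- all indices are below `n` -/
def sup (n : ℕ) (c : Rel) : Prop := (∀ i ∈ c.1, i < n) ∧ ∀ i ∈ c.2, i < n

theorem sup.mono {n m : ℕ} {c : Rel} (h : sup n c) (hnm : n ≤ m) : sup m c :=
  ⟨fun i hi => lt_of_lt_of_le (h.1 i hi) hnm, fun i hi => lt_of_lt_of_le (h.2 i hi) hnm⟩

theorem ev_congr {x y : ℕ → M} {c : Rel} {n : ℕ} (hc : sup n c) (h : ∀ i < n, x i = y i) :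
    ev x c = ev y c := by
  unfold ev
  rw [List.map_congr_left fun i hi => h i (hc.1 i hi),
    List.map_congr_left fun i hi => h i (hc.2 i hi)]

theorem rl_congr {x y : ℕ → M} {c : Rel} {n : ℕ} (hc : sup n c) (h : ∀ i < n, x i = y i) :
    rl x c ↔ rl y c := by rw [rl_iff, rl_iff, ev_congr hc h]

theorem ev_add (x y : ℕ → M) (c : Rel) : ev (fun i => x i + y i) c = ev x c + ev y c := by
  unfold ev
  rw [List.sum_map_add, List.sum_map_add]
  abel

theorem ev_map (φ : M →+ N) (x : ℕ → M) (c : Rel) : ev (fun i => φ (x i)) c = φ (ev x c) := by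
  unfold ev
  rw [map_sub, map_list_sum, map_list_sum, List.map_map, List.map_map]
  rfl

theorem ev_neg (x : ℕ → M) (c : Rel) : ev (fun i => -x i) c = -ev x c :=
  ev_map (-(AddMonoidHom.id M)) x c

theorem ev_sub (x y : ℕ → M) (c : Rel) : ev (fun i => x i - y i) c = ev x c - ev y c := by
  simp only [sub_eq_add_neg, ← ev_neg, ← ev_add]

theorem ev_smulr (a : ℕ → ℤ) (w : M) (c : Rel) : ev (fun i => a i • w) c = ev a c • w :=
  ev_map (smulAddHom ℤ M |>.flip w) a c

theorem ev_smul (k : ℤ) (x : ℕ → M) (c : Rel) : ev (fun i => k • x i) c = k • ev x c :=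
  ev_map (smulAddHom ℤ M k) x c

/-- The relation with given integer coefficients. -/
def pr (n : ℕ) (d : ℕ → ℤ) : Rel :=
  ((List.range n).flatMap fun i => List.replicate (d i).toNat i,
    (List.range n).flatMap fun i => List.replicate (-d i).toNat i)

theorem mem_pr1 {n : ℕ} {d : ℕ → ℤ} {i : ℕ} : i ∈ (pr n d).1 ↔ i < n ∧ 0 < d i := by
  simp only [pr, List.mem_flatMap, List.mem_range, List.mem_replicate]
  constructor
  · rintro ⟨j, h1, h2, rfl⟩
    exact ⟨h1, by omega⟩
  · rintro ⟨h1, h2⟩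
    exact ⟨i, h1, by omega, rfl⟩

theorem mem_pr2 {n : ℕ} {d : ℕ → ℤ} {i : ℕ} : i ∈ (pr n d).2 ↔ i < n ∧ d i < 0 := by
  simp only [pr, List.mem_flatMap, List.mem_range, List.mem_replicate]
  constructor
  · rintro ⟨j, h1, h2, rfl⟩
    exact ⟨h1, by omega⟩
  · rintro ⟨h1, h2⟩
    exact ⟨i, h1, by omega, rfl⟩

theorem sup_pr (n : ℕ) (d : ℕ → ℤ) : sup n (pr n d) :=
  ⟨fun _ h => (mem_pr1.1 h).1, fun _ h => (mem_pr2.1 h).1⟩

theorem ev_pr (n : ℕ) (d : ℕ → ℤ) (x : ℕ → M) :
    ev x (pr n d) = ∑ i ∈ Finset.range n, d i • x i := by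
  unfold ev pr
  induction n with
  | zero => simp
  | succ n ih =>
    rw [Finset.sum_range_succ, ← ih]
    simp only [List.range_succ, List.flatMap_append, List.flatMap_cons, List.flatMap_nil,
      List.append_nil, List.map_append, List.sum_append, List.map_replicate, List.sum_replicate]
    have h : d n • x n = (d n).toNat • x n - (-d n).toNat • x n := by
      rw [← natCast_zsmul, ← natCast_zsmul, ← sub_smul]
      congr 1
      omega
    rw [h]
    abel

/-- The vector of coefficients of a relation. -/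
def vc (c : Rel) (i : ℕ) : ℤ := (c.1.count i : ℤ) - c.2.count i

theorem sum_map_count (n : ℕ) (l : List ℕ) (hl : ∀ i ∈ l, i < n) (x : ℕ → M) :
    (l.map x).sum = ∑ i ∈ Finset.range n, l.count i • x i := by
  induction l with
  | nil => simp
  | cons a l ih =>
    rw [List.map_cons, List.sum_cons, ih fun i hi => hl i (List.mem_cons_of_mem _ hi)]
    have h1 : x a = ∑ i ∈ Finset.range n, (if a = i then 1 else 0) • x i := by
      rw [Finset.sum_eq_single a]
      · simp
      · intro b _ hb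
        rw [if_neg (Ne.symm hb), zero_smul]
      · intro h
        exact absurd (Finset.mem_range.2 (hl a List.mem_cons_self)) h
    rw [h1, ← Finset.sum_add_distrib]
    refine Finset.sum_congr rfl fun i _ => ?_
    rw [← add_smul, List.count_cons]
    congr 1
    simp only [beq_iff_eq]
    omega

theorem ev_eq {n : ℕ} {c : Rel} (hc : sup n c) (x : ℕ → M) :
    ev x c = ∑ i ∈ Finset.range n, vc c i • x i := by
  unfold ev vc
  rw [sum_map_count n c.1 hc.1, sum_map_count n c.2 hc.2, ← Finset.sum_sub_distrib]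
  refine Finset.sum_congr rfl fun i _ => ?_
  rw [sub_smul, natCast_zsmul, natCast_zsmul]

end

section
variable {H : Type*} [AddCommGroup H]

/-- Homomorphisms to `ℚ` with prescribed values. -/
theorem ext_hom (l : ℕ) (h : ℕ → H) (q : ℕ → ℚ)
    (hyp : ∀ d : ℕ → ℤ, ∑ i ∈ Finset.range l, d i • h i = 0 →
      ∑ i ∈ Finset.range l, (d i : ℚ) * q i = 0) :
    ∃ φ : H →+ ℚ, ∀ i < l, φ (h i) = q i := by
  let A := Fin l → ℤ
  let f : A →ₗ[ℤ] H := Fintype.linearCombination ℤ fun i : Fin l => h i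
  let g : A →ₗ[ℤ] ℚ := Fintype.linearCombination ℤ fun i : Fin l => q i
  have hle : LinearMap.ker f ≤ LinearMap.ker g := by
    intro a ha
    rw [LinearMap.mem_ker] at ha ⊢
    have h1 := hyp (fun i => if hi : i < l then a ⟨i, hi⟩ else 0)
    rw [Finset.sum_range, Finset.sum_range] at h1
    simp only [Fin.is_lt, dite_true, Fin.eta] at h1
    have h2 : f a = ∑ i : Fin l, a i • h i := Fintype.linearCombination_apply _ _ _
    have h3 : g a = ∑ i : Fin l, a i • q i := Fintype.linearCombination_apply _ _ _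
    rw [h3]
    rw [h2] at ha
    have h4 := h1 ha
    simpa [zsmul_eq_mul] using h4
  let F := (LinearMap.ker f).liftQ f le_rfl
  let G := (LinearMap.ker f).liftQ g hle
  have hF : Function.Injective F := by
    rw [← LinearMap.ker_eq_bot]
    exact Submodule.ker_liftQ_eq_bot _ _ _ le_rfl
  obtain ⟨φ, hφ⟩ := (Module.Baer.of_divisible ℚ).extension_property F hF G
  refine ⟨φ.toAddMonoidHom, fun i hi => ?_⟩
  have h1 := LinearMap.congr_fun hφ ((LinearMap.ker f).mkQ (Pi.single ⟨i, hi⟩ 1))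
  have h2 : F ((LinearMap.ker f).mkQ (Pi.single ⟨i, hi⟩ 1)) = h i := by
    change f (Pi.single ⟨i, hi⟩ 1) = h i
    rw [Fintype.linearCombination_apply_single, one_smul]
  have h3 : G ((LinearMap.ker f).mkQ (Pi.single ⟨i, hi⟩ 1)) = q i := by
    change g (Pi.single ⟨i, hi⟩ 1) = q i
    rw [Fintype.linearCombination_apply_single, one_smul]
  rw [LinearMap.comp_apply, h2, h3] at h1
  exact h1

open Filter in
theorem ev_ne (htf : TF H) {y : H} (hy : y ≠ 0) (z : H) : ∀ᶠ K : ℕ in atTop, (K : ℤ) • y ≠ z := by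
  by_cases h : ∃ K : ℕ, (K : ℤ) • y = z
  · obtain ⟨K, hK⟩ := h
    filter_upwards [eventually_gt_atTop K] with K' hK' h
    have h1 : ((K' : ℤ) - K) • y = 0 := by rw [sub_smul, h, hK, sub_self]
    exact hy (htf _ _ (by omega) h1)
  · push Not at h
    exact Filter.Eventually.of_forall h

theorem tf_rat : TF ℚ := by
  intro n x hn hx
  rw [zsmul_eq_mul] at hx
  rcases mul_eq_zero.1 hx with h | h
  · exact absurd (by exact_mod_cast h) hn
  · exact h

/-- A homomorphism to `ℚ` which does not vanish on finitely many given nonzero elements. -/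
theorem avoid (htf : TF H) (s : Finset H) (hs : ∀ y ∈ s, y ≠ 0) :
    ∃ φ : H →+ ℚ, ∀ y ∈ s, φ y ≠ 0 := by
  classical
  induction s using Finset.induction_on with
  | empty => exact ⟨0, by simp⟩
  | insert a s ha ih =>
    obtain ⟨φ, hφ⟩ := ih fun y hy => hs y (Finset.mem_insert_of_mem hy)
    have ha0 := hs a (Finset.mem_insert_self _ _)
    obtain ⟨ψ, hψ⟩ := ext_hom 1 (fun _ => a) (fun _ => 1) (by
      intro d hd
      simp only [Finset.sum_range_one] at hd ⊢
      by_cases h : d 0 = 0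
      · simp [h]
      · exact absurd (htf _ _ h hd) ha0)
    have hψ1 := hψ 0 (by omega)
    have h1 : ∀ᶠ K : ℕ in Filter.atTop, ∀ y ∈ s, (K : ℤ) • φ y ≠ - ψ y := by
      rw [Filter.eventually_all_finset]
      exact fun y hy => ev_ne tf_rat (hφ y hy) _
    have h2 : ∀ᶠ K : ℕ in Filter.atTop, φ a ≠ 0 → (K : ℤ) • φ a ≠ - ψ a := by
      by_cases h : φ a = 0
      · simp [h]
      · filter_upwards [ev_ne tf_rat h (-ψ a)] with K hK _ using hK
    obtain ⟨K, hK1, hK2⟩ := (h1.and h2).exists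
    refine ⟨(K : ℤ) • φ + ψ, fun y hy => ?_⟩
    rw [AddMonoidHom.add_apply, AddMonoidHom.smul_apply]
    rcases Finset.mem_insert.1 hy with rfl | hy
    · by_cases h : φ y = 0
      · rw [h, smul_zero, zero_add, hψ1]
        exact one_ne_zero
      · exact fun h3 => hK2 h (eq_neg_of_add_eq_zero_left h3)
    · exact fun h3 => hK1 y hy (eq_neg_of_add_eq_zero_left h3)

/-- Clearing denominators. -/
theorem clear_denom (n : ℕ) (a : ℕ → ℚ) : ∃ D : ℤ, 0 < D ∧ ∃ b : ℕ → ℤ,
    ∀ i < n, (b i : ℚ) = D * a i := by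
  induction n with
  | zero => exact ⟨1, one_pos, fun _ => 0, by simp⟩
  | succ n ih =>
    obtain ⟨D, hD, b, hb⟩ := ih
    refine ⟨D * (a n).den, by positivity, fun i => if i = n then D * (a n).num else
      (a n).den * b i, fun i hi => ?_⟩
    have h1 : ((a n).den : ℚ) ≠ 0 := by exact_mod_cast (a n).den_ne_zero
    by_cases h : i = n
    · subst h
      simp only [if_true]
      push_cast
      have h2 : ((a i).num : ℚ) = a i * (a i).den := by
        rw [Rat.mul_den_eq_num]
      rw [h2]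
      ring
    · simp only [h, if_false]
      push_cast
      rw [hb i (by omega)]
      ring

/-- The lattice lemma. -/
theorem lattice (n : ℕ) (x : ℕ → H) (S : Finset ℕ) (g : ℕ) (hg : g < n)
    (hyp : ∀ (m : ℤ) (b : ℕ → ℤ), m ≠ 0 → m • x g ≠ ∑ i ∈ S, b i • x i) :
    ∃ (lam f : ℕ → ℤ) (c m : ℤ) (b : ℕ → ℤ), 0 < c ∧ 0 < m ∧
      (∀ d : ℕ → ℤ, ∑ i ∈ Finset.range n, d i • x i = 0 →
        ∑ i ∈ Finset.range n, d i * lam i = 0) ∧
      (∀ i ∈ S, i < n → lam i = 0) ∧ lam g = c ∧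
      m • (x g - c • ∑ i ∈ Finset.range n, f i • x i) = ∑ i ∈ S, b i • x i := by
  classical
  let A := Fin n → ℤ
  let F : A →ₗ[ℤ] H := Fintype.linearCombination ℤ fun i : Fin n => x i
  let B : Submodule ℤ H := Submodule.span ℤ (Set.range fun i : S => x i)
  let G : A →ₗ[ℤ] ((H ⧸ B) ⧸ Submodule.torsion ℤ (H ⧸ B)) :=
    (Submodule.torsion ℤ (H ⧸ B)).mkQ ∘ₗ B.mkQ ∘ₗ F
  have hker : ∀ a : A, G a = 0 → ∃ m : ℤ, m ≠ 0 ∧ m • F a ∈ B := by
    intro a ha
    have h1 : B.mkQ (F a) ∈ Submodule.torsion ℤ (H ⧸ B) := (Submodule.Quotient.mk_eq_zero _).1 ha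
    rw [Submodule.mem_torsion_iff] at h1
    obtain ⟨m, hm⟩ := h1
    refine ⟨m, nonZeroDivisors.ne_zero m.2, ?_⟩
    rw [← Submodule.Quotient.mk_eq_zero B]
    exact hm
  have hker' : ∀ a : A, F a = 0 → G a = 0 := by
    intro a ha
    change (Submodule.torsion ℤ (H ⧸ B)).mkQ (B.mkQ (F a)) = 0
    rw [ha, map_zero, map_zero]
  have hB : ∀ y ∈ B, ∃ b : ℕ → ℤ, y = ∑ i ∈ S, b i • x i := by
    intro y hy
    rw [Submodule.mem_span_range_iff_exists_fun] at hy
    obtain ⟨c, hc⟩ := hy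
    refine ⟨fun i => if hi : i ∈ S then c ⟨i, hi⟩ else 0, ?_⟩
    rw [← hc, ← Finset.sum_coe_sort S]
    refine Finset.sum_congr rfl fun i _ => ?_
    simp
  let M := LinearMap.range G
  let ge : A := Pi.single ⟨g, hg⟩ 1
  have hFe : ∀ (i : ℕ) (hi : i < n), F (Pi.single ⟨i, hi⟩ 1) = x i := by
    intro i hi
    rw [Fintype.linearCombination_apply_single, one_smul]
  let gb : M := ⟨G ge, LinearMap.mem_range_self G ge⟩
  have hgb : gb ≠ 0 := by
    intro h0
    have h1 : G ge = 0 := congrArg Subtype.val h0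
    obtain ⟨m, hm, hmB⟩ := hker _ h1
    obtain ⟨b, hb⟩ := hB _ hmB
    rw [hFe g hg] at hb
    exact hyp m b hm hb
  have hfree : Module.Free ℤ M := inferInstance
  let bM := Module.Free.chooseBasis ℤ M
  let E : (M →ₗ[ℤ] ℤ) →ₗ[ℤ] ℤ := LinearMap.applyₗ gb
  obtain ⟨c, hc⟩ := (IsPrincipalIdealRing.principal (LinearMap.range E)).principal
  have hc0 : c ≠ 0 := by
    rintro rfl
    apply hgb
    apply bM.ext_elem
    intro i
    have h1 : E (bM.coord i) ∈ LinearMap.range E := LinearMap.mem_range_self _ _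
    rw [hc, Submodule.mem_span_singleton] at h1
    obtain ⟨a, ha⟩ := h1
    rw [smul_zero] at ha
    have h2 : E (bM.coord i) = bM.repr gb i := rfl
    rw [← h2, ← ha, map_zero]
    rfl
  have hcm : c ∈ LinearMap.range E := by
    rw [hc]
    exact Submodule.mem_span_singleton_self c
  obtain ⟨lam0, hlam0⟩ := hcm
  have hdiv : ∀ i, ∃ y : ℤ, bM.repr gb i = c * y := by
    intro i
    have h1 : E (bM.coord i) ∈ LinearMap.range E := LinearMap.mem_range_self _ _
    rw [hc, Submodule.mem_span_singleton] at h1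
    obtain ⟨a, ha⟩ := h1
    exact ⟨a, by rw [show bM.repr gb i = E (bM.coord i) from rfl, ← ha, smul_eq_mul, mul_comm]⟩
  choose y hy using hdiv
  obtain ⟨fv, hfv⟩ : ∃ fb : M, gb = c • fb := by
    refine ⟨∑ i, y i • bM i, ?_⟩
    rw [Finset.smul_sum]
    conv_lhs => rw [← bM.sum_repr gb]
    refine Finset.sum_congr rfl fun i _ => ?_
    rw [hy, mul_smul]
  obtain ⟨fA, hfA⟩ := fv.2
  -- orientation
  obtain ⟨c', hc', lam1, hlam1, f', hf'⟩ : ∃ c' : ℤ, 0 < c' ∧ ∃ lam1 : M →ₗ[ℤ] ℤ, lam1 gb = c' ∧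
      ∃ f' : A, G ge = c' • G f' := by
    have h1 : G ge = c • G fA := by
      rw [hfA]
      exact congrArg Subtype.val hfv
    rcases lt_or_gt_of_ne hc0 with h | h
    · refine ⟨-c, by omega, -lam0, ?_, -fA, ?_⟩
      · rw [LinearMap.neg_apply]
        exact congrArg Neg.neg hlam0
      · rw [map_neg, smul_neg, neg_smul, neg_neg]
        exact h1
    · exact ⟨c, h, lam0, hlam0, fA, h1⟩
  let L : A →ₗ[ℤ] ℤ := lam1 ∘ₗ G.rangeRestrict
  have hL0 : ∀ a : A, G a = 0 → L a = 0 := by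
    intro a ha
    have h1 : G.rangeRestrict a = 0 := Subtype.ext ha
    change lam1 (G.rangeRestrict a) = 0
    rw [h1, map_zero]
  have hLsum : ∀ a : A, L a = ∑ i : Fin n, a i * L (Pi.single i 1) := by
    intro a
    conv_lhs => rw [show a = ∑ i : Fin n, a i • (Pi.single i (1 : ℤ) : A) by
      funext j
      simp [Finset.sum_apply, Pi.single_apply]]
    rw [map_sum]
    refine Finset.sum_congr rfl fun i _ => ?_
    rw [map_smul, smul_eq_mul]
  have hsub : G (ge - c' • f') = 0 := by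
    rw [map_sub, map_smul, hf', sub_self]
  obtain ⟨m, hm, hmB⟩ := hker _ hsub
  obtain ⟨b, hb⟩ := hB _ hmB
  have hFf : F (ge - c' • f') = x g - c' • ∑ i : Fin n, f' i • x i := by
    rw [map_sub, map_smul, hFe g hg]
    congr 1
  obtain ⟨m', hm', b', hb'⟩ : ∃ m' : ℤ, 0 < m' ∧ ∃ b' : ℕ → ℤ, m' • F (ge - c' • f') =
      ∑ i ∈ S, b' i • x i := by
    rcases lt_or_gt_of_ne hm with h | h
    · refine ⟨-m, by omega, fun i => - b i, ?_⟩
      rw [neg_smul, hb, ← Finset.sum_neg_distrib]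
      refine Finset.sum_congr rfl fun i _ => ?_
      rw [neg_smul]
    · exact ⟨m, h, b, hb⟩
  refine ⟨fun i => if hi : i < n then L (Pi.single ⟨i, hi⟩ 1) else 0,
    fun i => if hi : i < n then f' ⟨i, hi⟩ else 0, c', m', b', hc', hm', ?_, ?_, ?_, ?_⟩
  · intro d hd
    rw [Finset.sum_range] at hd ⊢
    have h1 : F (fun i : Fin n => d i) = 0 := by
      rw [← hd]
      exact Fintype.linearCombination_apply _ _ _
    have h2 := hL0 _ (hker' _ h1)
    rw [hLsum] at h2
    simpa using h2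
  · intro i hi hin
    simp only [hin, dite_true]
    apply hL0
    change (Submodule.torsion ℤ (H ⧸ B)).mkQ (B.mkQ (F (Pi.single ⟨i, hin⟩ 1))) = 0
    rw [hFe i hin]
    have h1 : x i ∈ B := Submodule.subset_span ⟨⟨i, hi⟩, rfl⟩
    have h2 : B.mkQ (x i) = 0 := (Submodule.Quotient.mk_eq_zero B).2 h1
    rw [h2, map_zero]
  · simp only [hg, dite_true]
    exact hlam1
  · rw [← hb', hFf, Finset.sum_range]
    simp

end

end Pool.Agent.H54OG
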