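import Mathlib
import Pool.Agent.Helper227.SOne

set_option autoImplicit false

namespace Pool.Agent.H54OG

open Encodable
open Pool.Agent.Helper227

section
variable {α β γ : Type*} [Primcodable α] [Primcodable β] [Primcodable γ]

/-- Computable selection from a Sigma-one relation. -/
theorem exists_select {R : α → β → Prop} (hR : S1 fun x : α × β => R x.1 x.2) :
    ∃ g : α →. β, Partrec g ∧ (∀ a b, b ∈ g a → R a b) ∧ ∀ a, (∃ b, R a b) → (g a).Dom := by
  classical
  obtain ⟨q, hq, hm, he⟩ := hR
  let f : α → ℕ → Option β := fun a n =>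
    (decode (α := β) n.unpair.1).bind fun b => if q (a, b) n.unpair.2 then some b else none
  have hf : Computable₂ f := by
    refine Primrec.to_comp (α := α × ℕ) ?_
    refine Primrec.option_bind (α := α × ℕ) (β := β) (σ := β)
      (f := fun x => decode (α := β) x.2.unpair.1)
      (g := fun x b => if q (x.1, b) x.2.unpair.2 then some b else none) ?_ ?_
    · exact Primrec.decode.comp (Primrec.fst.comp (Primrec.unpair.comp Primrec.snd))
    · refine Primrec.ite (α := (α × ℕ) × β) (σ := Option β)
        (c := fun x => q (x.1.1, x.2) x.1.2.unpair.2)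
        (f := fun x => some x.2) (g := fun _ => none) ?_ (Primrec.option_some.comp Primrec.snd)
        (Primrec.const none)
      exact hq.comp ((Primrec.fst.comp Primrec.fst).pair Primrec.snd)
        (Primrec.snd.comp (Primrec.unpair.comp (Primrec.snd.comp Primrec.fst)))
  refine ⟨fun a => Nat.rfindOpt (f a), Partrec.rfindOpt hf, ?_, ?_⟩
  · intro a b hb
    obtain ⟨n, hn⟩ := Nat.rfindOpt_spec hb
    simp only [f, Option.mem_def, Option.bind_eq_some_iff] at hn
    obtain ⟨b', h1, h2⟩ := hn
    by_cases h3 : q (a, b') n.unpair.2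
    · rw [if_pos h3] at h2
      simp only [Option.some.injEq] at h2
      subst h2
      exact (he (a, b')).2 ⟨_, h3⟩
    · rw [if_neg h3] at h2
      simp at h2
  · rintro a ⟨b, hb⟩
    obtain ⟨s, hs⟩ := (he (a, b)).1 hb
    rw [Nat.rfindOpt_dom]
    refine ⟨Nat.pair (encode b) s, b, ?_⟩
    simp only [f, Nat.unpair_pair, encodek, Option.bind_some, Option.mem_def]
    rw [if_pos hs]

/-- A total function with Sigma-one graph is computable. -/
theorem computable_of_s1 {f : α → β} (h : S1 fun x : α × β => f x.1 = x.2) : Computable f := by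
  obtain ⟨g, hg, h1, h2⟩ := exists_select (R := fun a b => f a = b) h
  refine Partrec.of_eq hg fun a => ?_
  have h3 : (g a).Dom := h2 a ⟨f a, rfl⟩
  refine Part.eq_some_iff.2 ?_
  have h4 := h1 a _ (Part.get_mem h3)
  rw [h4]
  exact Part.get_mem h3

/-- Iterating a Sigma-one relation. -/
theorem exists_seq {R : ℕ → β → β → Prop} {V : β → Prop} {b0 : β}
    (hR : S1 fun x : (ℕ × β) × β => R x.1.1 x.1.2 x.2) (h0 : V b0)
    (hV : ∀ n b, V b → ∃ b', R n b b') (hV' : ∀ n b b', V b → R n b b' → V b') :
    ∃ s : ℕ → β, Computable s ∧ s 0 = b0 ∧ (∀ n, V (s n)) ∧ ∀ n, R n (s n) (s (n + 1)) := by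
  obtain ⟨g, hg, h1, h2⟩ := exists_select (R := fun (a : ℕ × β) b => R a.1 a.2 b) hR
  let F : ℕ →. β := fun n => (Nat.rec (motive := fun _ => Part β) (Part.some b0)
    (fun y IH => IH.bind fun i => g (y, i)) n)
  have hF : Partrec F := by
    refine Partrec.nat_rec (f := fun n : ℕ => n) (g := fun _ => Part.some b0)
      (h := fun _ p => g p) Computable.id (Computable.const b0).partrec ?_
    exact hg.comp Computable.snd
  have hdom : ∀ n, ∃ b, b ∈ F n ∧ V b := by
    intro n
    induction n with
    | zero => exact ⟨b0, by simp [F], h0⟩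
    | succ n ih =>
      obtain ⟨b, hb, hVb⟩ := ih
      have h3 := h2 (n, b) (hV n b hVb)
      refine ⟨(g (n, b)).get h3, ?_, ?_⟩
      · change _ ∈ (F n).bind fun i => g (n, i)
        rw [Part.mem_bind_iff]
        exact ⟨b, hb, Part.get_mem h3⟩
      · exact hV' n b _ hVb (h1 _ _ (Part.get_mem h3))
  choose s hs hsV using hdom
  refine ⟨s, ?_, ?_, hsV, ?_⟩
  · exact Partrec.of_eq hF fun n => Part.eq_some_iff.2 (hs n)
  · have := hs 0
    simpa [F] using this
  · intro n
    have h3 := hs (n + 1)
    change _ ∈ (F n).bind fun i => g (n, i) at h3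
    rw [Part.mem_bind_iff] at h3
    obtain ⟨b, hb, hb'⟩ := h3
    have h4 := Part.mem_unique hb (hs n)
    subst h4
    exact h1 _ _ hb'

/-- Decidable predicates: Sigma-one together with their complement. -/
def CD (p : α → Prop) : Prop := S1 p ∧ S1 fun a => ¬ p a

namespace CD

theorem of_eq {p q : α → Prop} (hp : CD p) (h : ∀ a, p a ↔ q a) : CD q :=
  (funext fun a => propext (h a) : p = q) ▸ hp

theorem of_prim {p : α → Prop} (hp : PrimrecPred p) : CD p :=
  ⟨S1.of_prim hp, S1.of_prim hp.not⟩

theorem comp {p : β → Prop} {f : α → β} (hp : CD p) (hf : Computable f) : CD fun a => p (f a) :=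
  ⟨hp.1.comp_computable hf, S1.comp_computable (p := fun b => ¬ p b) hp.2 hf⟩

theorem not {p : α → Prop} (hp : CD p) : CD fun a => ¬ p a :=
  ⟨hp.2, hp.1.of_eq fun a => by simp⟩

theorem and {p q : α → Prop} (hp : CD p) (hq : CD q) : CD fun a => p a ∧ q a :=
  ⟨hp.1.and hq.1, (hp.2.or hq.2).of_eq fun a => by tauto⟩

theorem or {p q : α → Prop} (hp : CD p) (hq : CD q) : CD fun a => p a ∨ q a :=
  ⟨hp.1.or hq.1, (hp.2.and hq.2).of_eq fun a => by tauto⟩

theorem imp {p q : α → Prop} (hp : CD p) (hq : CD q) : CD fun a => p a → q a :=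
  (hp.not.or hq).of_eq fun a => by tauto

theorem eqv {f g : α → β} (hf : Computable f) (hg : Computable g) : CD fun a => f a = g a :=
  CD.comp (p := fun x : β × β => x.1 = x.2) (f := fun a => (f a, g a))
    (CD.of_prim (Primrec.eq.comp Primrec.fst Primrec.snd)) (hf.pair hg)

theorem all_mem {p : α → β → Prop} {f : α → List β} (hp : CD fun x : α × β => p x.1 x.2)
    (hf : Computable f) : CD fun a => ∀ b ∈ f a, p a b := by
  have h1 : S1 fun x : α × List β => ∀ b ∈ x.2, p x.1 b := by
    refine S1.all_mem (α := α × List β) (p := fun x b => p x.1 b) (f := fun x => x.2) ?_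
      Primrec.snd
    exact hp.1.comp (f := fun z : (α × List β) × β => (z.1.1, z.2))
      ((Primrec.fst.comp Primrec.fst).pair Primrec.snd)
  have h2 : S1 fun x : α × List β => ¬ ∀ b ∈ x.2, p x.1 b := by
    have h3 : S1 fun x : α × List β => ∃ b, b ∈ x.2 ∧ ¬ p x.1 b := by
      refine S1.ex (α := α × List β) (p := fun x b => b ∈ x.2 ∧ ¬ p x.1 b) (S1.and ?_ ?_)
      · refine S1.of_prim ?_
        have := PP.ex_mem (α := (α × List β) × β) (β := β) (f := fun z => z.1.2)
          (p := fun z b => b = z.2) (Primrec.eq.comp Primrec.snd (Primrec.snd.comp Primrec.fst))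
          (Primrec.snd.comp Primrec.fst)
        exact this.of_eq fun z => by simp
      · exact hp.2.comp (f := fun z : (α × List β) × β => (z.1.1, z.2))
          ((Primrec.fst.comp Primrec.fst).pair Primrec.snd)
    exact h3.of_eq fun x => by push Not; rfl
  exact ⟨h1.comp_computable (f := fun a => (a, f a)) (Computable.id.pair hf),
    S1.comp_computable (p := fun x : α × List β => ¬ ∀ b ∈ x.2, p x.1 b)
      (f := fun a => (a, f a)) h2 (Computable.id.pair hf)⟩

theorem ex_mem {p : α → β → Prop} {f : α → List β} (hp : CD fun x : α × β => p x.1 x.2)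
    (hf : Computable f) : CD fun a => ∃ b ∈ f a, p a b :=
  (CD.all_mem (p := fun a b => ¬ p a b) hp.not hf).not.of_eq fun a => by push Not; rfl

theorem all_lt {p : α → ℕ → Prop} {f : α → ℕ} (hp : CD fun x : α × ℕ => p x.1 x.2)
    (hf : Computable f) : CD fun a => ∀ b < f a, p a b :=
  (all_mem hp (Primrec.list_range.to_comp.comp hf)).of_eq (by simp)

theorem ex_lt {p : α → ℕ → Prop} {f : α → ℕ} (hp : CD fun x : α × ℕ => p x.1 x.2)
    (hf : Computable f) : CD fun a => ∃ b < f a, p a b :=
  (ex_mem hp (Primrec.list_range.to_comp.comp hf)).of_eq (by simp)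

/-- quantification over the codes below a bound -/
theorem ex_code {p : α → β → Prop} {f : α → ℕ} (hp : CD fun x : α × β => p x.1 x.2)
    (hf : Computable f) : CD fun a => ∃ b, encode b < f a ∧ p a b := by
  have h : CD fun a : α => ∃ n < f a, ∃ b ∈ (decode (α := β) n).toList, p a b := by
    refine ex_lt (p := fun a n => ∃ b ∈ (decode (α := β) n).toList, p a b) ?_ hf
    refine ex_mem (α := α × ℕ) (p := fun x b => p x.1 b)
      (f := fun x => (decode (α := β) x.2).toList) ?_ ?_
    · exact hp.comp (f := fun z : (α × ℕ) × β => (z.1.1, z.2))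
        ((Computable.fst.comp Computable.fst).pair Computable.snd)
    · exact (Primrec.optionToList.comp (Primrec.decode.comp Primrec.snd)).to_comp
  refine ((ex_mem (α := α) (β := β) (p := fun a b => p a b)
    (f := fun a => (List.range (f a)).flatMap fun n =>
      ((decode (α := β) n).toList.filter fun b => decide (encode b = n))) hp ?_)).of_eq ?_
  · have h2 : Primrec fun m : ℕ => (List.range m).flatMap fun n =>
        ((decode (α := β) n).toList.filter fun b => decide (encode b = n)) := by
      refine Primrec.list_flatMap (α := ℕ) (β := ℕ) (σ := β) Primrec.list_range ?_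
      refine Primrec.list_flatMap (α := ℕ × ℕ) (β := β) (σ := β)
        (f := fun x => (decode (α := β) x.2).toList)
        (g := fun x b => if encode b = x.2 then [b] else []) ?_ ?_ |>.of_eq ?_
      · exact Primrec.optionToList.comp (Primrec.decode.comp Primrec.snd)
      · refine Primrec.ite (Primrec.eq.comp (Primrec.encode.comp Primrec.snd)
          (Primrec.snd.comp Primrec.fst)) ?_ (Primrec.const [])
        exact Primrec.list_cons.comp Primrec.snd (Primrec.const [])
      · rintro ⟨x, y⟩
        simp only
        generalize (decode (α := β) y).toList = L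
        induction L with
        | nil => rfl
        | cons c L ih =>
          rw [List.flatMap_cons, ih, List.filter_cons]
          by_cases h : encode c = y <;> simp [h]
    exact h2.to_comp.comp hf
  · intro a
    constructor
    · rintro ⟨b, hb, hp⟩
      simp only [List.mem_flatMap, List.mem_range, List.mem_filter, decide_eq_true_eq] at hb
      obtain ⟨n, hn, hb1, hb2⟩ := hb
      exact ⟨b, by omega, hp⟩
    · rintro ⟨b, hb, hp⟩
      refine ⟨b, ?_, hp⟩
      simp only [List.mem_flatMap, List.mem_range, List.mem_filter, decide_eq_true_eq]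
      exact ⟨encode b, hb, by simp, rfl⟩

end CD

/-- Sums of lists are computable if the addition is. -/
theorem computable_sum {M : Type*} [AddCommMonoid M] [Primcodable M]
    (h : Computable₂ fun a b : M => a + b) : Computable fun L : List M => L.sum := by
  have h1 : Computable fun L : List M => (Nat.rec (motive := fun _ => M) 0
      (fun n IH => L.getD n 0 + IH) L.length : M) := by
    refine Computable.nat_rec (f := fun L : List M => L.length) (g := fun _ => (0 : M))
      (h := fun L (p : ℕ × M) => L.getD p.1 0 + p.2) Primrec.list_length.to_comp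
      (Computable.const 0) ?_
    refine h.comp ?_ (Computable.snd.comp Computable.snd)
    exact ((Primrec.list_getD (0 : M)).comp Primrec.fst (Primrec.fst.comp Primrec.snd)).to_comp
  refine h1.of_eq fun L => ?_
  have h2 : ∀ n ≤ L.length, (Nat.rec (motive := fun _ => M) 0
      (fun n IH => L.getD n 0 + IH) n : M) = (L.take n).sum := by
    intro n
    induction n with
    | zero => intro _; simp
    | succ n ih =>
      intro hn
      have h3 : n < L.length := by omega
      simp only
      rw [ih (by omega), List.take_add_one, List.sum_append]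
      rw [List.getElem?_eq_getElem h3]
      simp [List.getD, h3, add_comm]
  rw [h2 _ le_rfl, List.take_length]

end

end Pool.Agent.H54OG
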