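import Pool.Agent.H54OG.Alg

set_option autoImplicit false

namespace Pool.Agent.H54OG

open Filter

section
variable {H : Type*} [AddCommGroup H]

/-- Moving along a direction avoids finitely many bad values eventually. -/
theorem ev_good (htf : TF H) (n : ℕ) (x : ℕ → H) (lam : ℕ → ℤ) (w0 w1 : H) (hw1 : w1 ≠ 0)
    (hinj : ∀ i < n, ∀ j < n, x i = x j → i = j) (F : Finset H) :
    ∀ᶠ K : ℕ in atTop,
      (∀ i < n, ∀ j < n, x i + lam i • (w0 + (K : ℤ) • w1) = x j + lam j • (w0 + (K : ℤ) • w1) →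
        i = j) ∧
      ∀ i < n, x i + lam i • (w0 + (K : ℤ) • w1) = x i ∨
        x i + lam i • (w0 + (K : ℤ) • w1) ∉ F := by
  have h1 : ∀ i ∈ Finset.range n, ∀ j ∈ Finset.range n, ∀ᶠ K : ℕ in atTop,
      x i + lam i • (w0 + (K : ℤ) • w1) = x j + lam j • (w0 + (K : ℤ) • w1) → i = j := by
    intro i hi j hj
    by_cases h : lam i = lam j
    · refine Eventually.of_forall fun K hK => ?_
      rw [h, add_left_inj] at hK
      exact hinj i (Finset.mem_range.1 hi) j (Finset.mem_range.1 hj) hK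
    · have h2 : (lam i - lam j) • w1 ≠ 0 := fun h3 => hw1 (htf _ _ (sub_ne_zero.2 h) h3)
      filter_upwards [ev_ne htf h2 (x j - x i - (lam i - lam j) • w0)] with K hK h3
      exfalso
      apply hK
      have h4 : x i + lam i • (w0 + (K : ℤ) • w1) - (x j + lam j • (w0 + (K : ℤ) • w1)) = 0 :=
        sub_eq_zero.2 h3
      rw [← sub_eq_zero, ← h4]
      simp only [smul_add, sub_smul, smul_sub, smul_comm (K : ℤ)]
      abel
  have h2 : ∀ i ∈ Finset.range n, ∀ y ∈ F, ∀ᶠ K : ℕ in atTop,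
      x i + lam i • (w0 + (K : ℤ) • w1) = x i ∨ x i + lam i • (w0 + (K : ℤ) • w1) ≠ y := by
    intro i hi y hy
    by_cases h : lam i = 0
    · refine Eventually.of_forall fun K => Or.inl ?_
      rw [h, zero_smul, add_zero]
    · have h2 : (lam i) • w1 ≠ 0 := fun h3 => hw1 (htf _ _ h h3)
      filter_upwards [ev_ne htf h2 (y - x i - (lam i) • w0)] with K hK
      right
      intro h3
      apply hK
      rw [← h3]
      simp only [smul_add, smul_comm (K : ℤ)]
      abel
  have h1' : ∀ᶠ K : ℕ in atTop, ∀ i ∈ Finset.range n, ∀ j ∈ Finset.range n,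
      x i + lam i • (w0 + (K : ℤ) • w1) = x j + lam j • (w0 + (K : ℤ) • w1) → i = j := by
    rw [eventually_all_finset]
    intro i hi
    rw [eventually_all_finset]
    exact h1 i hi
  have h2' : ∀ᶠ K : ℕ in atTop, ∀ i ∈ Finset.range n, ∀ y ∈ F,
      x i + lam i • (w0 + (K : ℤ) • w1) = x i ∨ x i + lam i • (w0 + (K : ℤ) • w1) ≠ y := by
    rw [eventually_all_finset]
    intro i hi
    rw [eventually_all_finset]
    exact h2 i hi
  filter_upwards [h1', h2'] with K hK1 hK2
  refine ⟨fun i hi j hj => hK1 i (Finset.mem_range.2 hi) j (Finset.mem_range.2 hj), fun i hi => ?_⟩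
  by_cases h : x i + lam i • (w0 + (K : ℤ) • w1) = x i
  · exact Or.inl h
  · refine Or.inr fun h3 => ?_
    exact (hK2 i (Finset.mem_range.2 hi) _ h3).elim h fun h4 => h4 rfl

theorem sup_rep {m l a : ℕ} {c : Rel} (hl : l < m) (hc : sup m c) :
    sup m (List.replicate a l ++ c.1, c.2) := by
  refine ⟨fun i hi => ?_, hc.2⟩
  rcases List.mem_append.1 hi with h1 | h1
  · rw [List.eq_of_mem_replicate h1]
    exact hl
  · exact hc.1 i h1

/-- Existence for the shift step. -/
theorem ex_shift (htf : TF H) (n l : ℕ) (h : ℕ → H) (q : ℕ → ℤ) (hl : l < n)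
    (hinj : ∀ i < n, ∀ j < n, h i = h j → i = j) (a : ℕ) (c : Rel) (hc : sup l c)
    (hρ : rl h (List.replicate a l ++ c.1, c.2)) (hqρ : ¬ rl q (List.replicate a l ++ c.1, c.2))
    (hlow : ∀ c', sup l c' → rl h c' → rl q c') (w : H) (hw : w ≠ 0) (F : Finset H) :
    ∃ (h' : ℕ → H) (z : ℤ), z ≠ 0 ∧ h' l = h l + z • w ∧ (∀ i < l, h' i = h i) ∧
      (∀ i < n, ∀ j < n, h' i = h' j → i = j) ∧
      (∀ c, sup n c → rl h c → rl q c → rl h' c) ∧ ∀ i < n, h' i = h i ∨ h' i ∉ F := by
  obtain ⟨φ, hφ⟩ := ext_hom l h (fun i => (q i : ℚ)) (by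
    intro d hd
    have h1 := hlow (pr l d) (sup_pr l d) (by rw [rl_iff, ev_pr]; exact hd)
    rw [rl_iff, ev_pr] at h1
    have h2 := congrArg (Int.cast : ℤ → ℚ) h1
    simpa using h2)
  obtain ⟨D, hD, lam, hlam⟩ := clear_denom n (fun i => (q i : ℚ) - φ (h i))
  have hlam0 : ∀ i < l, lam i = 0 := by
    intro i hi
    have h1 := hlam i (by omega)
    rw [hφ i hi, sub_self, mul_zero] at h1
    exact_mod_cast h1
  have hD' : (D : ℚ) ≠ 0 := by
    have : D ≠ 0 := by omega
    exact_mod_cast this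
  have hevq : ∀ c, sup n c → rl h c → ((ev lam c : ℤ) : ℚ) = D * (ev q c : ℤ) := by
    intro c hc hhc
    have h1 : ((ev lam c : ℤ) : ℚ) = ev (fun i => (lam i : ℚ)) c :=
      (ev_map (Int.castAddHom ℚ) lam c).symm
    have h2 : ((ev q c : ℤ) : ℚ) = ev (fun i => (q i : ℚ)) c :=
      (ev_map (Int.castAddHom ℚ) q c).symm
    rw [h1, h2, ev_congr hc (y := fun i => D • (((q i : ℚ)) - φ (h i))) (fun i hi => by
      rw [hlam i hi, zsmul_eq_mul]), ev_smul D, ev_sub, ev_map φ, rl_iff.1 hhc, map_zero,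
      sub_zero, zsmul_eq_mul]
  have hlaml : lam l ≠ 0 := by
    intro h0
    apply hqρ
    rw [rl_iff]
    have hs : sup n (List.replicate a l ++ c.1, c.2) := sup_rep hl (hc.mono hl.le)
    have h1 := hevq _ hs hρ
    have h2 : ev lam (List.replicate a l ++ c.1, c.2) = 0 := by
      have h3 : ∀ i < l + 1, lam i = (fun _ : ℕ => (0 : ℤ)) i := by
        intro i hi
        rcases Nat.lt_succ_iff_lt_or_eq.1 hi with h3 | h3
        · exact hlam0 i h3
        · rw [h3, h0]
      rw [ev_congr (sup_rep (Nat.lt_succ_self l) (hc.mono (Nat.le_succ l))) h3]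
      simp [ev]
    rw [h2, Int.cast_zero, zero_eq_mul] at h1
    rcases h1 with h1 | h1
    · exact absurd h1 hD'
    · exact_mod_cast h1
  obtain ⟨K, ⟨hK1, hK2⟩, hK3⟩ := ((ev_good htf n h lam 0 w hw hinj F).and
    (eventually_gt_atTop 0)).exists
  refine ⟨fun i => h i + lam i • (0 + (K : ℤ) • w), lam l * K, mul_ne_zero hlaml (by omega), ?_,
    ?_, hK1, ?_, hK2⟩
  · simp only [zero_add, mul_smul]
  · intro i hi
    simp only [hlam0 i hi, zero_smul, add_zero]
  · intro c hc h1 h2
    rw [rl_iff, ev_add, ev_smulr, rl_iff.1 h1]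
    have h3 := hevq c hc h1
    rw [rl_iff.1 h2, Int.cast_zero, mul_zero] at h3
    have h4 : ev lam c = 0 := by exact_mod_cast h3
    rw [h4, zero_smul, add_zero]

theorem ev_lt {a b : ℤ} (c d : ℤ) (h : a < b) :
    ∀ᶠ K : ℕ in atTop, (K : ℤ) * a + c < K * b + d := by
  filter_upwards [eventually_gt_atTop (c - d).toNat] with K hK
  have h1 : c - d < K := by omega
  nlinarith

theorem ev_ord (n : ℕ) (q r : ℕ → ℤ) : ∀ᶠ K : ℕ in atTop, ∀ i < n, ∀ j < n, q i < q j →
    (K : ℤ) * q i + r i < K * q j + r j := by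
  have h : ∀ᶠ K : ℕ in atTop, ∀ i ∈ Finset.range n, ∀ j ∈ Finset.range n, q i < q j →
      (K : ℤ) * q i + r i < K * q j + r j := by
    rw [eventually_all_finset]
    intro i _
    rw [eventually_all_finset]
    intro j _
    by_cases h : q i < q j
    · filter_upwards [ev_lt (r i) (r j) h] with K hK _ using hK
    · exact Eventually.of_forall fun _ h' => absurd h' h
  filter_upwards [h] with K hK i hi j hj using hK i (Finset.mem_range.2 hi) j (Finset.mem_range.2 hj)

/-- Existence for the add step. -/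
theorem ex_add (htf : TF H) (n : ℕ) (h : ℕ → H) (q : ℕ → ℤ) (x : H) (hx : ∀ i < n, h i ≠ x)
    (a : ℕ) (ha : 0 < a) (c : Rel) (hc : sup n c)
    (hρ : a • x + (c.1.map h).sum = (c.2.map h).sum) :
    ∃ q' : ℕ → ℤ, (∀ i < n, ∀ j < n, q i < q j → q' i < q' j) ∧
      (∀ c, sup n c → rl h c → rl q c → rl q' c) ∧ (∀ i < n, q' i ≠ q' n) ∧
      a • q' n + (c.1.map q').sum = (c.2.map q').sum := by
  classical
  obtain ⟨φ, hφ⟩ := avoid htf ((Finset.range n).image fun i => h i - x) (by
    intro y hy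
    obtain ⟨i, hi, rfl⟩ := Finset.mem_image.1 hy
    exact sub_ne_zero.2 (hx i (Finset.mem_range.1 hi)))
  obtain ⟨D, hD, k, hk⟩ := clear_denom (n + 1) (fun i => if i < n then φ (h i) else φ x)
  have hD' : (D : ℚ) ≠ 0 := by
    have : D ≠ 0 := by omega
    exact_mod_cast this
  have hk1 : ∀ i < n, (k i : ℚ) = D * φ (h i) := fun i hi => by
    rw [hk i (by omega), if_pos hi]
  have hk2 : (k n : ℚ) = D * φ x := by
    rw [hk n (by omega), if_neg (lt_irrefl _)]
  have hevk : ∀ c, sup n c → ((ev k c : ℤ) : ℚ) = D * φ (ev h c) := by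
    intro c hc
    have h1 : ((ev k c : ℤ) : ℚ) = ev (fun i => (k i : ℚ)) c :=
      (ev_map (Int.castAddHom ℚ) k c).symm
    rw [h1, ev_congr hc (y := fun i => D • (φ (h i))) (fun i hi => by
      rw [hk1 i hi, zsmul_eq_mul]), ev_smul D, ev_map φ, zsmul_eq_mul]
  have hevc : -ev k c = a * k n := by
    have h1 := hevk c hc
    have h2 : ev h c = -(a • x) := by
      unfold ev
      rw [← hρ]
      abel
    rw [h2, map_neg, map_nsmul, nsmul_eq_mul] at h1
    have h3 : ((-ev k c : ℤ) : ℚ) = ((a * k n : ℤ) : ℚ) := by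
      push_cast
      rw [h1, hk2]
      ring
    exact_mod_cast h3
  have hne : ∀ i < n, k i ≠ k n := by
    intro i hi h1
    have h2 : (k i : ℚ) = k n := by rw [h1]
    rw [hk1 i hi, hk2] at h2
    have h3 := mul_left_cancel₀ hD' h2
    exact hφ (h i - x) (Finset.mem_image.2 ⟨i, Finset.mem_range.2 hi, rfl⟩) (by
      rw [map_sub, h3, sub_self])
  have h3 : ∀ᶠ K : ℕ in atTop, ∀ i ∈ Finset.range n,
      (a : ℤ) * (K * q i + k i) ≠ - (K * ev q c + ev k c) := by
    rw [eventually_all_finset]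
    intro i hi
    have hi' := Finset.mem_range.1 hi
    by_cases h4 : (a : ℤ) * q i + ev q c = 0
    · refine Eventually.of_forall fun K h5 => ?_
      have h6 : (K : ℤ) * (a * q i + ev q c) + a * k i + ev k c = 0 := by linarith
      rw [h4, mul_zero, zero_add] at h6
      have h7 : (a : ℤ) * (k i - k n) = 0 := by linarith
      rcases mul_eq_zero.1 h7 with h8 | h8
      · omega
      · exact hne i hi' (by omega)
    · have htfz : TF ℤ := by
        intro m x hm hx
        rw [smul_eq_mul] at hx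
        exact (mul_eq_zero.1 hx).resolve_left hm
      filter_upwards [ev_ne htfz h4 (-(a * k i) - ev k c)] with K hK h5
      apply hK
      rw [smul_eq_mul]
      linarith
  obtain ⟨K, hK1, hK2⟩ := ((ev_ord n q k).and h3).exists
  have hval : ∀ c, sup n c → ev (fun i => if i < n then (a : ℤ) * (K * q i + k i) else
      -(K * ev q c + ev k c)) c = a * (K * ev q c + ev k c) := by
    intro c' hc'
    rw [ev_congr hc' (y := fun i => (a : ℤ) • ((K : ℤ) • q i + k i)) fun i hi => by
      rw [if_pos hi]; simp, ev_smul (a : ℤ), ev_add, ev_smul (K : ℤ)]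
    simp
  refine ⟨fun i => if i < n then (a : ℤ) * (K * q i + k i) else -(K * ev q c + ev k c), ?_, ?_, ?_,
    ?_⟩
  · intro i hi j hj hij
    simp only [if_pos hi, if_pos hj]
    have := hK1 i hi j hj hij
    have ha' : (0 : ℤ) < a := by omega
    exact mul_lt_mul_of_pos_left this ha'
  · intro c' hc' h1 h2
    rw [rl_iff]
    rw [ev_congr hc' (y := fun i => (a : ℤ) • ((K : ℤ) • q i + k i)) fun i hi => by
      rw [if_pos hi]; simp, ev_smul (a : ℤ), ev_add, ev_smul (K : ℤ), rl_iff.1 h2]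
    have h4 := hevk c' hc'
    rw [rl_iff.1 h1, map_zero, mul_zero] at h4
    have h5 : ev k c' = 0 := by exact_mod_cast h4
    rw [h5]
    simp
  · intro i hi
    simp only [if_pos hi, lt_irrefl, if_false]
    exact hK2 i (Finset.mem_range.2 hi)
  · rw [← sub_eq_zero, add_sub_assoc]
    change _ + ev _ c = 0
    rw [hval c hc]
    simp only [lt_irrefl, if_false]
    rw [nsmul_eq_mul]
    ring

end

end Pool.Agent.H54OG
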