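import Pool.Agent.H54OG.Lim
import Pool.Agent.Helper227.Use

set_option autoImplicit false
set_option linter.unusedSectionVars false

namespace Pool.Agent.H54OG

open Encodable
open Pool.Agent.Helper227

/-! ### Generic sequences -/

theorem getD_pref {σ τ : List Bool} (h : σ <+: τ) {i : ℕ} (hi : i < σ.length) :
    τ.getD i false = σ.getD i false := by
  obtain ⟨ρ, rfl⟩ := h
  rw [List.getD_append _ _ _ _ hi]

open Classical in
/-- the approximations -/
noncomputable def gs (A : ℕ → List Bool → Prop) : ℕ → List Bool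
  | 0 => []
  | n + 1 => (if h : ∃ τ, gs A n <+: τ ∧ A n τ then h.choose else gs A n) ++ [false]

theorem gs_succ (A : ℕ → List Bool → Prop) (n : ℕ) : gs A n <+: gs A (n + 1) := by
  classical
  rw [gs]
  split_ifs with h
  · exact h.choose_spec.1.trans (List.prefix_append _ _)
  · exact List.prefix_append _ _

theorem gs_mono (A : ℕ → List Bool → Prop) {m n : ℕ} (h : m ≤ n) : gs A m <+: gs A n := by
  induction h with
  | refl => exact List.prefix_rfl
  | step _ ih => exact ih.trans (gs_succ A _)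

theorem length_gs (A : ℕ → List Bool → Prop) (n : ℕ) : n ≤ (gs A n).length := by
  classical
  induction n with
  | zero => omega
  | succ n ih =>
    rw [gs, List.length_append, List.length_singleton]
    split_ifs with h
    · have := h.choose_spec.1.length_le
      omega
    · omega

theorem pre_gs (A : ℕ → List Bool → Prop) {σ : List Bool} {n : ℕ} (h : σ <+: gs A n) :
    pre (fun i => (gs A (i + 1)).getD i false) σ.length = σ := by
  refine List.ext_getElem (by simp) fun i h1 h2 => ?_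
  rw [getElem_pre]
  have h3 := length_gs A (i + 1)
  have e1 := getD_pref (gs_mono A (le_max_left (i + 1) n)) (i := i) (by omega)
  have e2 := getD_pref (h.trans (gs_mono A (le_max_right (i + 1) n))) (i := i) h2
  rw [← e1, e2, List.getD_eq_getElem _ _ h2]

theorem exists_generic (A : ℕ → List Bool → Prop) :
    ∃ X : ℕ → Bool, ∀ e, ∃ m, A e (pre X m) ∨ ∀ τ, pre X m <+: τ → ¬ A e τ := by
  classical
  refine ⟨fun i => (gs A (i + 1)).getD i false, fun e => ?_⟩
  by_cases h : ∃ τ, gs A e <+: τ ∧ A e τ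
  · refine ⟨h.choose.length, Or.inl ?_⟩
    have h1 : h.choose <+: gs A (e + 1) := by
      rw [gs, dif_pos h]
      exact List.prefix_append _ _
    rw [pre_gs A h1]
    exact h.choose_spec.2
  · refine ⟨(gs A e).length, Or.inr ?_⟩
    rw [pre_gs A List.prefix_rfl]
    exact fun τ h1 h2 => h ⟨τ, h1, h2⟩

/-- disagreement with the `j`-th computable function -/
def NC (j : ℕ) (τ : List Bool) : Prop :=
  ∃ i b, τ[i]? = some b ∧ encode b ∉ ((decode (α := Nat.Partrec.Code) j).getD
    Nat.Partrec.Code.zero).eval i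

theorem nc_of {X : ℕ → Bool} (h : ∀ j, ∃ m, NC j (pre X m) ∨ ∀ τ, pre X m <+: τ → ¬ NC j τ) :
    ¬ Computable X := by
  intro hX
  obtain ⟨c, hc⟩ := Nat.Partrec.Code.exists_code.1 hX
  have hc' : ∀ i, c.eval i = Part.some (encode (X i)) := by
    intro i
    rw [hc]
    simp
  obtain ⟨m, hm⟩ := h (encode c)
  rcases hm with ⟨i, b, h1, h2⟩ | hm
  · rw [encodek, Option.getD_some, hc', Part.mem_some_iff] at h2
    by_cases hi : i < m
    · rw [pre_getElem? X m i hi] at h1
      simp only [Option.some.injEq] at h1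
      exact h2 (by rw [h1])
    · rw [pre_getElem?_none X m i (by omega)] at h1
      simp at h1
  · apply hm (pre X m ++ [!X m]) (List.prefix_append _ _)
    refine ⟨m, !X m, ?_, ?_⟩
    · rw [List.getElem?_append_right (by simp)]
      simp
    · rw [encodek, Option.getD_some, hc', Part.mem_some_iff]
      intro h1
      have h2 := encode_injective h1
      cases h3 : X m <;> rw [h3] at h2 <;> simp at h2

/-! ### Operators -/

theorem cv_mono {e : ℕ} {τ τ' : List Bool} {i : ℕ} {b : Bool} {r r' : ℕ} (hτ : τ <+: τ')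
    (hr : r ≤ r') (h : cv e τ i b r) : cv e τ' i b r' := by
  obtain ⟨j, hj, h1⟩ := h
  have h2 : τ'.take j = τ.take j := by
    obtain ⟨ρ, rfl⟩ := hτ
    rw [List.take_append_of_le_length (by omega)]
  refine ⟨j, by have := hτ.length_le; omega, ?_⟩
  rw [h2]
  rw [Option.isSome_iff_exists] at h1 ⊢
  obtain ⟨y, hy⟩ := h1
  exact ⟨y, Nat.Partrec.Code.evaln_mono hr hy⟩

theorem exists_op {X : ℕ → Bool} {f : ℕ → ℕ} (hf : TuringReducible (f : ℕ →. ℕ) (chi X)) :
    ∃ e, ∀ i b, f i = b.toNat ↔ ∃ m r, cv e (pre X m) i b r := by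
  obtain ⟨G, hG, hmono, hgr⟩ := recIn_graph (RecursiveIn.iff_nat.1 hf)
  have hK : S1 fun x : List Bool × (ℕ × Bool) => G (x.1, x.2.1, x.2.2.toNat) :=
    hG.comp (f := fun x : List Bool × (ℕ × Bool) => (x.1, x.2.1, x.2.2.toNat))
      (Primrec.fst.pair ((Primrec.fst.comp Primrec.snd).pair
        ((Primrec.dom_bool Bool.toNat).comp (Primrec.snd.comp Primrec.snd))))
  obtain ⟨c, hc⟩ := Nat.Partrec.Code.exists_code.1 hK.re
  have h1 : ∀ x : List Bool × (ℕ × Bool), (c.eval (encode x)).Dom ↔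
      G (x.1, x.2.1, x.2.2.toNat) := by
    intro x
    rw [hc]
    simp [Part.assert]
  have h2 : ∀ (x : List Bool × (ℕ × Bool)), G (x.1, x.2.1, x.2.2.toNat) ↔
      ∃ r, (c.evaln r (encode x)).isSome = true := by
    intro x
    rw [← h1 x]
    constructor
    · intro h
      obtain ⟨y, hy⟩ := Part.dom_iff_mem.1 h
      obtain ⟨k, hk⟩ := Nat.Partrec.Code.evaln_complete.1 hy
      exact ⟨k, Option.isSome_iff_exists.2 ⟨y, hk⟩⟩
    · rintro ⟨n, hn⟩
      obtain ⟨y, hy⟩ := Option.isSome_iff_exists.1 hn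
      exact Part.dom_iff_mem.2 ⟨y, Nat.Partrec.Code.evaln_sound hy⟩
  refine ⟨encode c, fun i b => ?_⟩
  have h3 : f i = b.toNat ↔ ∃ m, G (pre X m, i, b.toNat) := by
    rw [← hgr i b.toNat]
    change _ ↔ b.toNat ∈ Part.some (f i)
    rw [Part.mem_some_iff]
    exact eq_comm
  rw [h3]
  constructor
  · rintro ⟨m, hm⟩
    obtain ⟨r, hr⟩ := (h2 (pre X m, (i, b))).1 hm
    refine ⟨m, r, m, by simp, ?_⟩
    rw [encodek, Option.getD_some, List.take_of_length_le (by simp)]
    exact hr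
  · rintro ⟨m, r, j, hj, hr⟩
    rw [encodek, Option.getD_some] at hr
    have h4 := (h2 ((pre X m).take j, (i, b))).2 ⟨r, hr⟩
    exact ⟨m, hmono _ _ _ _ (List.take_prefix _ _) h4⟩

/-! ### Orders -/

section
variable {H : Type} [AddCommGroup H]

/-- cones of orders -/
structure Ord (Q : Set H) : Prop where
  add : ∀ a ∈ Q, ∀ b ∈ Q, a + b ∈ Q
  anti : ∀ a : H, a ∈ Q → -a ∈ Q → a = 0
  tot : ∀ a : H, a ∈ Q ∨ -a ∈ Q

theorem Ord.zero {Q : Set H} (hQ : Ord Q) : (0 : H) ∈ Q := by
  rcases hQ.tot 0 with h | h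
  · exact h
  · rwa [neg_zero] at h

theorem Ord.neg {Q : Set H} (hQ : Ord Q) {a : H} (h : a ∉ Q) : -a ∈ Q := (hQ.tot a).resolve_left h

theorem Ord.nsmul {Q : Set H} (hQ : Ord Q) {a : H} (h : a ∈ Q) (n : ℕ) : n • a ∈ Q := by
  induction n with
  | zero => rw [zero_smul]; exact hQ.zero
  | succ n ih => rw [succ_nsmul]; exact hQ.add _ ih _ h

theorem Ord.sum {Q : Set H} (hQ : Ord Q) {L : List H} (h : ∀ a ∈ L, a ∈ Q) : L.sum ∈ Q := by
  induction L with
  | nil => exact hQ.zero
  | cons a L ih =>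
    rw [List.sum_cons]
    exact hQ.add _ (h a List.mem_cons_self) _ (ih fun b hb => h b (List.mem_cons_of_mem _ hb))

theorem Ord.nil_of_sum {Q : Set H} (hQ : Ord Q) {L : List H} (h : ∀ a ∈ L, a ∈ Q ∧ a ≠ 0)
    (hs : L.sum = 0) : L = [] := by
  cases L with
  | nil => rfl
  | cons a L =>
    exfalso
    rw [List.sum_cons] at hs
    have h1 := h a List.mem_cons_self
    have h2 : L.sum ∈ Q := hQ.sum fun b hb => (h b (List.mem_cons_of_mem _ hb)).1
    have h3 : L.sum = -a := (neg_eq_of_add_eq_zero_right hs).symm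
    rw [h3] at h2
    exact h1.2 (hQ.anti a h1.1 h2)

theorem Ord.case1 {Q : Set H} (hQ : Ord Q) {θ : ℕ → H} {c : Rel} (hc : ¬ c = ([], []))
    (hrl : rl θ c) (h1 : ∀ i ∈ c.1, θ i ∈ Q ∧ θ i ≠ 0) (h2 : ∀ i ∈ c.2, θ i ∉ Q ∧ θ i ≠ 0) :
    False := by
  have e1 : (c.1.map θ).sum ∈ Q := hQ.sum fun a ha => by
    obtain ⟨i, hi, rfl⟩ := List.mem_map.1 ha
    exact (h1 i hi).1
  have e2' : ∀ L : List ℕ, -(L.map θ).sum = (L.map fun i => -θ i).sum := by
    intro L
    induction L with
    | nil => simp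
    | cons a L ih =>
      rw [List.map_cons, List.map_cons, List.sum_cons, List.sum_cons, ← ih, neg_add]
  have e2 : -(c.2.map θ).sum = (c.2.map fun i => -θ i).sum := e2' c.2
  have e3 : -(c.2.map θ).sum ∈ Q := by
    rw [e2]
    refine hQ.sum fun a ha => ?_
    obtain ⟨i, hi, rfl⟩ := List.mem_map.1 ha
    exact hQ.neg (h2 i hi).1
  have e4 : (c.1.map θ).sum = (c.2.map θ).sum := hrl
  rw [← e4] at e3
  have e5 := hQ.anti _ e1 e3
  have e6 : (c.1.map θ) = [] := hQ.nil_of_sum (fun a ha => by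
    obtain ⟨i, hi, rfl⟩ := List.mem_map.1 ha
    exact h1 i hi) e5
  have e7 : (c.2.map fun i => -θ i) = [] := hQ.nil_of_sum (fun a ha => by
    obtain ⟨i, hi, rfl⟩ := List.mem_map.1 ha
    exact ⟨hQ.neg (h2 i hi).1, neg_ne_zero.2 (h2 i hi).2⟩) (by rw [← e2, ← e4, e5, neg_zero])
  apply hc
  exact Prod.ext (List.map_eq_nil_iff.1 e6) (List.map_eq_nil_iff.1 e7)

variable [Primcodable H] {s : ℕ → St H} {θ : ℕ → H}

/-- the strings where a relation contradicts the `e`-th operation -/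
def DD (s : ℕ → St H) (e : ℕ) (τ : List Bool) : Prop := ∃ t, ∃ c ∈ (s t).2.1, ∃ r, Gd e τ r c

theorem Run.Dhist (R : Run s) {t k : ℕ} (hk : k ∈ (s t).2.2) : ∃ x : Kr, encode x.1 = k ∧
    x.2.1.2.take x.1.2.length = x.1.2 ∧ DD s x.1.1 x.2.1.2 := by
  induction t with
  | zero =>
    rw [R.D0] at hk
    simp at hk
  | succ t ih =>
    rcases R.cases t with ⟨c, h⟩ | ⟨x, h⟩ | ⟨x, h⟩ | ⟨x, h⟩
    · rw [h.2.2.1] at hk
      exact ih hk
    · rw [h.1.2] at hk
      exact ih hk
    · rw [h.1.1] at hk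
      exact ih hk
    · rcases h.2 with h1 | ⟨⟨h1, h2⟩, h3, c, h4, h5⟩
      · rw [h1.2.1] at hk
        exact ih hk
      · rw [h3] at hk
        rcases List.mem_cons.1 hk with h6 | h6
        · exact ⟨x, h6.symm, h1.2.2.1.1, t + 1, c, h4, _, h5⟩
        · exact ih h6

theorem Lm.indep (L : Lm s θ) {Q : Set H} (hQ : Ord Q) {u v : ℕ} (hu : Pos s u) (hv : Pos s v)
    (huQ : θ u ∈ Q) (hvQ : θ v ∉ Q) {y : (ℕ × ℕ) × (ℕ × ℕ)} (hy : ¬ y.1 = y.2)
    (hrl : rl θ (List.replicate y.1.1 u ++ List.replicate y.1.2 v,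
      List.replicate y.2.1 u ++ List.replicate y.2.2 v)) : False := by
  obtain ⟨⟨a, b⟩, ⟨a', b'⟩⟩ := y
  simp only at hy hrl
  obtain ⟨T0, hT0⟩ := L.Qs (u + v + 1)
  obtain ⟨T1, hT1⟩ := L.pos_ev hu
  obtain ⟨T2, hT2⟩ := L.pos_ev hv
  obtain ⟨T, hTd⟩ : ∃ T, T = max T0 (max T1 T2) := ⟨_, rfl⟩
  have hq := hT0 T (by omega) _ (by
    constructor
    · intro i hi
      rcases List.mem_append.1 hi with h | h <;> rw [List.eq_of_mem_replicate h] <;> omega
    · intro i hi
      rcases List.mem_append.1 hi with h | h <;> rw [List.eq_of_mem_replicate h] <;> omega) hrl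
  have hqu := hT1 T (by omega)
  have hqv := hT2 T (by omega)
  unfold rl at hrl hq
  simp only [List.map_append, List.map_replicate, List.sum_append, List.sum_replicate] at hrl hq
  -- in integers
  have key : ∀ m m' : ℕ, 0 < m → m • θ u = m' • θ v → False := by
    intro m m' hm h
    have e1 : m • θ u ∈ Q := hQ.nsmul huQ m
    have e2 : -(m • θ u) ∈ Q := by
      rw [h, ← smul_neg]
      exact hQ.nsmul (hQ.neg hvQ) m'
    have e3 := hQ.anti _ e1 e2
    have e4 : θ u = 0 := L.tf m _ (by omega) (by rw [natCast_zsmul]; exact e3)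
    exact L.pos_ne hu (L.inj (by rw [e4, L.zero]))
  have h1 : ((a : ℤ) - a') • θ u = ((b' : ℤ) - b) • θ v := by
    simp only [sub_smul, natCast_zsmul]
    rw [sub_eq_sub_iff_add_eq_add, hrl]
    abel
  have h2 : ((a : ℤ) - a') * qq (s T) u = ((b' : ℤ) - b) * qq (s T) v := by
    simp only [nsmul_eq_mul] at hq
    linarith
  rcases lt_trichotomy ((a : ℤ) - a') 0 with h3 | h3 | h3
  · have h4 : (b' : ℤ) - b < 0 := by
      by_contra h5
      push Not at h5
      have h6 := mul_neg_of_neg_of_pos h3 hqu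
      rw [h2] at h6
      have h7 := mul_nonneg h5 hqv.le
      omega
    apply key (a' - a) (b - b') (by omega)
    rw [← natCast_zsmul, ← natCast_zsmul, Nat.cast_sub (by omega), Nat.cast_sub (by omega),
      ← neg_sub (a : ℤ), ← neg_sub (b' : ℤ), neg_smul, neg_smul, h1]
  · rw [h3, zero_mul] at h2
    rcases mul_eq_zero.1 h2.symm with h4 | h4
    · apply hy
      rw [Prod.mk.injEq]
      omega
    · omega
  · have h4 : 0 < (b' : ℤ) - b := by
      by_contra h5
      push Not at h5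
      have h6 := mul_pos h3 hqu
      rw [h2] at h6
      have h7 := mul_nonpos_of_nonpos_of_nonneg h5 hqv.le
      omega
    apply key (a - a') (b' - b) (by omega)
    rw [← natCast_zsmul, ← natCast_zsmul, Nat.cast_sub (by omega), Nat.cast_sub (by omega), h1]

theorem Lm.case2 (L : Lm s θ) {Q : Set H} (hQ : Ord Q) {X : ℕ → Bool} {e m0 : ℕ}
    (hno : ∀ τ, pre X m0 <+: τ → ¬ DD s e τ)
    (hcv : ∀ i, (θ i ∈ Q → ∃ m r, cv e (pre X m) i true r) ∧
      (θ i ∉ Q → ∃ m r, cv e (pre X m) i false r))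
    {u v : ℕ} (hu : Pos s u) (hv : Pos s v) (huQ : θ u ∈ Q) (hvQ : θ v ∉ Q) : False := by
  obtain ⟨k, hk⟩ : ∃ k, k = encode (e, pre X m0) := ⟨_, rfl⟩
  obtain ⟨n0, hn0⟩ := bdd (fun (y : H) m => ∃ i < m, θ i = y)
    (fun y m m' hm ⟨i, hi, h⟩ => ⟨i, by omega, h⟩) k (by
      intro y _
      obtain ⟨i, hi⟩ := L.surj y
      exact ⟨i + 1, i, by omega, hi⟩)
  obtain ⟨z, hz⟩ : ∃ z, z = k + n0 + u + v + 1 := ⟨_, rfl⟩
  obtain ⟨w, hw⟩ := L.inf z θ
  obtain ⟨g, rfl⟩ := L.surj w
  obtain ⟨M, hM⟩ := bdd_nat (fun i m => (θ i ∈ Q → cv e (pre X m) i true m) ∧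
      (θ i ∉ Q → cv e (pre X m) i false m))
    (fun i m m' hm h => ⟨fun h1 => cv_mono (pre_prefix X hm) hm (h.1 h1),
      fun h1 => cv_mono (pre_prefix X hm) hm (h.2 h1)⟩) (max z (g + 1)) (by
      intro i _
      by_cases h : θ i ∈ Q
      · obtain ⟨m, r, h1⟩ := (hcv i).1 h
        exact ⟨max m r, fun _ => cv_mono (pre_prefix X (le_max_left _ _)) (le_max_right _ _) h1,
          fun h2 => absurd h h2⟩
      · obtain ⟨m, r, h1⟩ := (hcv i).2 h
        exact ⟨max m r, fun h2 => absurd h2 h, fun _ => cv_mono (pre_prefix X (le_max_left _ _))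
          (le_max_right _ _) h1⟩)
  obtain ⟨τ, hτ⟩ : ∃ τ, τ = pre X (max m0 M) := ⟨_, rfl⟩
  have hστ : pre X m0 <+: τ := by
    rw [hτ]
    exact pre_prefix X (le_max_left _ _)
  have hcvt : ∀ i < max z (g + 1), (θ i ∈ Q → cv e τ i true M) ∧ (θ i ∉ Q → cv e τ i false M) := by
    intro i hi
    rw [hτ]
    exact ⟨fun h1 => cv_mono (pre_prefix X (le_max_right _ _)) le_rfl ((hM i hi).1 h1),
      fun h1 => cv_mono (pre_prefix X (le_max_right _ _)) le_rfl ((hM i hi).2 h1)⟩
  have hcvo : ∀ i < max z (g + 1), cv e τ i true M ∨ cv e τ i false M := by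
    intro i hi
    by_cases h : θ i ∈ Q
    · exact Or.inl ((hcvt i hi).1 h)
    · exact Or.inr ((hcvt i hi).2 h)
  obtain ⟨T0, hT0⟩ := L.stab (max z (g + 1))
  obtain ⟨T1, hT1⟩ := L.nlim (max z (g + 1))
  obtain ⟨T2, hT2⟩ := L.pos_ev hu
  obtain ⟨T3, hT3⟩ := L.pos_ev hv
  obtain ⟨t, ht, h⟩ := L.R.att3 ((e, pre X m0), ((z, τ), ((u, v), (g, M))))
    (max (max T0 T1) (max T2 T3))
  have hst := hT0 t (by omega)
  have hnt := hT1 t (by omega)
  rcases h.2 with ⟨_, _, h1⟩ | ⟨_, _, c, h1, h2⟩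
  · rcases h1 with h1 | h1
    · apply h1
      refine ⟨⟨?_, ?_, ?_⟩, ?_, ⟨?_, ?_, ?_, ?_⟩, ⟨hT2 t (by omega), hT3 t (by omega)⟩, ?_, ?_, ?_,
        ?_⟩
      · intro hkD
        obtain ⟨x, hx1, hx2, hx3⟩ := L.R.Dhist hkD
        have hx4 := encode_injective hx1
        simp only at hx4
        rw [hx4] at hx2 hx3
        simp only at hx2 hx3
        refine hno x.2.1.2 ?_ hx3
        rw [← hx2]
        exact List.take_prefix _ _
      · simp only
        omega
      · simp only
        omega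
      · rintro ⟨y, hy1, hy2⟩
        apply hy2
        obtain ⟨i, hi, hiy⟩ := hn0 y (by rw [hk]; exact hy1)
        refine ⟨i, by simp only; omega, ?_⟩
        rw [hst i (by omega), hiy]
      · simp only
        exact (List.prefix_iff_eq_take.1 hστ).symm
      · simp only
        omega
      · simp only
        omega
      · simp only
        omega
      · intro i hi
        simp only at hi
        exact Or.inr (hcvo i (by omega))
      · exact hcvo g (by omega)
      · exact (hcvt u (by omega)).1 huQ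
      · exact (hcvt v (by omega)).2 hvQ
    · rcases h1 with ⟨y, hy1, hy2⟩ | ⟨r, hr⟩
      · simp only at hy2
        refine L.indep hQ hu hv huQ hvQ hy1 ((rl_congr (n := max z (g + 1)) ?_ hst).1 hy2)
        constructor
        · intro i hi
          rcases List.mem_append.1 hi with h | h <;> rw [List.eq_of_mem_replicate h] <;> omega
        · intro i hi
          rcases List.mem_append.1 hi with h | h <;> rw [List.eq_of_mem_replicate h] <;> omega
      · simp only at hr
        apply hw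
        rw [hst g (by omega)] at hr
        exact ⟨r, (Dr_congr fun i hi => hst i (by omega)).1 hr⟩
  · exact hno τ hστ ⟨t + 1, c, h1, _, h2⟩

/-- An order below the generic sequence is computable. -/
theorem Lm.cases_order (L : Lm s θ) {Q : Set H} (hQ : Ord Q) {X : ℕ → Bool} {e : ℕ}
    (hX : ∃ m, DD s e (pre X m) ∨ ∀ τ, pre X m <+: τ → ¬ DD s e τ)
    (hcv1 : ∀ i m r, cv e (pre X m) i true r → θ i ∈ Q)
    (hcv2 : ∀ i m r, cv e (pre X m) i false r → θ i ∉ Q)
    (hcv3 : ∀ i, θ i ∈ Q → ∃ m r, cv e (pre X m) i true r)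
    (hcv4 : ∀ i, θ i ∉ Q → ∃ m r, cv e (pre X m) i false r) :
    (∀ i, θ i ∈ Q ↔ i = 0 ∨ Pos s i) ∨ ∀ i, θ i ∈ Q ↔ i = 0 ∨ Neg s i := by
  have hne : ∀ i, i ≠ 0 → θ i ≠ 0 := by
    intro i hi h
    exact hi (L.inj (by rw [h, L.zero]))
  obtain ⟨m, hm⟩ := hX
  rcases hm with ⟨t, c, hc, r, hg1, hg2, hg3⟩ | hm
  · exact absurd (hQ.case1 hg1 (L.of_mem hc)
      (fun i hi => ⟨hcv1 i m r (hg2 i hi).2, hne i (hg2 i hi).1⟩)
      (fun i hi => ⟨hcv2 i m r (hg3 i hi).2, hne i (hg3 i hi).1⟩)) id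
  · by_cases h1 : ∀ u, Pos s u → θ u ∈ Q
    · left
      intro i
      constructor
      · intro hi
        by_cases hi0 : i = 0
        · exact Or.inl hi0
        · right
          rcases L.sign hi0 with h2 | h2
          · exact h2
          · exfalso
            obtain ⟨j, hj⟩ := L.surj (-θ i)
            have h3 := L.pos_of_add (j := j) (by rw [hj, add_neg_cancel]) h2
            have h4 := h1 j h3
            rw [hj] at h4
            exact hne i hi0 (hQ.anti _ hi h4)
      · rintro (hi | hi)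
        · rw [hi, L.zero]
          exact hQ.zero
        · exact h1 i hi
    · push Not at h1
      obtain ⟨v, hv, hvQ⟩ := h1
      by_cases h2 : ∃ u, Pos s u ∧ θ u ∈ Q
      · obtain ⟨u, hu, huQ⟩ := h2
        exact absurd (L.case2 hQ hm (fun i => ⟨hcv3 i, hcv4 i⟩) hu hv huQ hvQ) id
      · push Not at h2
        right
        intro i
        constructor
        · intro hi
          by_cases hi0 : i = 0
          · exact Or.inl hi0
          · right
            rcases L.sign hi0 with h3 | h3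
            · exact absurd hi (h2 i h3)
            · exact h3
        · rintro (hi | hi)
          · rw [hi, L.zero]
            exact hQ.zero
          · obtain ⟨j, hj⟩ := L.surj (-θ i)
            have h3 := L.pos_of_add (j := j) (by rw [hj, add_neg_cancel]) hi
            have h4 := hQ.neg (h2 j h3)
            rwa [hj, neg_neg] at h4

theorem s1_Pos (hs : Computable s) : S1 fun i => Pos s i := by
  refine S1.ex (p := fun i t => i < nn (s t) ∧ 0 < qq (s t) i) ?_
  have e1 : Computable fun x : ℕ × ℕ => s x.2 := hs.comp Computable.snd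
  exact (CD.and (cd_lt Computable.fst (c_nn e1)) (cd_qlt (Computable.const 0)
    (c_qq e1 Computable.fst))).1

theorem s1_Neg (hs : Computable s) : S1 fun i => Neg s i := by
  refine S1.ex (p := fun i t => i < nn (s t) ∧ qq (s t) i < 0) ?_
  have e1 : Computable fun x : ℕ × ℕ => s x.2 := hs.comp Computable.snd
  exact (CD.and (cd_lt Computable.fst (c_nn e1)) (cd_qlt (c_qq e1 Computable.fst)
    (Computable.const 0))).1

theorem comp_ind {A B : ℕ → Prop} (hA : S1 A) (hB : S1 B) (h : ∀ i, A i ↔ ¬ B i) :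
    Computable (Set.indicator {i | A i} (fun _ => (1 : ℕ)) : ℕ → ℕ) := by
  classical
  refine computable_of_s1 (((hA.comp Primrec.fst).and (S1.of_prim (Primrec.eq.comp Primrec.snd
    (Primrec.const 1)))).or ((hB.comp Primrec.fst).and (S1.of_prim (Primrec.eq.comp Primrec.snd
    (Primrec.const 0)))) |>.of_eq ?_)
  rintro ⟨i, b⟩
  simp only [Set.indicator_apply, Set.mem_ofPred_eq]
  have h1 := h i
  by_cases h2 : A i
  · have h3 : ¬ B i := h1.1 h2
    simp only [h2, h3, true_and, false_and, or_false, if_true]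
    exact eq_comm
  · have h3 : B i := by
      by_contra h4
      exact h2 (h1.2 h4)
    simp only [h2, h3, true_and, false_and, false_or, if_false]
    exact eq_comm

theorem Lm.comp_pos (L : Lm s θ) (hs : Computable s) {Q : Set H}
    (h : ∀ i, θ i ∈ Q ↔ i = 0 ∨ Pos s i) :
    Computable (Set.indicator (θ ⁻¹' Q) (fun _ => (1 : ℕ)) : ℕ → ℕ) := by
  have h1 := comp_ind (A := fun i => i = 0 ∨ Pos s i) (B := fun i => Neg s i)
    ((S1.of_prim (Primrec.eq.comp Primrec.id (Primrec.const 0))).or (s1_Pos hs)) (s1_Neg hs) (by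
      intro i
      constructor
      · rintro (h1 | h1) h2
        · exact L.neg_ne h2 h1
        · exact L.not_both h1 h2
      · intro h2
        by_cases h3 : i = 0
        · exact Or.inl h3
        · exact Or.inr ((L.sign h3).resolve_right h2))
  have h2 : (θ ⁻¹' Q) = {i | i = 0 ∨ Pos s i} := by
    ext i
    exact h i
  rw [h2]
  exact h1

theorem Lm.comp_neg (L : Lm s θ) (hs : Computable s) {Q : Set H}
    (h : ∀ i, θ i ∈ Q ↔ i = 0 ∨ Neg s i) :
    Computable (Set.indicator (θ ⁻¹' Q) (fun _ => (1 : ℕ)) : ℕ → ℕ) := by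
  have h1 := comp_ind (A := fun i => i = 0 ∨ Neg s i) (B := fun i => Pos s i)
    ((S1.of_prim (Primrec.eq.comp Primrec.id (Primrec.const 0))).or (s1_Neg hs)) (s1_Pos hs) (by
      intro i
      constructor
      · rintro (h1 | h1) h2
        · exact L.pos_ne h2 h1
        · exact L.not_both h2 h1
      · intro h2
        by_cases h3 : i = 0
        · exact Or.inl h3
        · exact Or.inr ((L.sign h3).resolve_left h2))
  have h2 : (θ ⁻¹' Q) = {i | i = 0 ∨ Neg s i} := by
    ext i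
    exact h i
  rw [h2]
  exact h1

theorem Lm.exists_X (L : Lm s θ) (hs : Computable s) : ∃ X : ℕ → Bool, ¬ Computable X ∧
    ∀ Q : Set H, Ord Q →
      TuringReducible ((Set.indicator (θ ⁻¹' Q) (fun _ => (1 : ℕ)) : ℕ → ℕ) : ℕ →. ℕ) (chi X) →
      Computable (Set.indicator (θ ⁻¹' Q) (fun _ => (1 : ℕ)) : ℕ → ℕ) := by
  classical
  obtain ⟨X, hX⟩ := exists_generic (fun n τ => if n % 2 = 0 then DD s (n / 2) τ else NC (n / 2) τ)
  have hX1 : ∀ e, ∃ m, DD s e (pre X m) ∨ ∀ τ, pre X m <+: τ → ¬ DD s e τ := by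
    intro e
    have h := hX (2 * e)
    have h1 : (2 * e) % 2 = 0 := by omega
    have h2 : (2 * e) / 2 = e := by omega
    simpa only [h1, h2, if_true] using h
  have hX2 : ∀ j, ∃ m, NC j (pre X m) ∨ ∀ τ, pre X m <+: τ → ¬ NC j τ := by
    intro e
    have h := hX (2 * e + 1)
    have h1 : ¬ (2 * e + 1) % 2 = 0 := by omega
    have h2 : (2 * e + 1) / 2 = e := by omega
    simpa only [h1, h2, if_false] using h
  refine ⟨X, nc_of hX2, fun Q hQ hred => ?_⟩
  obtain ⟨e, he⟩ := exists_op hred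
  have hi1 : ∀ i, Set.indicator (θ ⁻¹' Q) (fun _ => (1 : ℕ)) i = Bool.toNat true ↔ θ i ∈ Q := by
    intro i
    by_cases h : θ i ∈ Q <;> simp [h]
  have hi2 : ∀ i, Set.indicator (θ ⁻¹' Q) (fun _ => (1 : ℕ)) i = Bool.toNat false ↔ θ i ∉ Q := by
    intro i
    by_cases h : θ i ∈ Q <;> simp [h]
  rcases L.cases_order hQ (hX1 e) (fun i m r h => (hi1 i).1 ((he i true).2 ⟨m, r, h⟩))
    (fun i m r h => (hi2 i).1 ((he i false).2 ⟨m, r, h⟩))
    (fun i h => (he i true).1 ((hi1 i).2 h)) (fun i h => (he i false).1 ((hi2 i).2 h)) with h | h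
  · exact L.comp_pos hs h
  · exact L.comp_neg hs h

/-- the official cone -/
def PP (s : ℕ → St H) (θ : ℕ → H) : Set H := {x | ∃ i, θ i = x ∧ (i = 0 ∨ Pos s i)}

theorem Lm.mem_PP (L : Lm s θ) {i : ℕ} : θ i ∈ PP s θ ↔ i = 0 ∨ Pos s i := by
  constructor
  · rintro ⟨j, hj, h⟩
    rw [← L.inj hj]
    exact h
  · exact fun h => ⟨i, rfl, h⟩

theorem Lm.ord_PP (L : Lm s θ) : Ord (PP s θ) := by
  constructor
  · rintro _ ⟨i, rfl, hi⟩ _ ⟨j, rfl, hj⟩
    obtain ⟨k, hk⟩ := L.surj (θ i + θ j)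
    refine ⟨k, hk, ?_⟩
    by_cases hi0 : i = 0
    · rw [hi0, L.zero, zero_add] at hk
      rw [L.inj hk]
      exact hj
    by_cases hj0 : j = 0
    · rw [hj0, L.zero, add_zero] at hk
      rw [L.inj hk]
      exact hi
    have hi1 := hi.resolve_left hi0
    have hj1 := hj.resolve_left hj0
    right
    obtain ⟨T0, hT0⟩ := L.Qs (i + j + k + 1)
    obtain ⟨T1, hT1⟩ := L.pos_ev hi1
    obtain ⟨T2, hT2⟩ := L.pos_ev hj1
    obtain ⟨T3, hT3⟩ := L.nlim (i + j + k + 1)
    obtain ⟨T, hTd⟩ : ∃ T, T = max (max T0 T3) (max T1 T2) := ⟨_, rfl⟩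
    have h2 := hT0 T (by omega) ([i, j], [k]) (by
      constructor
      · intro k hk
        simp only [List.mem_cons, List.not_mem_nil, or_false] at hk
        omega
      · intro k hk
        simp only [List.mem_cons, List.not_mem_nil, or_false] at hk
        omega) (by unfold rl; simp [hk])
    have h3 := hT1 T (by omega)
    have h4 := hT2 T (by omega)
    have h5 := hT3 T (by omega)
    unfold rl at h2
    simp only [List.map_cons, List.map_nil, List.sum_cons, List.sum_nil, add_zero] at h2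
    exact ⟨T, by omega, by omega⟩
  · rintro _ ⟨i, rfl, hi⟩ ⟨j, hj, hj'⟩
    by_cases hi0 : i = 0
    · rw [hi0, L.zero]
    · exfalso
      have h1 := L.neg_of_add (i := i) (j := j) (by rw [hj, add_neg_cancel])
        (hi.resolve_left hi0)
      rcases hj' with h2 | h2
      · exact L.neg_ne h1 h2
      · exact L.not_both h2 h1
  · intro a
    obtain ⟨i, rfl⟩ := L.surj a
    by_cases hi0 : i = 0
    · exact Or.inl ⟨i, rfl, Or.inl hi0⟩
    rcases L.sign hi0 with h | h
    · exact Or.inl ⟨i, rfl, Or.inr h⟩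
    · right
      obtain ⟨j, hj⟩ := L.surj (-θ i)
      exact ⟨j, hj, Or.inr (L.pos_of_add (j := j) (by rw [hj, add_neg_cancel]) h)⟩

/-- the addition of the copy is computable -/
theorem Lm.comp_add (L : Lm s θ) (hs : Computable s) (μ : ℕ ≃ H) (hμ : ∀ i, μ i = θ i) :
    Computable₂ (fun a b : ℕ => μ.symm (μ a + μ b)) := by
  have h1 : Computable fun x : ℕ × ℕ => μ.symm (μ x.1 + μ x.2) := by
    refine computable_of_s1 ?_
    have h2 : S1 fun x : (ℕ × ℕ) × ℕ => ∃ t, (([x.1.1, x.1.2], [x.2]) : Rel) ∈ (s t).2.1 := by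
      refine S1.ex (p := fun (x : (ℕ × ℕ) × ℕ) t =>
        (([x.1.1, x.1.2], [x.2]) : Rel) ∈ (s t).2.1) ?_
      have e1 : Computable fun y : ((ℕ × ℕ) × ℕ) × ℕ => s y.2 := hs.comp Computable.snd
      refine (cd_mem ?_ (c_C e1)).1
      refine Primrec.to_comp ?_
      have a1 : Primrec fun y : ((ℕ × ℕ) × ℕ) × ℕ => y.1.1.1 :=
        Primrec.fst.comp (Primrec.fst.comp Primrec.fst)
      have a2 : Primrec fun y : ((ℕ × ℕ) × ℕ) × ℕ => y.1.1.2 :=
        Primrec.snd.comp (Primrec.fst.comp Primrec.fst)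
      have a3 : Primrec fun y : ((ℕ × ℕ) × ℕ) × ℕ => y.1.2 := Primrec.snd.comp Primrec.fst
      exact (Primrec.list_cons.comp a1 (Primrec.list_cons.comp a2 (Primrec.const []))).pair
        (Primrec.list_cons.comp a3 (Primrec.const []))
    refine h2.of_eq fun x => ?_
    obtain ⟨⟨a, b⟩, c⟩ := x
    simp only
    constructor
    · rintro ⟨t, ht⟩
      have h3 := L.of_mem ht
      unfold rl at h3
      simp only [List.map_cons, List.map_nil, List.sum_cons, List.sum_nil, add_zero] at h3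
      rw [Equiv.symm_apply_eq, hμ, hμ, hμ]
      exact h3
    · intro h3
      rw [Equiv.symm_apply_eq, hμ, hμ, hμ] at h3
      refine L.commit ?_
      unfold rl
      simpa using h3
  exact h1

end

end Pool.Agent.H54OG
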