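import Pool.Agent.H54OG.Ex

set_option autoImplicit false

namespace Pool.Agent.H54OG

open Filter

section
variable {H : Type} [AddCommGroup H]

theorem sum_single_add {M : Type*} [AddCommGroup M] (n u : ℕ) (hu : u < n) (A : ℤ) (y : ℕ → M) :
    ∑ i ∈ Finset.range n, (if i = u then A else 0) • y i = A • y u := by
  rw [Finset.sum_eq_single u]
  · rw [if_pos rfl]
  · intro i _ hi
    rw [if_neg hi, zero_smul]
  · intro h
    exact absurd (Finset.mem_range.2 hu) h

theorem sum_restrict {M : Type*} [AddCommGroup M] (n s : ℕ) (hs : s ≤ n) (d : ℕ → ℤ) (y : ℕ → M) :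
    ∑ i ∈ Finset.range n, (if i < s then d i else 0) • y i = ∑ i ∈ Finset.range s, d i • y i := by
  rw [← Finset.sum_subset (Finset.range_subset_range.2 hs)]
  · refine Finset.sum_congr rfl fun i hi => ?_
    rw [if_pos (Finset.mem_range.1 hi)]
  · intro i _ hi
    rw [if_neg fun h => hi (Finset.mem_range.2 h), zero_smul]

/-- Existence for the kill step. -/
theorem ex_kill (htf : TF H) (n s u v g : ℕ) (h : ℕ → H) (q : ℕ → ℤ) (hs : s ≤ n) (hu : u < s)
    (hv : v < s) (hg : g < n) (h0 : h 0 = 0) (q0 : q 0 = 0) (hqu : 0 < q u) (hqv : 0 < q v)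
    (hinj : ∀ i < n, ∀ j < n, h i = h j → i = j) (ε : ℕ → Bool) (hεu : ε u = true)
    (hεv : ε v = false) (hind : ∀ a b : ℤ, a • h u = b • h v → a = 0 ∧ b = 0)
    (hgS : ∀ (m : ℤ) (b : ℕ → ℤ), m ≠ 0 → m • h g ≠ ∑ i ∈ Finset.range s, b i • h i)
    (F : Finset H) :
    ∃ (h' : ℕ → H) (q' D : ℕ → ℤ), (∀ i < s, h' i = h i) ∧
      (∀ c, sup n c → rl h c → rl q c → rl h' c ∧ rl q' c) ∧
      (∀ i < n, ∀ j < n, h' i = h' j → i = j) ∧ (∀ i < n, h' i = h i ∨ h' i ∉ F) ∧
      (∀ i < n, ∀ j < n, q i < q j → q' i < q' j) ∧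
      ∑ i ∈ Finset.range n, D i • h' i = 0 ∧ ∑ i ∈ Finset.range n, D i • q' i = 0 ∧
      (∀ i < n, 0 < D i → i ≠ 0 ∧ (i < s ∨ i = g) ∧ ε i = true) ∧
      (∀ i < n, D i < 0 → i ≠ 0 ∧ (i < s ∨ i = g) ∧ ε i = false) ∧ D g ≠ 0 := by
  classical
  have huv : u ≠ v := by
    rintro rfl
    rw [hεu] at hεv
    exact absurd hεv (by decide)
  have hgs : s ≤ g := by
    by_contra hlt
    push Not at hlt
    apply hgS 1 (fun i => if i = g then 1 else 0) one_ne_zero
    rw [sum_single_add s g hlt]
  obtain ⟨lam, f, c, m, b, hc, hm, hrel, hS, hgc, hb⟩ :=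
    lattice n (fun i => ((h i, q i) : H × ℤ)) (Finset.range s) g hg (by
      intro m b hm hmb
      apply hgS m b hm
      have h1 := congrArg Prod.fst hmb
      simpa [Prod.fst_sum] using h1)
  have hb1 : m • (h g - c • ∑ i ∈ Finset.range n, f i • h i) = ∑ i ∈ Finset.range s, b i • h i := by
    have h1 := congrArg Prod.fst hb
    simpa [Prod.fst_sum] using h1
  have hb2 : m * (q g - c * ∑ i ∈ Finset.range n, f i * q i) = ∑ i ∈ Finset.range s, b i * q i := by
    have h1 := congrArg Prod.snd hb
    simpa [Prod.snd_sum] using h1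
  have hrel' : ∀ c', sup n c' → rl h c' → rl q c' → ev lam c' = 0 := by
    intro c' hc' h1 h2
    have h3 := hrel (vc c') (by
      rw [← ev_eq hc' (fun i => ((h i, q i) : H × ℤ))]
      have e1 := ev_map (AddMonoidHom.fst H ℤ) (fun i => ((h i, q i) : H × ℤ)) c'
      have e2 := ev_map (AddMonoidHom.snd H ℤ) (fun i => ((h i, q i) : H × ℤ)) c'
      refine Prod.ext ?_ ?_
      · exact e1.symm.trans (rl_iff.1 h1)
      · exact e2.symm.trans (rl_iff.1 h2))
    rw [ev_eq hc' lam]
    simpa using h3
  let e : ℕ → ℤ := fun i => if ε i = true then 1 else -1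
  have he : ∀ i, e i = 1 ∧ ε i = true ∨ e i = -1 ∧ ε i = false := by
    intro i
    by_cases hi : ε i = true
    · exact Or.inl ⟨if_pos hi, hi⟩
    · exact Or.inr ⟨if_neg hi, by simpa using hi⟩
  have heg : e g * e g = 1 := by
    rcases he g with ⟨h1, _⟩ | ⟨h1, _⟩ <;> rw [h1] <;> norm_num
  have heu : e u = 1 := if_pos hεu
  have hev : e v = -1 := if_neg (by rw [hεv]; decide)
  obtain ⟨φ, hφ⟩ := ext_hom 2 (fun i => if i = 0 then h u else h v)
    (fun i => if i = 0 then -(e g : ℚ) else 0) (by
      intro d hd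
      rw [Finset.sum_range_succ, Finset.sum_range_one] at hd ⊢
      simp only [if_true, one_ne_zero, if_false] at hd ⊢
      have h1 := hind (d 0) (-d 1) (by rw [neg_smul]; exact eq_neg_of_add_eq_zero_left hd)
      rw [h1.1]
      simp)
  have hφu : φ (h u) = -(e g : ℚ) := by
    have := hφ 0 (by omega)
    simpa using this
  have hφv : φ (h v) = 0 := by
    have := hφ 1 (by omega)
    simpa using this
  obtain ⟨D0, hD0, κ, hκ⟩ := clear_denom n (fun i => φ (h i))
  have hevk : ∀ c, sup n c → ((ev κ c : ℤ) : ℚ) = D0 * φ (ev h c) := by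
    intro c hc
    have h1 : ((ev κ c : ℤ) : ℚ) = ev (fun i => (κ i : ℚ)) c :=
      (ev_map (Int.castAddHom ℚ) κ c).symm
    rw [h1, ev_congr hc (y := fun i => D0 • (φ (h i))) (fun i hi => by
      rw [hκ i hi, zsmul_eq_mul]), ev_smul D0, ev_map φ, zsmul_eq_mul]
  have hκ0 : κ 0 = 0 := by
    have h1 := hκ 0 (by omega)
    rw [h0, map_zero, mul_zero] at h1
    exact_mod_cast h1
  have hκu : κ u = -(D0 * e g) := by
    have h1 := hκ u (by omega)
    rw [hφu] at h1
    have h2 : (κ u : ℚ) = ((-(D0 * e g) : ℤ) : ℚ) := by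
      rw [h1]
      push_cast
      ring
    exact_mod_cast h2
  have hκv : κ v = 0 := by
    have h1 := hκ v (by omega)
    rw [hφv, mul_zero] at h1
    exact_mod_cast h1
  have hb3 : m * (κ g - c * ∑ i ∈ Finset.range n, f i * κ i) = ∑ i ∈ Finset.range s, b i * κ i := by
    have h1 := congrArg (fun x => (D0 : ℚ) * φ x) hb1
    simp only [map_zsmul, map_sub, map_sum, zsmul_eq_mul] at h1
    have h2 : ((m * (κ g - c * ∑ i ∈ Finset.range n, f i * κ i) : ℤ) : ℚ) =
        ((∑ i ∈ Finset.range s, b i * κ i : ℤ) : ℚ) := by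
      push_cast
      rw [hκ g hg]
      have h3 : ∑ i ∈ Finset.range n, (f i : ℚ) * κ i =
          D0 * ∑ i ∈ Finset.range n, (f i : ℚ) * φ (h i) := by
        rw [Finset.mul_sum]
        refine Finset.sum_congr rfl fun i hi => ?_
        rw [hκ i (Finset.mem_range.1 hi)]
        ring
      have h4 : ∑ i ∈ Finset.range s, (b i : ℚ) * κ i =
          D0 * ∑ i ∈ Finset.range s, (b i : ℚ) * φ (h i) := by
        rw [Finset.mul_sum]
        refine Finset.sum_congr rfl fun i hi => ?_
        rw [hκ i (by have := Finset.mem_range.1 hi; omega)]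
        ring
      rw [h3, h4, ← h1]
      ring
    exact_mod_cast h2
  -- the coefficients
  let s0 : ℕ → ℤ := fun i => if i = 0 ∨ i = u ∨ i = v then 0 else -(e g * e i * (|b i| + 1))
  let s1 : ℕ → ℤ := fun i => (if i = u then -(e g * q v) else 0) + if i = v then e g * q u else 0
  have hs1 : ∀ {M : Type _} [AddCommGroup M] (y : ℕ → M),
      ∑ i ∈ Finset.range s, s1 i • y i = (-(e g * q v)) • y u + (e g * q u) • y v := by
    intro M _ y
    simp only [s1, add_smul, Finset.sum_add_distrib]
    rw [sum_single_add s u hu, sum_single_add s v hv]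
  have hs1h : ∑ i ∈ Finset.range s, s1 i • h i = (-(e g * q v)) • h u + (e g * q u) • h v := by
    simp only [s1, add_smul, Finset.sum_add_distrib]
    rw [sum_single_add s u hu, sum_single_add s v hv]
  have hs1z : ∀ y : ℕ → ℤ, ∑ i ∈ Finset.range s, s1 i * y i =
      (-(e g * q v)) * y u + (e g * q u) * y v := by
    intro y
    exact hs1 y
  let w0 : H := ∑ i ∈ Finset.range s, s0 i • h i - ∑ i ∈ Finset.range n, f i • h i
  let w1 : H := (-(e g * q v)) • h u + (e g * q u) • h v
  have hw1 : w1 ≠ 0 := by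
    intro hw
    have h1 := hind (e g * q v) (e g * q u) (by
      have h2 : (-(e g * q v)) • h u + (e g * q u) • h v = 0 := hw
      rw [neg_smul] at h2
      exact (eq_of_sub_eq_zero (by rw [← h2]; abel)).symm)
    rcases mul_eq_zero.1 h1.1 with h2 | h2
    · rw [h2] at heg
      norm_num at heg
    · omega
  let y0 : ℤ := ∑ i ∈ Finset.range s, s0 i * q i - ∑ i ∈ Finset.range n, f i * q i
  let A : ℤ := ∑ i ∈ Finset.range s, s0 i * κ i - ∑ i ∈ Finset.range n, f i * κ i
  let B : ℤ := q v * D0
  have hB : 0 < B := mul_pos hqv hD0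
  obtain ⟨K, ⟨⟨⟨hK1, hK2⟩, hK3⟩, hK4⟩, hK5⟩ := ((((ev_good htf n h lam w0 w1 hw1 hinj F).and
    (ev_ord n (fun i => B * q i) (fun i => A * q i - y0 * κ i))).and
    (eventually_gt_atTop (b u).natAbs)).and (eventually_gt_atTop (b v).natAbs)).exists
  let w : H := w0 + (K : ℤ) • w1
  let y1 : ℤ := A + K * B
  let sg : ℕ → ℤ := fun i => s0 i + K * s1 i
  have hsg : ∀ i < s, i ≠ 0 → ∃ σ : ℤ, |b i| < σ ∧ sg i = -(e g * e i * σ) := by
    intro i hi hi0
    by_cases hiu : i = u
    · refine ⟨K * q v, ?_, ?_⟩
      · rw [hiu]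
        have h1 : |b u| < K := by
          rw [Int.abs_eq_natAbs]
          exact_mod_cast hK4
        exact lt_of_lt_of_le h1 (le_mul_of_one_le_right (by omega) (by omega))
      · have h2 : s0 i = 0 := if_pos (Or.inr (Or.inl hiu))
        have h3 : s1 i = -(e g * q v) := by
          simp only [s1]
          rw [if_pos hiu, if_neg (by rw [hiu]; exact huv), add_zero]
        simp only [sg]
        rw [h2, h3, hiu, heu]
        ring
    · by_cases hiv : i = v
      · refine ⟨K * q u, ?_, ?_⟩
        · rw [hiv]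
          have h1 : |b v| < K := by
            rw [Int.abs_eq_natAbs]
            exact_mod_cast hK5
          exact lt_of_lt_of_le h1 (le_mul_of_one_le_right (by omega) (by omega))
        · have h2 : s0 i = 0 := if_pos (Or.inr (Or.inr hiv))
          have h3 : s1 i = (e g * q u) := by
            simp only [s1]
            rw [if_neg hiu, if_pos hiv, zero_add]
          simp only [sg]
          rw [h2, h3, hiv, hev]
          ring
      · refine ⟨|b i| + 1, by omega, ?_⟩
        have h2 : s0 i = -(e g * e i * (|b i| + 1)) := if_neg (by tauto)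
        have h3 : s1 i = 0 := by
          simp only [s1]
          rw [if_neg hiu, if_neg hiv, zero_add]
        simp only [sg]
        rw [h2, h3]
        ring
  let dS : ℕ → ℤ := fun i => if i = 0 then 0 else -(e g * (b i + m * c * sg i))
  let D : ℕ → ℤ := fun i => (if i = g then e g * m else 0) + if i < s then dS i else 0
  have hD1 : ∀ i < s, D i = dS i := by
    intro i hi
    simp only [D]
    rw [if_neg (by omega), if_pos hi, zero_add]
  have hDg : D g = e g * m := by
    have h1 : ¬ g < s := by omega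
    simp only [D, h1, if_true, if_false, add_zero]
  have hD2 : ∀ i, s ≤ i → i ≠ g → D i = 0 := by
    intro i hi hig
    simp only [D]
    rw [if_neg hig, if_neg (by omega), add_zero]
  have hsumD : ∀ {M : Type _} [AddCommGroup M] (y : ℕ → M), y 0 = 0 →
      ∑ i ∈ Finset.range n, D i • y i = (e g * m) • y g - e g • (∑ i ∈ Finset.range s, b i • y i +
        (m * c) • ∑ i ∈ Finset.range s, sg i • y i) := by
    intro M _ y hy
    simp only [D, add_smul, Finset.sum_add_distrib]
    rw [sum_single_add n g hg, sum_restrict n s hs, sub_eq_add_neg, add_right_inj, Finset.smul_sum,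
      ← Finset.sum_add_distrib, Finset.smul_sum, ← Finset.sum_neg_distrib]
    refine Finset.sum_congr rfl fun i _ => ?_
    by_cases hi : i = 0
    · simp only [dS, hi, if_true, hy, smul_zero, add_zero, neg_zero]
    · simp only [dS, if_neg hi, neg_smul, mul_smul, add_smul, smul_add]
  have hsumz : ∀ y : ℕ → ℤ, y 0 = 0 →
      ∑ i ∈ Finset.range n, D i * y i = (e g * m) * y g - e g * (∑ i ∈ Finset.range s, b i * y i +
        (m * c) * ∑ i ∈ Finset.range s, sg i * y i) := fun y hy => hsumD y hy
  have hsgsum : ∀ y : ℕ → ℤ, ∑ i ∈ Finset.range s, sg i * y i =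
      ∑ i ∈ Finset.range s, s0 i * y i + K * ((-(e g * q v)) * y u + (e g * q u) * y v) := by
    intro y
    rw [← hs1z, Finset.mul_sum, ← Finset.sum_add_distrib]
    refine Finset.sum_congr rfl fun i _ => ?_
    simp only [sg]
    ring
  have hsgsumh : ∑ i ∈ Finset.range s, sg i • h i =
      ∑ i ∈ Finset.range s, s0 i • h i + (K : ℤ) • w1 := by
    have hs1h' : ∑ i ∈ Finset.range s, s1 i • h i = w1 := hs1h
    rw [← hs1h', Finset.smul_sum, ← Finset.sum_add_distrib]
    refine Finset.sum_congr rfl fun i _ => ?_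
    simp only [sg, add_smul, mul_smul]
  have hDq : ∑ i ∈ Finset.range n, D i * q i = -(e g * m * c * y0) := by
    rw [hsumz q q0, hsgsum q, ← hb2]
    simp only [y0]
    ring
  have hDk : ∑ i ∈ Finset.range n, D i * κ i = -(e g * m * c * y1) := by
    rw [hsumz κ hκ0, hsgsum κ, ← hb3, hκu, hκv]
    have h1 : (-(e g * q v)) * -(D0 * e g) + e g * q u * 0 = B := by
      simp only [B]
      linear_combination (q v * D0) * heg
    rw [h1]
    simp only [y1, A]
    ring
  refine ⟨fun i => h i + lam i • w, fun i => y1 * q i - y0 * κ i, D, ?_, ?_, hK1, hK2, ?_, ?_, ?_,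
    ?_, ?_, ?_⟩
  · intro i hi
    simp only
    rw [hS i (Finset.mem_range.2 hi) (by omega), zero_smul, add_zero]
  · intro c' hc' h1 h2
    constructor
    · rw [rl_iff, ev_add, ev_smulr, rl_iff.1 h1, hrel' c' hc' h1 h2, zero_smul, add_zero]
    · have h4 := hevk c' hc'
      rw [rl_iff.1 h1, map_zero, mul_zero] at h4
      have h5 : ev κ c' = 0 := by exact_mod_cast h4
      have h6 : ev (fun i => y1 * q i - y0 * κ i) c' = y1 • ev q c' - y0 • ev κ c' := by
        rw [← ev_smul, ← ev_smul, ← ev_sub]
        rfl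
      rw [rl_iff, h6, h5, rl_iff.1 h2]
      simp
  · intro i hi j hj hij
    have h1 := hK3 i hi j hj (mul_lt_mul_of_pos_left hij hB)
    simp only at h1 ⊢
    simp only [y1]
    linarith
  · have h1 := hsumD (fun i => h i + lam i • w) (by
      rw [hS 0 (Finset.mem_range.2 (by omega)) (by omega), h0, zero_smul, add_zero])
    rw [h1]
    have h2 : ∀ i ∈ Finset.range s, h i + lam i • w = h i := by
      intro i hi
      rw [hS i hi (by have := Finset.mem_range.1 hi; omega), zero_smul, add_zero]
    have h4 : ∀ d : ℕ → ℤ, ∑ i ∈ Finset.range s, d i • (h i + lam i • w) =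
        ∑ i ∈ Finset.range s, d i • h i := fun d =>
      Finset.sum_congr rfl fun i hi => by rw [h2 i hi]
    rw [h4, h4, hsgsumh, ← hb1, hgc]
    have h3 : w = ∑ i ∈ Finset.range s, s0 i • h i - ∑ i ∈ Finset.range n, f i • h i +
      (K : ℤ) • w1 := rfl
    rw [h3]
    generalize ∑ i ∈ Finset.range s, s0 i • h i = X0
    generalize ∑ i ∈ Finset.range n, f i • h i = X1
    simp only [mul_smul, smul_add, smul_sub]
    abel
  · simp only [smul_eq_mul, mul_sub, Finset.sum_sub_distrib]
    have h1 : ∑ i ∈ Finset.range n, D i * (y1 * q i) = y1 * ∑ i ∈ Finset.range n, D i * q i := by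
      rw [Finset.mul_sum]
      exact Finset.sum_congr rfl fun i _ => by ring
    have h2 : ∑ i ∈ Finset.range n, D i * (y0 * κ i) = y0 * ∑ i ∈ Finset.range n, D i * κ i := by
      rw [Finset.mul_sum]
      exact Finset.sum_congr rfl fun i _ => by ring
    rw [h1, h2, hDq, hDk]
    ring
  · intro i hi hpos
    by_cases his : i < s
    · rw [hD1 i his] at hpos
      have hi0 : i ≠ 0 := by
        rintro rfl
        simp [dS] at hpos
      refine ⟨hi0, Or.inl his, ?_⟩
      simp only [dS, if_neg hi0] at hpos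
      obtain ⟨σ, hσ, hσ'⟩ := hsg i his hi0
      rw [hσ'] at hpos
      have hmc : 1 ≤ m * c := by
        have := mul_pos hm hc
        omega
      have h3 : -(e g * (b i + m * c * -(e g * e i * σ))) = -(e g * b i) + m * c * σ * e i := by
        linear_combination (m * c * σ * e i) * heg
      rw [h3] at hpos
      rcases he i with ⟨h1, h2⟩ | ⟨h1, h2⟩
      · exact h2
      · exfalso
        rw [h1] at hpos
        have h4 : -(e g * b i) ≤ |b i| := by
          rcases he g with ⟨h5, _⟩ | ⟨h5, _⟩ <;> rw [h5]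
          · have := neg_le_abs (b i)
            linarith
          · have := le_abs_self (b i)
            linarith
        have h6 : σ ≤ m * c * σ := by
          have : 0 ≤ σ := le_trans (abs_nonneg _) hσ.le
          nlinarith
        linarith
    · by_cases hig : i = g
      · subst hig
        rw [hDg] at hpos
        refine ⟨by omega, Or.inr rfl, ?_⟩
        rcases he i with ⟨h1, h2⟩ | ⟨h1, h2⟩
        · exact h2
        · rw [h1] at hpos
          omega
      · rw [hD2 i (by omega) hig] at hpos
        exact absurd hpos (lt_irrefl _)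
  · intro i hi hneg
    by_cases his : i < s
    · rw [hD1 i his] at hneg
      have hi0 : i ≠ 0 := by
        rintro rfl
        simp [dS] at hneg
      refine ⟨hi0, Or.inl his, ?_⟩
      simp only [dS, if_neg hi0] at hneg
      obtain ⟨σ, hσ, hσ'⟩ := hsg i his hi0
      rw [hσ'] at hneg
      have hmc : 1 ≤ m * c := by
        have := mul_pos hm hc
        omega
      have h3 : -(e g * (b i + m * c * -(e g * e i * σ))) = -(e g * b i) + m * c * σ * e i := by
        linear_combination (m * c * σ * e i) * heg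
      rw [h3] at hneg
      rcases he i with ⟨h1, h2⟩ | ⟨h1, h2⟩
      · exfalso
        rw [h1] at hneg
        have h4 : -|b i| ≤ -(e g * b i) := by
          rcases he g with ⟨h5, _⟩ | ⟨h5, _⟩ <;> rw [h5]
          · have := le_abs_self (b i)
            linarith
          · have := neg_le_abs (b i)
            linarith
        have h6 : σ ≤ m * c * σ := by
          have : 0 ≤ σ := le_trans (abs_nonneg _) hσ.le
          nlinarith
        linarith
      · exact h2
    · by_cases hig : i = g
      · subst hig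
        rw [hDg] at hneg
        refine ⟨by omega, Or.inr rfl, ?_⟩
        rcases he i with ⟨h1, h2⟩ | ⟨h1, h2⟩
        · rw [h1] at hneg
          omega
        · exact h2
      · rw [hD2 i (by omega) hig] at hneg
        exact absurd hneg (lt_irrefl _)
  · rw [hDg]
    rcases he g with ⟨h1, _⟩ | ⟨h1, _⟩ <;> rw [h1] <;> omega

end

end Pool.Agent.H54OG
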