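import Pool.Agent.H54OG.Tot

set_option autoImplicit false
set_option linter.unusedSectionVars false

namespace Pool.Agent.H54OG

open Encodable

section
variable {H : Type} [AddCommGroup H] [Primcodable H]

theorem dep_iff {h : ℕ → H} {x : H} {l : ℕ} :
    Dep h x l ↔ ∃ (m : ℤ) (b : ℕ → ℤ), m ≠ 0 ∧ m • x = ∑ i ∈ Finset.range l, b i • h i := by
  constructor
  · rintro ⟨r, h1, h2, h3⟩
    rw [rx_iff] at h3
    refine ⟨r.1, fun i => -vc r.2 i, by omega, ?_⟩
    have h4 := ev_eq h2 h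
    simp only [neg_smul, Finset.sum_neg_distrib]
    rw [← h4, natCast_zsmul]
    unfold ev
    rw [← h3]
    abel
  · rintro ⟨m, b, hm, hb⟩
    exact Dr_of_sum hm hb

theorem dep_mono {h : ℕ → H} {x : H} {l l' : ℕ} (hl : l ≤ l') (hd : Dep h x l) : Dep h x l' := by
  obtain ⟨r, h1, h2, h3⟩ := hd
  exact ⟨r, h1, h2.mono hl, h3⟩

theorem dep_self {h : ℕ → H} {i l : ℕ} (hi : i < l) : Dep h (h i) l :=
  ⟨(1, ([], [i])), one_pos, ⟨by simp, by simpa using hi⟩, by simp [rx]⟩

theorem dep_congr {h h' : ℕ → H} {x : H} {l : ℕ} (hh : ∀ i < l, h i = h' i) :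
    Dep h x l ↔ Dep h' x l := by
  unfold Dep
  simp only [Dr_congr hh]

theorem dep_comb {h : ℕ → H} {x y w : H} {l z : ℕ} (hx : Dep h x l) (hy : Dep h y l) (hz : 0 < z)
    (hw : x = y + z • w ∨ y = x + z • w) : Dep h w l := by
  have key : ∀ x y : H, Dep h x l → Dep h y l → x = y + z • w → Dep h w l := by
    intro x y hx hy hw
    rw [dep_iff] at hx hy ⊢
    obtain ⟨m, b, hm, hb⟩ := hx
    obtain ⟨m', b', hm', hb'⟩ := hy
    refine ⟨m * m' * z, fun i => m' * b i - m * b' i, mul_ne_zero (mul_ne_zero hm hm')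
      (by omega), ?_⟩
    have h1 : z • w = x - y := by rw [hw]; abel
    rw [mul_smul, natCast_zsmul, h1]
    simp only [sub_smul, mul_smul, Finset.sum_sub_distrib, ← Finset.smul_sum]
    rw [← hb, ← hb', smul_sub, smul_sub, smul_comm m m' x]
  rcases hw with hw | hw
  · exact key x y hx hy hw
  · exact key y x hy hx hw

theorem bdd {α : Type} [Encodable α] (P : α → ℕ → Prop) (hm : ∀ x m m', m ≤ m' → P x m → P x m')
    (N : ℕ) (h : ∀ x, encode x < N → ∃ m, P x m) : ∃ M, ∀ x, encode x < N → P x M := by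
  induction N with
  | zero => exact ⟨0, fun x hx => absurd hx (Nat.not_lt_zero _)⟩
  | succ N ih =>
    obtain ⟨M, hM⟩ := ih fun x hx => h x (Nat.lt_succ_of_lt hx)
    by_cases hN : ∃ x : α, encode x = N
    · obtain ⟨y, hy⟩ := hN
      obtain ⟨M', hM'⟩ := h y (by omega)
      refine ⟨max M M', fun x hx => ?_⟩
      rcases Nat.lt_succ_iff_lt_or_eq.1 hx with h1 | h1
      · exact hm _ _ _ (le_max_left _ _) (hM x h1)
      · have h2 : x = y := encode_injective (h1.trans hy.symm)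
        rw [h2]
        exact hm _ _ _ (le_max_right _ _) hM'
    · refine ⟨M, fun x hx => ?_⟩
      rcases Nat.lt_succ_iff_lt_or_eq.1 hx with h1 | h1
      · exact hM x h1
      · exact absurd ⟨x, h1⟩ hN

theorem bdd_nat (P : ℕ → ℕ → Prop) (hm : ∀ x m m', m ≤ m' → P x m → P x m')
    (N : ℕ) (h : ∀ x < N, ∃ m, P x m) : ∃ M, ∀ x < N, P x M := by
  obtain ⟨M, hM⟩ := bdd P hm N (by simpa using h)
  exact ⟨M, by simpa using hM⟩

/-- eventually stable -/
theorem bdd_ev (P : ℕ → ℕ → Prop) (N : ℕ) (h : ∀ x < N, ∃ T, ∀ t ≥ T, P x t) :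
    ∃ T, ∀ t ≥ T, ∀ x < N, P x t := by
  obtain ⟨M, hM⟩ := bdd_nat (fun x T => ∀ t ≥ T, P x t)
    (fun x m m' hmm h t ht => h t (le_trans hmm ht)) N h
  exact ⟨M, fun t ht x hx => hM x hx t ht⟩

/-- runs of the construction -/
structure Run (s : ℕ → St H) : Prop where
  V : ∀ t, Vl (s t)
  S : ∀ t, Step t (s t) (s (t + 1))
  D0 : (s 0).2.2 = []

variable {s : ℕ → St H}

theorem Run.nmono (R : Run s) {t t' : ℕ} (h : t ≤ t') : nn (s t) ≤ nn (s t') := by
  induction h with
  | refl => exact le_rfl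
  | step _ ih => exact le_trans ih (R.S _).2.1.1

theorem Run.Cmono (R : Run s) {t t' : ℕ} (h : t ≤ t') {c : Rel} (hc : c ∈ (s t).2.1) :
    c ∈ (s t').2.1 := by
  induction h with
  | refl => exact hc
  | step _ ih => exact (R.S _).2.1.2.1 _ ih

theorem Run.qmono (R : Run s) {t t' : ℕ} (h : t ≤ t') {i j : ℕ} (hi : i < nn (s t))
    (hj : j < nn (s t)) (hij : qq (s t) i < qq (s t) j) : qq (s t') i < qq (s t') j := by
  induction h with
  | refl => exact hij
  | step h ih =>
    exact (R.S _).2.1.2.2.1 i (lt_of_lt_of_le hi (R.nmono h)) j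
      (lt_of_lt_of_le hj (R.nmono h)) ih

theorem Run.cases (R : Run s) (t : ℕ) :
    (∃ c, R0 c (s t) (s (t + 1))) ∨ (∃ x, R1 t x (s t) (s (t + 1))) ∨
      (∃ x, R2 t x (s t) (s (t + 1))) ∨ ∃ x, R3 x (s t) (s (t + 1)) := by
  rcases (R.S t).2.2 with (⟨_, h⟩ | ⟨_, h⟩) | (⟨_, h⟩ | ⟨_, h⟩)
  · exact Or.inl ⟨_, h⟩
  · exact Or.inr (Or.inl ⟨_, h⟩)
  · exact Or.inr (Or.inr (Or.inl ⟨_, h⟩))
  · exact Or.inr (Or.inr (Or.inr ⟨_, h⟩))

theorem dc_encode {α : Type} [Primcodable α] [Inhabited α] (x : α) : dc α (encode x) = x := by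
  simp [dc]

theorem Run.att0 (R : Run s) (c : Rel) (T : ℕ) : ∃ t ≥ T, R0 c (s t) (s (t + 1)) := by
  refine ⟨Nat.pair (Nat.pair 0 (encode c)) T, Nat.right_le_pair _ _, ?_⟩
  have h := (R.S (Nat.pair (Nat.pair 0 (encode c)) T)).2.2
  unfold Spec at h
  simpa [Nat.unpair_pair, dc_encode] using h

theorem Run.att1 (R : Run s) (x : ℕ × (ℕ × Rel)) (T : ℕ) : ∃ t ≥ T, R1 t x (s t) (s (t + 1)) := by
  refine ⟨Nat.pair (Nat.pair 1 (encode x)) T, Nat.right_le_pair _ _, ?_⟩
  have h := (R.S (Nat.pair (Nat.pair 1 (encode x)) T)).2.2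
  unfold Spec at h
  simp only [Nat.unpair_pair, dc_encode] at h
  rcases h with (⟨h1, _⟩ | ⟨_, h⟩) | (⟨h1, _⟩ | ⟨h1, _⟩)
  · omega
  · exact h
  · omega
  · omega

theorem Run.att2 (R : Run s) (x : H) (T : ℕ) : ∃ t ≥ T, R2 t x (s t) (s (t + 1)) := by
  refine ⟨Nat.pair (Nat.pair 2 (encode x)) T, Nat.right_le_pair _ _, ?_⟩
  have h := (R.S (Nat.pair (Nat.pair 2 (encode x)) T)).2.2
  unfold Spec at h
  simp only [Nat.unpair_pair, encodek, Option.getD_some] at h
  rcases h with (⟨h1, _⟩ | ⟨h1, _⟩) | (⟨_, h⟩ | ⟨h1, _⟩)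
  · omega
  · omega
  · exact h
  · omega

theorem Run.att3 (R : Run s) (x : Kr) (T : ℕ) : ∃ t ≥ T, R3 x (s t) (s (t + 1)) := by
  refine ⟨Nat.pair (Nat.pair 3 (encode x)) T, Nat.right_le_pair _ _, ?_⟩
  have h := (R.S (Nat.pair (Nat.pair 3 (encode x)) T)).2.2
  unfold Spec at h
  simp only [Nat.unpair_pair, dc_encode] at h
  rcases h with (⟨h1, _⟩ | ⟨h1, _⟩) | (⟨h1, _⟩ | ⟨_, h⟩)
  · omega
  · omega
  · omega
  · exact h

theorem Run.Dmono1 (R : Run s) {t k : ℕ} (hk : k ∈ (s t).2.2) : k ∈ (s (t + 1)).2.2 := by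
  rcases R.cases t with ⟨c, h⟩ | ⟨x, h⟩ | ⟨x, h⟩ | ⟨x, h⟩
  · rw [h.2.2.1]
    exact hk
  · rw [h.1.2]
    exact hk
  · rw [h.1.1]
    exact hk
  · rcases h.2 with h1 | h1
    · rw [h1.2.1]
      exact hk
    · rw [h1.2.1]
      exact List.mem_cons_of_mem _ hk

theorem Run.Dmono (R : Run s) {t t' k : ℕ} (h : t ≤ t') (hk : k ∈ (s t).2.2) :
    k ∈ (s t').2.2 := by
  induction h with
  | refl => exact hk
  | step _ ih => exact R.Dmono1 ih

theorem Run.Dstab (R : Run s) (N : ℕ) :
    ∃ T, ∀ t ≥ T, ∀ k < N, k ∈ (s (t + 1)).2.2 → k ∈ (s t).2.2 := by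
  refine bdd_ev (fun k t => k ∈ (s (t + 1)).2.2 → k ∈ (s t).2.2) N fun k _ => ?_
  by_cases h : ∃ t, k ∈ (s t).2.2
  · obtain ⟨T, hT⟩ := h
    exact ⟨T, fun t ht _ => R.Dmono ht hT⟩
  · exact ⟨0, fun t _ h1 => absurd ⟨_, h1⟩ h⟩

/-- a shift changes the entry -/
theorem shift_ne (htf : TF H) {a b w : H} {z : ℕ} (hw : w ≠ 0) (hz : 0 < z)
    (h : a = b + (List.replicate z w).sum ∨ b = a + (List.replicate z w).sum) : a ≠ b := by
  intro hab
  have h1 : (z : ℤ) • w = 0 := by
    rw [natCast_zsmul, ← List.sum_replicate]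
    rcases h with h | h
    · rw [hab] at h
      exact (add_eq_left.1 h.symm)
    · rw [hab] at h
      exact (add_eq_left.1 h.symm)
  exact hw (htf _ _ (by omega) h1)

theorem C1.dep {p : St H} {x : ℕ × (ℕ × Rel)} (h : C1 p x) : Dep (hh p) (hh p x.1) x.1 :=
  ⟨x.2, h.2.1, h.2.2.1, rx_iff.2 (rl_rho.1 h.2.2.2)⟩

/-- Each entry converges. -/
theorem Run.conv (R : Run s) (htf : TF H) (hinf : ∀ (l : ℕ) (h : ℕ → H), ∃ w, ¬ Dep h w l)
    (l : ℕ) : ∃ x, ∃ T, ∀ t ≥ T, hh (s t) l = x := by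
  induction l using Nat.strong_induction_on with
  | _ l ih =>
  by_cases hn : ∃ t, l < nn (s t)
  swap
  · refine ⟨0, 0, fun t _ => ?_⟩
    have h1 : nn (s t) ≤ l := by
      by_contra h2
      exact hn ⟨t, by omega⟩
    unfold hh
    unfold nn at h1
    exact List.getD_eq_default _ _ h1
  obtain ⟨T0, hT0⟩ := hn
  have hn' : ∀ t ≥ T0, l < nn (s t) := fun t ht => lt_of_lt_of_le hT0 (R.nmono ht)
  choose! θ hθ using ih
  obtain ⟨T1, hT1⟩ := bdd_ev (fun j t => hh (s t) j = θ j) l hθ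
  obtain ⟨T2, hT2⟩ := R.Dstab (l + 1)
  obtain ⟨w, hw, hwl⟩ := exists_least (hinf l θ)
  obtain ⟨T3, hT3⟩ := bdd (fun (x : H) m => ∀ t ≥ m, Dpt t θ x l) (fun x m m' hm h t ht =>
    h t (le_trans hm ht)) (encode w) (by
      intro x hx
      by_contra h
      apply hwl
      refine ⟨x, hx, fun hd => h ?_⟩
      obtain ⟨r, hr⟩ := hd
      exact ⟨encode r + 1, fun t ht => ⟨r, by omega, hr⟩⟩)
  have hw0 : w ≠ 0 := by
    rintro rfl
    exact hw ⟨(1, ([], [])), one_pos, ⟨by simp, by simp⟩, by simp [rx]⟩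
  -- the main alternative
  have key : ∀ t, T0 ≤ t → T1 ≤ t → T2 ≤ t → T3 ≤ t → hh (s (t + 1)) l = hh (s t) l ∨
      (Dep θ (hh (s t) l) l ∧ ¬ Dep θ (hh (s (t + 1)) l) l) := by
    intro t ht0 ht1 ht2 ht3
    have hl := hn' t ht0
    have hst : ∀ i < l, hh (s t) i = θ i := hT1 t ht1
    have hst' : ∀ i < l, hh (s (t + 1)) i = θ i := hT1 (t + 1) (by omega)
    rcases R.cases t with ⟨c, h⟩ | ⟨x, h⟩ | ⟨x, h⟩ | ⟨x, h⟩
    · exact Or.inl (h.2.1 l hl)
    · rcases h.2 with h1 | ⟨⟨h1, h2⟩, w', z, h3, h4, h5⟩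
      · exact Or.inl (h1.1 l hl)
      · rcases lt_trichotomy x.1 l with h6 | h6 | h6
        · exact absurd ((hst' _ h6).trans (hst _ h6).symm) (shift_ne htf h3.1 h4 h5)
        · right
          rw [h6] at h5
          have h7 := h1.dep
          rw [h6] at h7 h3
          have h8 : Dep θ (hh (s t) l) l := (dep_congr hst).1 h7
          refine ⟨h8, fun h9 => ?_⟩
          have h10 : ∀ x r, Dr (hh (s t)) x l r ↔ Dr θ x l r := fun x r => Dr_congr hst
          have hww : w' = w := by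
            apply encode_injective
            rcases lt_trichotomy (encode w') (encode w) with h11 | h11 | h11
            · exfalso
              apply h3.2.1
              obtain ⟨r, hr1, hr2⟩ := hT3 w' h11 t ht3
              exact ⟨r, hr1, (h10 _ _).2 hr2⟩
            · exact h11
            · exfalso
              apply h3.2.2
              refine ⟨w, h11, ?_⟩
              rintro (h12 | ⟨r, hr1, hr2⟩)
              · exact hw0 h12
              · exact hw ⟨r, (h10 _ _).1 hr2⟩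
          rw [List.sum_replicate, hww] at h5
          exact hw (dep_comb h9 h8 h4 h5)
        · exact Or.inl (h2 l h6)
    · exact Or.inl (h.1.2 l hl)
    · rcases h.2 with h1 | ⟨⟨h1, h2⟩, h3, h4⟩
      · exact Or.inl (h1.1 l hl)
      · by_cases h5 : encode x.1 < l + 1
        · exfalso
          apply h1.1.1
          apply hT2 t ht2 _ h5
          rw [h3]
          exact List.mem_cons_self
        · left
          apply h2
          have := h1.1.2.1
          omega
  by_cases hc : ∃ t0, T0 ≤ t0 ∧ T1 ≤ t0 ∧ T2 ≤ t0 ∧ T3 ≤ t0 ∧ ¬ Dep θ (hh (s t0) l) l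
  · obtain ⟨t0, k0, k1, k2, k3, hd⟩ := hc
    refine ⟨hh (s t0) l, t0, fun t ht => ?_⟩
    induction ht with
    | refl => exact Eq.refl _
    | step ht ih =>
      rename_i m
      rw [← ih] at hd ⊢
      have hm : t0 ≤ m := ht
      rcases key m (by omega) (by omega) (by omega) (by omega) with h | h
      · exact h
      · exact absurd h.1 hd
  · refine ⟨hh (s (max (max T0 T1) (max T2 T3))) l, max (max T0 T1) (max T2 T3), fun t ht => ?_⟩
    induction ht with
    | refl => exact Eq.refl _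
    | step ht ih =>
      rename_i m
      rw [← ih]
      have hm : max (max T0 T1) (max T2 T3) ≤ m := ht
      rcases key m (by omega) (by omega) (by omega) (by omega) with h | h
      · exact h
      · exact absurd ⟨m + 1, by omega, by omega, by omega, by omega, h.2⟩ hc

/-- limits of the entries -/
structure Lm (s : ℕ → St H) (θ : ℕ → H) : Prop where
  R : Run s
  tf : TF H
  inf : ∀ (l : ℕ) (h : ℕ → H), ∃ w, ¬ Dep h w l
  lim : ∀ i, ∃ T, ∀ t ≥ T, hh (s t) i = θ i

theorem Run.exists_lim (R : Run s) (htf : TF H)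
    (hinf : ∀ (l : ℕ) (h : ℕ → H), ∃ w, ¬ Dep h w l) : ∃ θ, Lm s θ := by
  choose θ hθ using R.conv htf hinf
  exact ⟨θ, R, htf, hinf, hθ⟩

variable {θ : ℕ → H}

theorem Lm.stab (L : Lm s θ) (l : ℕ) : ∃ T, ∀ t ≥ T, ∀ i < l, hh (s t) i = θ i :=
  bdd_ev (fun i t => hh (s t) i = θ i) l fun i _ => L.lim i

theorem Lm.zero (L : Lm s θ) : θ 0 = 0 := by
  obtain ⟨T, hT⟩ := L.lim 0
  rw [← hT T le_rfl]
  exact (L.R.V T).h0

theorem att2_mem {t : ℕ} {x : H} {p p' : St H} (h : R2 t x p p') : x ∈ p'.1.1 := by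
  rcases h.2 with ⟨h1, h2⟩ | ⟨⟨h1, h2, h3⟩, _⟩
  · obtain ⟨i, hi, hx⟩ := L_mem h2
    rw [← hx, ← h.1.2 i hi]
    exact mem_L (by rw [h1]; exact hi)
  · rw [← h3]
    exact mem_L (by rw [h2]; exact Nat.lt_succ_self _)

theorem Lm.nlim (L : Lm s θ) (B : ℕ) : ∃ T, ∀ t ≥ T, B ≤ nn (s t) := by
  suffices h : ∃ T, B ≤ nn (s T) by
    obtain ⟨T, hT⟩ := h
    exact ⟨T, fun t ht => le_trans hT (L.R.nmono ht)⟩
  by_contra hc
  push Not at hc
  obtain ⟨T, hT⟩ := L.stab B
  obtain ⟨w, hw⟩ := L.inf B θ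
  obtain ⟨t, ht, h⟩ := L.R.att2 w T
  obtain ⟨i, hi, hx⟩ := L_mem (att2_mem h)
  apply hw
  have h1 := hc (t + 1)
  rw [hT (t + 1) (by omega) i (by omega)] at hx
  rw [← hx]
  exact dep_self (by omega)

theorem Lm.inj (L : Lm s θ) : Function.Injective θ := by
  intro i j hij
  obtain ⟨T1, hT1⟩ := L.lim i
  obtain ⟨T2, hT2⟩ := L.lim j
  obtain ⟨T3, hT3⟩ := L.nlim (i + j + 1)
  have h := hT3 (max (max T1 T2) T3) (by omega)
  refine (L.R.V (max (max T1 T2) T3)).2.1 i (by omega) j (by omega) ?_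
  rw [hT1 _ (by omega), hT2 _ (by omega), hij]

/-- a new entry was not in the list -/
theorem Run.new (R : Run s) {t j : ℕ} (h1 : j < nn (s (t + 1))) (h2 : nn (s t) ≤ j) :
    hh (s (t + 1)) j ∉ (s t).1.1 ∧ R2 t (hh (s (t + 1)) j) (s t) (s (t + 1)) := by
  rcases R.cases t with ⟨c, h⟩ | ⟨x, h⟩ | ⟨x, h⟩ | ⟨x, h⟩
  · have := h.1
    omega
  · have := h.1.1
    omega
  · rcases h.2 with ⟨h3, _⟩ | ⟨⟨h3, h4, h5⟩, _⟩
    · omega
    · have h6 : j = nn (s t) := by omega
      rw [h6, h5]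
      exact ⟨h3, h⟩
  · have := h.1
    omega

theorem Run.gain (R : Run s) {t : ℕ} {x : H} (hx : encode x ≤ t) (h1 : x ∉ (s t).1.1)
    (h2 : x ∈ (s (t + 1)).1.1) : R2 t x (s t) (s (t + 1)) := by
  obtain ⟨i, hi, hxi⟩ := L_mem h2
  by_cases h3 : i < nn (s t)
  · exfalso
    rcases (R.S t).2.1.2.2.2 i h3 with h4 | h4
    · apply h1
      rw [← hxi, h4]
      exact mem_L h3
    · rw [hxi] at h4
      omega
  · have := (R.new hi (by omega)).2
    rwa [hxi] at this

/-- Every element eventually depends on finitely many stable ones. -/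
theorem Lm.span (L : Lm s θ) {x : H} (hx0 : x ≠ 0)
    (hprev : ∀ y : H, encode y < encode x → ∃ i, θ i = y) : ∃ l, Dep θ x l := by
  obtain ⟨l0, hl0⟩ := bdd (fun (y : H) m => ∃ i < m, θ i = y)
    (fun y m m' hm ⟨i, hi, h⟩ => ⟨i, by omega, h⟩) (encode x) (by
      intro y hy
      obtain ⟨i, hi⟩ := hprev y hy
      exact ⟨i + 1, i, by omega, hi⟩)
  obtain ⟨T0, hT0⟩ := L.stab l0
  obtain ⟨T1, hT1⟩ := L.R.Dstab (encode x + 1)
  obtain ⟨T2, hT2⟩ := bdd_nat (fun j m => encode ((1, ([], [j])) : ℕ × Rel) < m)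
    (fun _ _ _ hm h => lt_of_lt_of_le h hm) l0 (fun j _ => ⟨_, Nat.lt_succ_self _⟩)
  obtain ⟨t0, ht0, hatt⟩ := L.R.att2 x (max (max T0 T1) T2)
  obtain ⟨l, hl, hlx⟩ := L_mem (att2_mem hatt)
  have key : ∀ t ≥ t0 + 1, Dep (hh (s t)) x (l + 1) := by
    intro t ht
    induction ht with
    | refl =>
      rw [← hlx]
      exact dep_self (Nat.lt_succ_self _)
    | step ht ih =>
      rename_i m
      have hm : t0 + 1 ≤ m := ht
      have hln : l < nn (s m) := lt_of_lt_of_le hl (L.R.nmono hm)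
      have hsame : Same (s m) (s (m + 1)) → Dep (hh (s (m + 1))) x (l + 1) := fun h =>
        (dep_congr fun i hi => (h i (by omega)).symm).1 ih
      change Dep (hh (s (m + 1))) x (l + 1)
      rcases L.R.cases m with ⟨c, h⟩ | ⟨y, h⟩ | ⟨y, h⟩ | ⟨y, h⟩
      · exact hsame h.2.1
      · rcases h.2 with h1 | ⟨⟨h1, h2⟩, w, z, h3, h4, h5⟩
        · exact hsame h1.1
        · by_cases hly : l + 1 ≤ y.1
          · exact (dep_congr fun i hi => (h2 i (by omega)).symm).1 ih
          · have hyl : y.1 ≤ l := by omega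
            have h6 : l0 ≤ y.1 := by
              by_contra h7
              apply shift_ne L.tf h3.1 h4 h5
              rw [hT0 (m + 1) (by omega) _ (by omega), hT0 m (by omega) _ (by omega)]
            by_cases hd : Dpt m (hh (s m)) x y.1
            · obtain ⟨r, _, hr⟩ := hd
              exact dep_mono (by omega) ((dep_congr fun i hi => (h2 i hi).symm).1 ⟨r, hr⟩)
            · have hwx : w = x := by
                apply encode_injective
                rcases lt_trichotomy (encode w) (encode x) with h7 | h7 | h7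
                · exfalso
                  apply h3.2.1
                  obtain ⟨j, hj, hjw⟩ := hl0 w h7
                  have h8 : hh (s m) j = w := (hT0 m (by omega) j hj).trans hjw
                  refine ⟨(1, ([], [j])), ?_, one_pos, ⟨by simp, by simp; omega⟩, by simp [rx, h8]⟩
                  have := hT2 j hj
                  omega
                · exact h7
                · exfalso
                  apply h3.2.2
                  refine ⟨x, h7, ?_⟩
                  rintro (h8 | h8)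
                  · exact hx0 h8
                  · exact hd h8
              rw [hwx, List.sum_replicate] at h5
              have h8 : Dep (hh (s (m + 1))) (hh (s m) y.1) (l + 1) :=
                dep_mono (by omega) ((dep_congr fun i hi => (h2 i hi).symm).1 h1.dep)
              have h9 : Dep (hh (s (m + 1))) (hh (s (m + 1)) y.1) (l + 1) := dep_self (by omega)
              exact dep_comb h9 h8 h4 h5
      · exact hsame h.1.2
      · rcases h.2 with h1 | ⟨⟨h1, h2⟩, h3, h4⟩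
        · exact hsame h1.1
        · by_cases hly : l + 1 ≤ y.2.1.1
          · exact (dep_congr fun i hi => (h2 i (by omega)).symm).1 ih
          · by_cases hk : encode y.1 < encode x + 1
            · exfalso
              apply h1.1.1
              apply hT1 m (by omega) _ hk
              rw [h3]
              exact List.mem_cons_self
            · have h5 : ∃ i < y.2.1.1, hh (s m) i = x := by
                by_contra h6
                exact h1.2.1 ⟨x, by omega, h6⟩
              obtain ⟨i, hi, hix⟩ := h5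
              rw [← hix, ← h2 i hi]
              exact dep_self (by omega)
  obtain ⟨T, hT⟩ := L.stab (l + 1)
  exact ⟨l + 1, (dep_congr (hT (max T (t0 + 1)) (le_max_left _ _))).1
    (key _ (le_max_right _ _))⟩

theorem exists_sup (c : Rel) : ∃ n, sup n c := by
  have h : ∀ L : List ℕ, ∃ n, ∀ i ∈ L, i < n := by
    intro L
    induction L with
    | nil => exact ⟨0, by simp⟩
    | cons a L ih =>
      obtain ⟨n, hn⟩ := ih
      refine ⟨max (a + 1) n, fun i hi => ?_⟩
      rcases List.mem_cons.1 hi with h | h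
      · rw [h]
        omega
      · have := hn i h
        omega
  obtain ⟨n1, h1⟩ := h c.1
  obtain ⟨n2, h2⟩ := h c.2
  exact ⟨max n1 n2, fun i hi => lt_of_lt_of_le (h1 i hi) (le_max_left _ _),
    fun i hi => lt_of_lt_of_le (h2 i hi) (le_max_right _ _)⟩

theorem Lm.hit (L : Lm s θ) {x : H} {l : ℕ} (hd : Dep θ x l) : ∃ i, θ i = x := by
  obtain ⟨r0, hr0⟩ := hd
  obtain ⟨B, hB⟩ := bdd (fun (r : ℕ × Rel) m => sup m r.2) (fun _ _ _ hm h => h.mono hm)
    (encode r0 + 1) (fun r _ => exists_sup r.2)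
  obtain ⟨T1, hT1⟩ := L.stab (max B l)
  obtain ⟨T2, hT2⟩ := L.nlim (max B l)
  obtain ⟨T, hTd⟩ : ∃ T, T = max (max T1 T2) (max (encode r0 + 1) (encode x)) := ⟨_, rfl⟩
  by_cases hA : ∃ t0 ≥ T, x ∉ (s t0).1.1
  · obtain ⟨t0, ht0, hxt⟩ := hA
    have hex : ∃ d, x ∈ (s (t0 + d)).1.1 := by
      obtain ⟨t, ht, h⟩ := L.R.att2 x t0
      exact ⟨t + 1 - t0, by rw [show t0 + (t + 1 - t0) = t + 1 by omega]; exact att2_mem h⟩
    classical
    have h1 := Nat.find_spec hex
    have h2 : Nat.find hex ≠ 0 := by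
      intro h3
      rw [h3] at h1
      exact hxt h1
    obtain ⟨d, hd⟩ := Nat.exists_eq_succ_of_ne_zero h2
    have h3 : x ∉ (s (t0 + d)).1.1 := Nat.find_min hex (by omega)
    rw [hd] at h1
    obtain ⟨t, htd⟩ : ∃ t, t = t0 + d := ⟨_, rfl⟩
    have ht : T ≤ t := by omega
    rw [← htd] at h3
    have h1' : x ∈ (s (t + 1)).1.1 := by
      rw [htd]
      exact h1
    have h4 := L.R.gain (by omega) h3 h1'
    rcases h4.2 with ⟨_, h5⟩ | ⟨⟨h5, h6, h7⟩, h8⟩
    · exact absurd h5 h3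
    · have hst := hT1 t (by omega)
      have hnt := hT2 t (by omega)
      have hr0' : Dr (hh (s t)) x (nn (s t)) r0 := by
        have h9 := (Dr_congr fun i (hi : i < l) => (hst i (by omega)).symm).1 hr0
        exact ⟨h9.1, h9.2.1.mono (by omega), h9.2.2⟩
      rcases h8 with h8 | ⟨r, hr1, hr2, hr3⟩
      · exact absurd ⟨r0, by omega, hr0'⟩ h8
      · have h9 : encode r ≤ encode r0 := by
          by_contra h10
          exact hr2 ⟨r0, by omega, hr0'⟩
        have hsr := hB r (by omega)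
        refine ⟨nn (s t), ?_⟩
        obtain ⟨T3, hT3⟩ := L.lim (nn (s t))
        have h11 := hT3 (max T3 (t + 1)) (le_max_left _ _)
        rw [← h11]
        have h12 := ((L.R.V (max T3 (t + 1))).2.2.2.1 _ (L.R.Cmono (le_max_right _ _) hr3)).2.1
        rw [rl_rho] at h12
        have h13 := rx_iff.1 hr1.2.2
        have h14 := hT1 (max T3 (t + 1)) (by omega)
        have h15 : r.2.1.map (hh (s (max T3 (t + 1)))) = r.2.1.map (hh (s t)) :=
          List.map_congr_left fun i hi => by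
            have := hsr.1 i hi
            rw [h14 i (by omega), hst i (by omega)]
        have h16 : r.2.2.map (hh (s (max T3 (t + 1)))) = r.2.2.map (hh (s t)) :=
          List.map_congr_left fun i hi => by
            have := hsr.2 i hi
            rw [h14 i (by omega), hst i (by omega)]
        rw [h15, h16, ← h13, add_left_inj] at h12
        have h17 : (r.1 : ℤ) • (hh (s (max T3 (t + 1))) (nn (s t)) - x) = 0 := by
          rw [smul_sub, natCast_zsmul, natCast_zsmul, h12, sub_self]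
        exact sub_eq_zero.1 (L.tf _ _ (by have := hr1.1; omega) h17)
  · push Not at hA
    obtain ⟨j, hj, hjx⟩ := L_mem (hA T le_rfl)
    have key : ∀ t ≥ T, hh (s t) j = x := by
      intro t ht
      induction ht with
      | refl => exact hjx
      | step ht ih =>
        rename_i m
        have hm : T ≤ m := ht
        change hh (s (m + 1)) j = x
        obtain ⟨j', hj', hjx'⟩ := L_mem (hA (m + 1) (by omega))
        by_cases h1 : j' < nn (s m)
        · rcases (L.R.S m).2.1.2.2.2 j' h1 with h2 | h2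
          · have h3 : j' = j := (L.R.V m).2.1 j' h1 j (lt_of_lt_of_le hj (L.R.nmono hm))
              (by rw [← h2, hjx', ih])
            rw [← h3]
            exact hjx'
          · rw [hjx'] at h2
            omega
        · exfalso
          apply (L.R.new hj' (by omega)).1
          rw [hjx']
          exact hA m hm
    obtain ⟨T3, hT3⟩ := L.lim j
    exact ⟨j, (hT3 (max T3 T) (le_max_left _ _)).symm.trans (key _ (le_max_right _ _))⟩

theorem Lm.surj (L : Lm s θ) : Function.Surjective θ := by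
  have key : ∀ n, ∀ x : H, encode x = n → ∃ i, θ i = x := by
    intro n
    induction n using Nat.strong_induction_on with
    | _ n ih =>
    intro x hx
    by_cases h0 : x = 0
    · exact ⟨0, by rw [L.zero, h0]⟩
    · obtain ⟨l, hl⟩ := L.span h0 fun y hy => ih (encode y) (by omega) y rfl
      exact L.hit hl
  exact fun x => key _ x rfl

theorem ev_succ {M : Type} [AddCommGroup M] {l : ℕ} {c : Rel} (hc : sup (l + 1) c) (x : ℕ → M) :
    ev x c = ev x (pr l (vc c)) + vc c l • x l := by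
  rw [ev_eq hc, Finset.sum_range_succ, ev_pr]

theorem vc_rho {l : ℕ} {r : ℕ × Rel} (h : sup l r.2) : vc (rho l r) l = r.1 := by
  unfold vc rho
  simp only [List.count_append, List.count_replicate_self]
  have h1 : List.count l r.2.1 = 0 := List.count_eq_zero.2 fun h2 => lt_irrefl _ (h.1 l h2)
  have h2 : List.count l r.2.2 = 0 := List.count_eq_zero.2 fun h2 => lt_irrefl _ (h.2 l h2)
  rw [h1, h2]
  push_cast
  ring

/-- The values eventually respect all the relations with few indices. -/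
theorem Lm.Qs (L : Lm s θ) (l : ℕ) :
    ∃ T, ∀ t ≥ T, ∀ c, sup l c → rl θ c → rl (qq (s t)) c := by
  induction l with
  | zero =>
    refine ⟨0, fun t _ c hc _ => ?_⟩
    have h1 : c.1 = [] := List.eq_nil_iff_forall_not_mem.2 fun i hi => by
      have := hc.1 i hi
      omega
    have h2 : c.2 = [] := List.eq_nil_iff_forall_not_mem.2 fun i hi => by
      have := hc.2 i hi
      omega
    unfold rl
    rw [h1, h2]
  | succ l ih =>
    obtain ⟨T0, hT0⟩ := ih
    by_cases hd : Dep θ (θ l) l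
    · obtain ⟨r, hr⟩ := hd
      obtain ⟨T1, hT1⟩ := L.stab (l + 1)
      obtain ⟨T2, hT2⟩ := L.nlim (l + 1)
      obtain ⟨t, ht, h⟩ := L.R.att1 (l, r) (max T0 (max T1 T2))
      have hst := hT1 t (by omega)
      have hnt := hT2 t (by omega)
      have hrho : rl θ (rho l r) := rl_rho.2 (rx_iff.1 hr.2.2)
      have hsr : sup (l + 1) (rho l r) := sup_rep (Nat.lt_succ_self l) (hr.2.1.mono (Nat.le_succ l))
      have hC : rho l r ∈ (s (t + 1)).2.1 := by
        rcases h.2 with ⟨h1, h2⟩ | ⟨⟨h1, h2⟩, w, z, h3, h4, h5⟩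
        · rcases h2 with h2 | h2 | ⟨c, hc1, hc2, hc3⟩
          · exfalso
            apply h2
            refine ⟨?_, hr.1, hr.2.1, ?_⟩
            · simp only
              omega
            · exact (rl_congr hsr hst).2 hrho
          · exact h2
          · exact absurd (hT0 t (by omega) c hc1 ((rl_congr (hc1.mono (Nat.le_succ l)) hst).1 hc2))
              hc3
        · exact absurd ((hT1 (t + 1) (by omega) l (Nat.lt_succ_self l)).trans
            (hst l (Nat.lt_succ_self l)).symm) (shift_ne L.tf h3.1 h4 h5)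
      refine ⟨t + 1, fun t' ht' c hc hθ => ?_⟩
      have h6 : rl (qq (s t')) (rho l r) :=
        ((L.R.V t').2.2.2.1 _ (L.R.Cmono ht' hC)).2.2
      have hcomb : ∀ {M : Type} [AddCommGroup M] (x : ℕ → M),
          ev x (pr l fun i => r.1 * vc c i - vc c l * vc (rho l r) i) =
            (r.1 : ℤ) • ev x c - vc c l • ev x (rho l r) := by
        intro M _ x
        rw [ev_succ hc, ev_succ hsr, ev_pr, ev_pr, ev_pr, vc_rho hr.2.1]
        simp only [sub_smul, mul_smul, Finset.sum_sub_distrib, ← Finset.smul_sum, smul_add,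
          smul_comm (vc c l) (r.1 : ℤ) (x l)]
        abel
      have h7 : rl θ (pr l fun i => r.1 * vc c i - vc c l * vc (rho l r) i) := by
        rw [rl_iff, hcomb, rl_iff.1 hθ, rl_iff.1 hrho]
        simp
      have h8 := hT0 t' (by omega) _ (sup_pr _ _) h7
      rw [rl_iff, hcomb, rl_iff.1 h6, smul_zero, sub_zero, smul_eq_mul] at h8
      rw [rl_iff]
      rcases mul_eq_zero.1 h8 with h9 | h9
      · have := hr.1
        omega
      · exact h9
    · refine ⟨T0, fun t ht c hc hθ => ?_⟩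
      have h1 : vc c l = 0 := by
        by_contra h2
        apply hd
        rw [dep_iff]
        refine ⟨vc c l, fun i => -vc c i, h2, ?_⟩
        have h3 := rl_iff.1 hθ
        rw [ev_succ hc, ev_pr] at h3
        simp only [neg_smul, Finset.sum_neg_distrib]
        rw [add_comm] at h3
        exact eq_neg_of_add_eq_zero_left h3
      have h2 : ∀ {M : Type} [AddCommGroup M] (x : ℕ → M), ev x c = ev x (pr l (vc c)) := by
        intro M _ x
        rw [ev_succ hc, h1, zero_smul, add_zero]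
      rw [rl_iff, h2, ← rl_iff]
      apply hT0 t ht _ (sup_pr _ _)
      rw [rl_iff, ← h2, ← rl_iff]
      exact hθ

theorem Lm.commit (L : Lm s θ) {c : Rel} (hc : rl θ c) : ∃ t, c ∈ (s t).2.1 := by
  obtain ⟨l, hl⟩ := exists_sup c
  obtain ⟨T0, hT0⟩ := L.Qs l
  obtain ⟨T1, hT1⟩ := L.stab l
  obtain ⟨T2, hT2⟩ := L.nlim l
  obtain ⟨t, ht, h⟩ := L.R.att0 c (max T0 (max T1 T2))
  exact ⟨t + 1, h.2.2.2 ⟨hl.mono (hT2 t (by omega)), (rl_congr hl (hT1 t (by omega))).2 hc,
    hT0 t (by omega) c hl hc⟩⟩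

theorem Lm.of_mem (L : Lm s θ) {c : Rel} {t : ℕ} (hc : c ∈ (s t).2.1) : rl θ c := by
  obtain ⟨l, hl⟩ := exists_sup c
  obtain ⟨T1, hT1⟩ := L.stab l
  exact (rl_congr hl (hT1 (max t T1) (le_max_right _ _))).1
    ((L.R.V (max t T1)).2.2.2.1 c (L.R.Cmono (le_max_left _ _) hc)).2.1

/-- official signs -/
def Pos (s : ℕ → St H) (i : ℕ) : Prop := ∃ t, i < nn (s t) ∧ 0 < qq (s t) i
def Neg (s : ℕ → St H) (i : ℕ) : Prop := ∃ t, i < nn (s t) ∧ qq (s t) i < 0

theorem Run.pos_late (R : Run s) {i t t' : ℕ} (h : t ≤ t') (hi : i < nn (s t))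
    (hp : 0 < qq (s t) i) : 0 < qq (s t') i := by
  have h1 := R.qmono h (i := 0) (j := i) (by omega) hi (by rw [(R.V t).q0]; exact hp)
  rwa [(R.V t').q0] at h1

theorem Run.neg_late (R : Run s) {i t t' : ℕ} (h : t ≤ t') (hi : i < nn (s t))
    (hp : qq (s t) i < 0) : qq (s t') i < 0 := by
  have h1 := R.qmono h (i := i) (j := 0) hi (by omega) (by rw [(R.V t).q0]; exact hp)
  rwa [(R.V t').q0] at h1

theorem Lm.pos_ev (L : Lm s θ) {i : ℕ} (h : Pos s i) : ∃ T, ∀ t ≥ T, 0 < qq (s t) i := by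
  obtain ⟨T, h1, h2⟩ := h
  exact ⟨T, fun t ht => L.R.pos_late ht h1 h2⟩

theorem Lm.neg_ev (L : Lm s θ) {i : ℕ} (h : Neg s i) : ∃ T, ∀ t ≥ T, qq (s t) i < 0 := by
  obtain ⟨T, h1, h2⟩ := h
  exact ⟨T, fun t ht => L.R.neg_late ht h1 h2⟩

theorem Lm.not_both (L : Lm s θ) {i : ℕ} (h1 : Pos s i) (h2 : Neg s i) : False := by
  obtain ⟨T1, h1⟩ := L.pos_ev h1
  obtain ⟨T2, h2⟩ := L.neg_ev h2
  have e1 := h1 (max T1 T2) (le_max_left _ _)
  have e2 := h2 (max T1 T2) (le_max_right _ _)
  omega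

theorem Lm.pos_ne (L : Lm s θ) {i : ℕ} (h : Pos s i) : i ≠ 0 := by
  rintro rfl
  obtain ⟨t, _, h⟩ := h
  rw [(L.R.V t).q0] at h
  exact lt_irrefl _ h

theorem Lm.neg_ne (L : Lm s θ) {i : ℕ} (h : Neg s i) : i ≠ 0 := by
  rintro rfl
  obtain ⟨t, _, h⟩ := h
  rw [(L.R.V t).q0] at h
  exact lt_irrefl _ h

theorem Lm.sign (L : Lm s θ) {i : ℕ} (hi : i ≠ 0) : Pos s i ∨ Neg s i := by
  obtain ⟨T, hT⟩ := L.nlim (i + 1)
  have h := hT T le_rfl
  rcases lt_trichotomy (qq (s T) i) 0 with h1 | h1 | h1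
  · exact Or.inr ⟨T, h, h1⟩
  · exact absurd ((L.R.V T).2.2.1 i h 0 (by omega) (by rw [h1, (L.R.V T).q0])) hi
  · exact Or.inl ⟨T, h, h1⟩

theorem Lm.neg_of_add (L : Lm s θ) {i j : ℕ} (h : θ i + θ j = 0) (hi : Pos s i) : Neg s j := by
  have h1 : rl θ ([i, j], [0]) := by
    unfold rl
    simp [h, L.zero]
  obtain ⟨T0, hT0⟩ := L.Qs (i + j + 1)
  obtain ⟨T1, hT1⟩ := L.pos_ev hi
  obtain ⟨T2, hT2⟩ := L.nlim (i + j + 1)
  obtain ⟨T, hTd⟩ : ∃ T, T = max T0 (max T1 T2) := ⟨_, rfl⟩
  have h2 := hT0 T (by omega) ([i, j], [0]) (by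
    constructor
    · intro k hk
      simp only [List.mem_cons, List.not_mem_nil, or_false] at hk
      omega
    · intro k hk
      simp only [List.mem_cons, List.not_mem_nil, or_false] at hk
      omega) h1
  have h3 := hT1 T (by omega)
  have h4 := hT2 T (by omega)
  unfold rl at h2
  simp only [List.map_cons, List.map_nil, List.sum_cons, List.sum_nil, add_zero,
    (L.R.V T).q0] at h2
  exact ⟨T, by omega, by omega⟩

theorem Lm.pos_of_add (L : Lm s θ) {i j : ℕ} (h : θ i + θ j = 0) (hi : Neg s i) : Pos s j := by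
  have hj : j ≠ 0 := by
    rintro rfl
    rw [L.zero, add_zero, ← L.zero] at h
    exact L.neg_ne hi (L.inj h)
  rcases L.sign hj with h1 | h1
  · exact h1
  · exfalso
    have h2 : i ≠ 0 := L.neg_ne hi
    have h3 : rl θ ([i, j], [0]) := by
      unfold rl
      simp [h, L.zero]
    obtain ⟨T0, hT0⟩ := L.Qs (i + j + 1)
    obtain ⟨T1, hT1⟩ := L.neg_ev hi
    obtain ⟨T2, hT2⟩ := L.neg_ev h1
    obtain ⟨T, hTd⟩ : ∃ T, T = max T0 (max T1 T2) := ⟨_, rfl⟩
    have h2 := hT0 T (by omega) ([i, j], [0]) (by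
      constructor
      · intro k hk
        simp only [List.mem_cons, List.not_mem_nil, or_false] at hk
        omega
      · intro k hk
        simp only [List.mem_cons, List.not_mem_nil, or_false] at hk
        omega) h3
    have h4 := hT1 T (by omega)
    have h5 := hT2 T (by omega)
    unfold rl at h2
    simp only [List.map_cons, List.map_nil, List.sum_cons, List.sum_nil, add_zero,
      (L.R.V T).q0] at h2
    omega

end

end Pool.Agent.H54OG
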