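import Pool.Agent.H54OG.Comp
import Pool.Agent.H54OG.Alg
import Pool.Agent.Helper425_zc.Comp

set_option autoImplicit false
set_option linter.unusedSectionVars false

namespace Pool.Agent.H54OG

open Encodable
open Pool.Agent.Helper227

/-- States: the list of elements, the list of values, the committed relations, the finished
requirements. -/
abbrev St (H : Type) := (List H × List ℤ) × (List Rel × List ℕ)

section
variable {H : Type} [AddCommGroup H]

def nn (p : St H) : ℕ := p.1.1.length
def hh (p : St H) : ℕ → H := fun i => p.1.1.getD i 0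
def qq (p : St H) : ℕ → ℤ := fun i => p.1.2.getD i 0

/-- the relation `r.1 • x_l + ... = ...` -/
def rho (l : ℕ) (r : ℕ × Rel) : Rel := (List.replicate r.1 l ++ r.2.1, r.2.2)

/-- `x` satisfies the relation `r` over `h`. -/
def rx (h : ℕ → H) (x : H) (r : ℕ × Rel) : Prop :=
  (List.replicate r.1 x ++ r.2.1.map h).sum = (r.2.2.map h).sum

/-- `r` shows that `x` depends on the first `l` elements. -/
def Dr (h : ℕ → H) (x : H) (l : ℕ) (r : ℕ × Rel) : Prop := 0 < r.1 ∧ sup l r.2 ∧ rx h x r

/-- dependence -/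
def Dep (h : ℕ → H) (x : H) (l : ℕ) : Prop := ∃ r, Dr h x l r

/-- valid states -/
def Vl (p : St H) : Prop :=
  0 < nn p ∧ (∀ i < nn p, ∀ j < nn p, hh p i = hh p j → i = j) ∧
    (∀ i < nn p, ∀ j < nn p, qq p i = qq p j → i = j) ∧
    (∀ c ∈ p.2.1, sup (nn p) c ∧ rl (hh p) c ∧ rl (qq p) c) ∧ (([0, 0], [0]) : Rel) ∈ p.2.1

/-- visible convergence of the `e`-th operation -/
def cv (e : ℕ) (τ : List Bool) (i : ℕ) (b : Bool) (r : ℕ) : Prop :=
  ∃ j < τ.length + 1, (Nat.Partrec.Code.evaln r ((decode (α := Nat.Partrec.Code) e).getD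
    Nat.Partrec.Code.zero) (encode (τ.take j, i, b))).isSome = true

variable [Primcodable H]

/-- visible dependence at stage `t` -/
def Dpt (t : ℕ) (h : ℕ → H) (x : H) (l : ℕ) : Prop := ∃ r : ℕ × Rel, encode r < t ∧ Dr h x l r

/-- `w` is the least element which is not visibly dependent. -/
def IsW (t : ℕ) (h : ℕ → H) (w : H) (l : ℕ) : Prop :=
  w ≠ 0 ∧ ¬ Dpt t h w l ∧ ¬ ∃ x : H, encode x < encode w ∧ ¬ (x = 0 ∨ Dpt t h x l)

/-- common conditions on the steps -/
def Com (t : ℕ) (p p' : St H) : Prop :=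
  nn p ≤ nn p' ∧ (∀ c ∈ p.2.1, c ∈ p'.2.1) ∧
    (∀ i < nn p, ∀ j < nn p, qq p i < qq p j → qq p' i < qq p' j) ∧
    ∀ i < nn p, hh p' i = hh p i ∨ t < encode (hh p' i)

/-- the old part of the list of elements is unchanged -/
def Same (p p' : St H) : Prop := ∀ i < nn p, hh p' i = hh p i

/-- commit step -/
def R0 (c : Rel) (p p' : St H) : Prop :=
  nn p' = nn p ∧ Same p p' ∧ p'.2.2 = p.2.2 ∧
    ((sup (nn p) c ∧ rl (hh p) c ∧ rl (qq p) c) → c ∈ p'.2.1)

/-- condition for the shift step -/
def C1 (p : St H) (x : ℕ × (ℕ × Rel)) : Prop :=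
  x.1 < nn p ∧ 0 < x.2.1 ∧ sup x.1 x.2.2 ∧ rl (hh p) (rho x.1 x.2)

/-- shift step -/
def R1 (t : ℕ) (x : ℕ × (ℕ × Rel)) (p p' : St H) : Prop :=
  (nn p' = nn p ∧ p'.2.2 = p.2.2) ∧
    ((Same p p' ∧ (¬ C1 p x ∨ rho x.1 x.2 ∈ p'.2.1 ∨
      ∃ c, sup x.1 c ∧ rl (hh p) c ∧ ¬ rl (qq p) c)) ∨
    ((C1 p x ∧ ∀ i < x.1, hh p' i = hh p i) ∧ ∃ (w : H) (z : ℕ), IsW t (hh p) w x.1 ∧ 0 < z ∧
      (hh p' x.1 = hh p x.1 + (List.replicate z w).sum ∨
        hh p x.1 = hh p' x.1 + (List.replicate z w).sum)))

/-- add step -/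
def R2 (t : ℕ) (x : H) (p p' : St H) : Prop :=
  (p'.2.2 = p.2.2 ∧ Same p p') ∧
    ((nn p' = nn p ∧ x ∈ p.1.1) ∨
    ((¬ x ∈ p.1.1 ∧ nn p' = nn p + 1 ∧ hh p' (nn p) = x) ∧
      (¬ Dpt t (hh p) x (nn p) ∨ ∃ r : ℕ × Rel, Dr (hh p) x (nn p) r ∧
        (¬ ∃ r' : ℕ × Rel, encode r' < encode r ∧ Dr (hh p) x (nn p) r') ∧
        rho (nn p) r ∈ p'.2.1)))

/-- requests for the kill step: `((e, σ), ((s, τ), ((u, v), (g, r))))` -/
abbrev Kr := (ℕ × List Bool) × ((ℕ × List Bool) × ((ℕ × ℕ) × (ℕ × ℕ)))

/-- condition for the kill step -/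
def C3 (p : St H) (x : Kr) : Prop :=
  (¬ encode x.1 ∈ p.2.2 ∧ encode x.1 ≤ x.2.1.1 ∧ x.2.1.1 ≤ nn p) ∧
  (¬ ∃ y : H, encode y < encode x.1 ∧ ¬ ∃ i < x.2.1.1, hh p i = y) ∧
  ((List.take x.1.2.length x.2.1.2 = x.1.2) ∧
  x.2.2.1.1 < x.2.1.1 ∧ x.2.2.1.2 < x.2.1.1 ∧ x.2.2.2.1 < nn p) ∧
  (0 < qq p x.2.2.1.1 ∧ 0 < qq p x.2.2.1.2) ∧
  (∀ i < x.2.1.1, i = 0 ∨ cv x.1.1 x.2.1.2 i true x.2.2.2.2 ∨ cv x.1.1 x.2.1.2 i false x.2.2.2.2) ∧
  (cv x.1.1 x.2.1.2 x.2.2.2.1 true x.2.2.2.2 ∨ cv x.1.1 x.2.1.2 x.2.2.2.1 false x.2.2.2.2) ∧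
  cv x.1.1 x.2.1.2 x.2.2.1.1 true x.2.2.2.2 ∧ cv x.1.1 x.2.1.2 x.2.2.1.2 false x.2.2.2.2

/-- certificate of failure for the kill step -/
def Ct (p : St H) (x : Kr) : Prop :=
  (∃ y : (ℕ × ℕ) × (ℕ × ℕ), ¬ y.1 = y.2 ∧
    rl (hh p) (List.replicate y.1.1 x.2.2.1.1 ++ List.replicate y.1.2 x.2.2.1.2,
      List.replicate y.2.1 x.2.2.1.1 ++ List.replicate y.2.2 x.2.2.1.2)) ∨
  ∃ r : ℕ × Rel, Dr (hh p) (hh p x.2.2.2.1) x.2.1.1 r

/-- a relation which contradicts the values of the `e`-th operation -/
def Gd (e : ℕ) (τ : List Bool) (r : ℕ) (c : Rel) : Prop :=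
  ¬ c = ([], []) ∧ (∀ i ∈ c.1, ¬ i = 0 ∧ cv e τ i true r) ∧ ∀ i ∈ c.2, ¬ i = 0 ∧ cv e τ i false r

/-- kill step -/
def R3 (x : Kr) (p p' : St H) : Prop :=
  nn p' = nn p ∧
    ((Same p p' ∧ p'.2.2 = p.2.2 ∧ (¬ C3 p x ∨ Ct p x)) ∨
    ((C3 p x ∧ ∀ i < x.2.1.1, hh p' i = hh p i) ∧ p'.2.2 = encode x.1 :: p.2.2 ∧
      ∃ c ∈ p'.2.1, Gd x.1.1 x.2.1.2 x.2.2.2.2 c))

/-- decoding -/
def dc (α : Type) [Primcodable α] [Inhabited α] (n : ℕ) : α := (decode (α := α) n).getD default

/-- steps -/
def Spec (t : ℕ) (p p' : St H) : Prop :=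
  ((t.unpair.1.unpair.1 = 0 ∧ R0 (dc Rel t.unpair.1.unpair.2) p p') ∨
    (t.unpair.1.unpair.1 = 1 ∧ R1 t (dc (ℕ × (ℕ × Rel)) t.unpair.1.unpair.2) p p')) ∨
  ((t.unpair.1.unpair.1 = 2 ∧ R2 t ((decode (α := H) t.unpair.1.unpair.2).getD 0) p p') ∨
    (2 < t.unpair.1.unpair.1 ∧ R3 (dc Kr t.unpair.1.unpair.2) p p'))

/-- the step relation -/
def Step (t : ℕ) (p p' : St H) : Prop := Vl p' ∧ Com t p p' ∧ Spec t p p'

end

section comp
variable {α β : Type} [Primcodable α] [Primcodable β]

theorem cd_lt {f g : α → ℕ} (hf : Computable f) (hg : Computable g) : CD fun a => f a < g a :=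
  CD.comp (p := fun x : ℕ × ℕ => x.1 < x.2) (f := fun a => (f a, g a))
    (CD.of_prim (Primrec.nat_lt.comp Primrec.fst Primrec.snd)) (hf.pair hg)

theorem cd_le {f g : α → ℕ} (hf : Computable f) (hg : Computable g) : CD fun a => f a ≤ g a :=
  CD.comp (p := fun x : ℕ × ℕ => x.1 ≤ x.2) (f := fun a => (f a, g a))
    (CD.of_prim (Primrec.nat_le.comp Primrec.fst Primrec.snd)) (hf.pair hg)

theorem cd_mem {f : α → β} {g : α → List β} (hf : Computable f) (hg : Computable g) :
    CD fun a => f a ∈ g a :=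
  (CD.ex_mem (α := α) (p := fun a b => f a = b) (CD.eqv (hf.comp Computable.fst) Computable.snd)
    hg).of_eq fun a => by simp

theorem c_encode {f : α → β} (hf : Computable f) : Computable fun a => encode (f a) :=
  Computable.encode.comp hf

theorem cd_sup {f : α → ℕ} {g : α → Rel} (hf : Computable f) (hg : Computable g) :
    CD fun a => sup (f a) (g a) :=
  CD.and (CD.all_mem (p := fun a i => i < f a) (cd_lt Computable.snd (hf.comp Computable.fst))
      (Computable.fst.comp hg))
    (CD.all_mem (p := fun a i => i < f a) (cd_lt Computable.snd (hf.comp Computable.fst))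
      (Computable.snd.comp hg))

theorem p_replicate : Primrec fun x : ℕ × β => List.replicate x.1 x.2 := by
  have h : Primrec fun x : ℕ × β => (List.range x.1).map fun _ => x.2 :=
    Primrec.list_map (Primrec.list_range.comp Primrec.fst)
      (g := fun (x : ℕ × β) (_ : ℕ) => x.2) (Primrec.snd.comp Primrec.fst)
  exact h.of_eq fun x => by simp

theorem c_replicate {f : α → ℕ} {g : α → β} (hf : Computable f) (hg : Computable g) :
    Computable fun a => List.replicate (f a) (g a) :=
  p_replicate.to_comp.comp (hf.pair hg)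

theorem c_append {f g : α → List β} (hf : Computable f) (hg : Computable g) :
    Computable fun a => f a ++ g a :=
  Computable₂.comp (Primrec.list_append.to_comp) hf hg

theorem c_rho {l : α → ℕ} {r : α → ℕ × Rel} (hl : Computable l) (hr : Computable r) :
    Computable fun a => rho (l a) (r a) :=
  (c_append (c_replicate (Computable.fst.comp hr) hl)
    (Computable.fst.comp (Computable.snd.comp hr))).pair (Computable.snd.comp (Computable.snd.comp hr))

theorem cd_cv {e : α → ℕ} {τ : α → List Bool} {i : α → ℕ} {b : α → Bool} {r : α → ℕ}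
    (he : Computable e) (hτ : Computable τ) (hi : Computable i) (hb : Computable b)
    (hr : Computable r) : CD fun a => cv (e a) (τ a) (i a) (b a) (r a) := by
  have h1 : PrimrecPred fun x : ((ℕ × List Bool) × (ℕ × Bool)) × ℕ =>
      cv x.1.1.1 x.1.1.2 x.1.2.1 x.1.2.2 x.2 := by
    refine PP.ex_lt (α := ((ℕ × List Bool) × (ℕ × Bool)) × ℕ)
      (f := fun x => x.1.1.2.length + 1) (p := fun x j => (Nat.Partrec.Code.evaln x.2
      ((decode (α := Nat.Partrec.Code) x.1.1.1).getD Nat.Partrec.Code.zero)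
      (encode (x.1.1.2.take j, x.1.2.1, x.1.2.2))).isSome = true) ?_ ?_
    · refine Primrec.eq.comp (Primrec.option_isSome.comp (Nat.Partrec.Code.primrec_evaln.comp
        ((Primrec.pair (Primrec.snd.comp Primrec.fst) (Primrec.option_getD.comp
          (Primrec.decode.comp (Primrec.fst.comp (Primrec.fst.comp (Primrec.fst.comp Primrec.fst))))
          (Primrec.const Nat.Partrec.Code.zero))).pair (Primrec.encode.comp (Primrec.pair ?_
            (Primrec.snd.comp (Primrec.fst.comp Primrec.fst))))))) (Primrec.const true)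
      have h2 : Primrec fun x : ℕ × List Bool => x.2.take x.1 := by
        have h3 : Primrec fun x : ℕ × List Bool => (List.range x.1).flatMap
            fun i => (x.2[i]?).toList := by
          refine Primrec.list_flatMap (Primrec.list_range.comp Primrec.fst) ?_
          exact Primrec.optionToList.comp (Primrec.list_getElem?.comp (Primrec.snd.comp Primrec.fst)
            Primrec.snd)
        refine h3.of_eq fun x => ?_
        obtain ⟨n, L⟩ := x
        simp only
        induction n with
        | zero => simp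
        | succ n ih =>
          rw [List.range_succ, List.flatMap_append, ih, List.take_add_one]
          simp
      exact h2.comp (Primrec.snd.pair (Primrec.snd.comp (Primrec.fst.comp
        (Primrec.fst.comp Primrec.fst))))
    · exact Primrec.succ.comp (Primrec.list_length.comp (Primrec.snd.comp (Primrec.fst.comp
        Primrec.fst)))
  exact CD.comp (f := fun a => (((e a, τ a), (i a, b a)), r a)) (CD.of_prim h1)
    (((he.pair hτ).pair (hi.pair hb)).pair hr)

end comp

section comp
variable {α : Type} [Primcodable α] {H : Type} [AddCommGroup H] [Primcodable H]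

theorem c_nn {f : α → St H} (hf : Computable f) : Computable fun a => nn (f a) :=
  (Primrec.list_length.comp (Primrec.fst.comp Primrec.fst)).to_comp.comp hf

theorem p_hh : Primrec fun x : St H × ℕ => hh x.1 x.2 :=
  (Primrec.list_getD (0 : H)).comp (Primrec.fst.comp (Primrec.fst.comp Primrec.fst)) Primrec.snd

theorem p_qq : Primrec fun x : St H × ℕ => qq x.1 x.2 :=
  (Primrec.list_getD (0 : ℤ)).comp (Primrec.snd.comp (Primrec.fst.comp Primrec.fst)) Primrec.snd

theorem c_hh {f : α → St H} {g : α → ℕ} (hf : Computable f) (hg : Computable g) :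
    Computable fun a => hh (f a) (g a) := p_hh.to_comp.comp (hf.pair hg)

theorem c_qq {f : α → St H} {g : α → ℕ} (hf : Computable f) (hg : Computable g) :
    Computable fun a => qq (f a) (g a) := p_qq.to_comp.comp (hf.pair hg)

theorem c_C {f : α → St H} (hf : Computable f) : Computable fun a => (f a).2.1 :=
  Computable.fst.comp (Computable.snd.comp hf)

theorem c_D {f : α → St H} (hf : Computable f) : Computable fun a => (f a).2.2 :=
  Computable.snd.comp (Computable.snd.comp hf)

theorem c_L {f : α → St H} (hf : Computable f) : Computable fun a => (f a).1.1 :=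
  Computable.fst.comp (Computable.fst.comp hf)

theorem c_maph {f : α → St H} {L : α → List ℕ} (hf : Computable f) (hL : Computable L) :
    Computable fun a => (L a).map (hh (f a)) := by
  have h : Primrec fun x : St H × List ℕ => x.2.map (hh x.1) :=
    Primrec.list_map Primrec.snd (g := fun (x : St H × List ℕ) i => hh x.1 i)
      (p_hh.comp ((Primrec.fst.comp Primrec.fst).pair Primrec.snd))
  exact h.to_comp.comp (hf.pair hL)

theorem c_mapq {f : α → St H} {L : α → List ℕ} (hf : Computable f) (hL : Computable L) :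
    Computable fun a => (L a).map (qq (f a)) := by
  have h : Primrec fun x : St H × List ℕ => x.2.map (qq x.1) :=
    Primrec.list_map Primrec.snd (g := fun (x : St H × List ℕ) i => qq x.1 i)
      (p_qq.comp ((Primrec.fst.comp Primrec.fst).pair Primrec.snd))
  exact h.to_comp.comp (hf.pair hL)

theorem cd_qlt {f g : α → ℤ} (hf : Computable f) (hg : Computable g) : CD fun a => f a < g a :=
  CD.comp (p := fun x : ℤ × ℤ => x.1 < x.2) (f := fun a => (f a, g a))
    (CD.of_prim (Helper425_zc.pp_lt Primrec.fst Primrec.snd)) (hf.pair hg)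

theorem cd_rlq {f : α → St H} {g : α → Rel} (hf : Computable f) (hg : Computable g) :
    CD fun a => rl (qq (f a)) (g a) := by
  have hs : Computable fun L : List ℤ => L.sum := computable_sum Helper425_zc.prim_add.to_comp
  exact CD.eqv (hs.comp (c_mapq hf (Computable.fst.comp hg)))
    (hs.comp (c_mapq hf (Computable.snd.comp hg)))

theorem cd_rlh (hadd : Computable₂ fun a b : H => a + b) {f : α → St H} {g : α → Rel}
    (hf : Computable f) (hg : Computable g) : CD fun a => rl (hh (f a)) (g a) := by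
  have hs : Computable fun L : List H => L.sum := computable_sum hadd
  exact CD.eqv (hs.comp (c_maph hf (Computable.fst.comp hg)))
    (hs.comp (c_maph hf (Computable.snd.comp hg)))

theorem cd_Dr (hadd : Computable₂ fun a b : H => a + b) {f : α → St H} {x : α → H} {l : α → ℕ}
    {r : α → ℕ × Rel} (hf : Computable f) (hx : Computable x) (hl : Computable l)
    (hr : Computable r) : CD fun a => Dr (hh (f a)) (x a) (l a) (r a) := by
  have hs : Computable fun L : List H => L.sum := computable_sum hadd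
  refine CD.and (cd_lt (Computable.const 0) (Computable.fst.comp hr)) (CD.and (cd_sup hl
    (Computable.snd.comp hr)) ?_)
  exact CD.eqv (hs.comp (c_append (c_replicate (Computable.fst.comp hr) hx) (c_maph hf
    (Computable.fst.comp (Computable.snd.comp hr)))))
    (hs.comp (c_maph hf (Computable.snd.comp (Computable.snd.comp hr))))

theorem cd_Dpt (hadd : Computable₂ fun a b : H => a + b) {t : α → ℕ} {f : α → St H} {x : α → H}
    {l : α → ℕ} (ht : Computable t) (hf : Computable f) (hx : Computable x) (hl : Computable l) :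
    CD fun a => Dpt (t a) (hh (f a)) (x a) (l a) :=
  CD.ex_code (p := fun a (r : ℕ × Rel) => Dr (hh (f a)) (x a) (l a) r)
    (cd_Dr hadd (hf.comp Computable.fst) (hx.comp Computable.fst) (hl.comp Computable.fst)
      Computable.snd) ht

theorem cd_IsW (hadd : Computable₂ fun a b : H => a + b) {t : α → ℕ} {f : α → St H} {x : α → H}
    {l : α → ℕ} (ht : Computable t) (hf : Computable f) (hx : Computable x) (hl : Computable l) :
    CD fun a => IsW (t a) (hh (f a)) (x a) (l a) := by
  refine CD.and (CD.not (CD.eqv hx (Computable.const 0))) (CD.and (cd_Dpt hadd ht hf hx hl).not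
    (CD.not ?_))
  refine CD.ex_code (p := fun a (y : H) => ¬ (y = 0 ∨ Dpt (t a) (hh (f a)) y (l a))) ?_
    (c_encode hx)
  exact CD.not (CD.or (CD.eqv Computable.snd (Computable.const 0)) (cd_Dpt hadd
    (ht.comp Computable.fst) (hf.comp Computable.fst) Computable.snd (hl.comp Computable.fst)))

theorem cd_Same {f g : α → St H} (hf : Computable f) (hg : Computable g) :
    CD fun a => Same (f a) (g a) :=
  CD.all_lt (p := fun a i => hh (g a) i = hh (f a) i) (CD.eqv (c_hh (hg.comp Computable.fst)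
    Computable.snd) (c_hh (hf.comp Computable.fst) Computable.snd)) (c_nn hf)

theorem cd_Vl (hadd : Computable₂ fun a b : H => a + b) {f : α → St H} (hf : Computable f) :
    CD fun a => Vl (f a) := by
  refine CD.and (cd_lt (Computable.const 0) (c_nn hf)) (CD.and ?_ (CD.and ?_ (CD.and ?_
    (cd_mem (Computable.const _) (c_C hf)))))
  · refine CD.all_lt (p := fun a i => ∀ j < nn (f a), hh (f a) i = hh (f a) j → i = j) ?_ (c_nn hf)
    refine CD.all_lt (α := α × ℕ) (p := fun a j => hh (f a.1) a.2 = hh (f a.1) j → a.2 = j) ?_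
      (c_nn (hf.comp Computable.fst))
    exact CD.imp (CD.eqv (c_hh (hf.comp (Computable.fst.comp Computable.fst))
      (Computable.snd.comp Computable.fst)) (c_hh (hf.comp (Computable.fst.comp Computable.fst))
      Computable.snd)) (CD.eqv (Computable.snd.comp Computable.fst) Computable.snd)
  · refine CD.all_lt (p := fun a i => ∀ j < nn (f a), qq (f a) i = qq (f a) j → i = j) ?_ (c_nn hf)
    refine CD.all_lt (α := α × ℕ) (p := fun a j => qq (f a.1) a.2 = qq (f a.1) j → a.2 = j) ?_
      (c_nn (hf.comp Computable.fst))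
    exact CD.imp (CD.eqv (c_qq (hf.comp (Computable.fst.comp Computable.fst))
      (Computable.snd.comp Computable.fst)) (c_qq (hf.comp (Computable.fst.comp Computable.fst))
      Computable.snd)) (CD.eqv (Computable.snd.comp Computable.fst) Computable.snd)
  · refine CD.all_mem (p := fun a c => sup (nn (f a)) c ∧ rl (hh (f a)) c ∧ rl (qq (f a)) c) ?_
      (c_C hf)
    exact CD.and (cd_sup (c_nn (hf.comp Computable.fst)) Computable.snd)
      (CD.and (cd_rlh hadd (hf.comp Computable.fst) Computable.snd)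
        (cd_rlq (hf.comp Computable.fst) Computable.snd))

theorem cd_Com {t : α → ℕ} {f g : α → St H} (ht : Computable t) (hf : Computable f)
    (hg : Computable g) : CD fun a => Com (t a) (f a) (g a) := by
  refine CD.and (cd_le (c_nn hf) (c_nn hg)) (CD.and ?_ (CD.and ?_ ?_))
  · exact CD.all_mem (p := fun a c => c ∈ (g a).2.1) (cd_mem Computable.snd
      (c_C (hg.comp Computable.fst))) (c_C hf)
  · refine CD.all_lt (p := fun a i => ∀ j < nn (f a), qq (f a) i < qq (f a) j →
      qq (g a) i < qq (g a) j) ?_ (c_nn hf)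
    refine CD.all_lt (α := α × ℕ) (p := fun a j => qq (f a.1) a.2 < qq (f a.1) j →
      qq (g a.1) a.2 < qq (g a.1) j) ?_ (c_nn (hf.comp Computable.fst))
    have e1 := Computable.fst.comp (Computable.fst (α := α × ℕ) (β := ℕ))
    have e2 := Computable.snd.comp (Computable.fst (α := α × ℕ) (β := ℕ))
    exact CD.imp (cd_qlt (c_qq (hf.comp e1) e2) (c_qq (hf.comp e1) Computable.snd))
      (cd_qlt (c_qq (hg.comp e1) e2) (c_qq (hg.comp e1) Computable.snd))
  · refine CD.all_lt (p := fun a i => hh (g a) i = hh (f a) i ∨ t a < encode (hh (g a) i)) ?_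
      (c_nn hf)
    have e1 := Computable.fst (α := α) (β := ℕ)
    exact CD.or (CD.eqv (c_hh (hg.comp e1) Computable.snd) (c_hh (hf.comp e1) Computable.snd))
      (cd_lt (ht.comp e1) (c_encode (c_hh (hg.comp e1) Computable.snd)))

theorem cd_R0 (hadd : Computable₂ fun a b : H => a + b) {c : α → Rel} {f g : α → St H}
    (hc : Computable c) (hf : Computable f) (hg : Computable g) :
    CD fun a => R0 (c a) (f a) (g a) :=
  CD.and (CD.eqv (c_nn hg) (c_nn hf)) (CD.and (cd_Same hf hg) (CD.and (CD.eqv (c_D hg) (c_D hf))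
    (CD.imp (CD.and (cd_sup (c_nn hf) hc) (CD.and (cd_rlh hadd hf hc) (cd_rlq hf hc)))
      (cd_mem hc (c_C hg)))))

theorem cd_C1 (hadd : Computable₂ fun a b : H => a + b) {x : α → ℕ × (ℕ × Rel)} {f : α → St H}
    (hx : Computable x) (hf : Computable f) :
    CD fun a => C1 (f a) (x a) :=
  CD.and (cd_lt (Computable.fst.comp hx) (c_nn hf)) (CD.and (cd_lt (Computable.const 0)
    (Computable.fst.comp (Computable.snd.comp hx))) (CD.and (cd_sup (Computable.fst.comp hx)
      (Computable.snd.comp (Computable.snd.comp hx))) (cd_rlh hadd hf (c_rho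
        (Computable.fst.comp hx) (Computable.snd.comp hx)))))

theorem s1_R1 (hadd : Computable₂ fun a b : H => a + b) {t : α → ℕ} {x : α → ℕ × (ℕ × Rel)}
    {f g : α → St H} (ht : Computable t) (hx : Computable x) (hf : Computable f)
    (hg : Computable g) : S1 fun a => R1 (t a) (x a) (f a) (g a) := by
  have hx1 := Computable.fst.comp hx
  refine S1.and (CD.and (CD.eqv (c_nn hg) (c_nn hf)) (CD.eqv (c_D hg) (c_D hf))).1
    (S1.or ?_ ?_)
  · refine S1.and (cd_Same hf hg).1 (S1.or (cd_C1 hadd hx hf).not.1 (S1.or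
      (cd_mem (c_rho hx1 (Computable.snd.comp hx)) (c_C hg)).1 ?_))
    refine S1.ex (p := fun a c => sup (x a).1 c ∧ rl (hh (f a)) c ∧ ¬ rl (qq (f a)) c) ?_
    have e1 := Computable.fst (α := α) (β := Rel)
    exact (CD.and (cd_sup (hx1.comp e1) Computable.snd)
      (CD.and (cd_rlh hadd (hf.comp e1) Computable.snd)
      (cd_rlq (hf.comp e1) Computable.snd).not)).1
  · refine S1.and (CD.and (cd_C1 hadd hx hf) ?_).1 ?_
    · exact CD.all_lt (p := fun a i => hh (g a) i = hh (f a) i) (CD.eqv (c_hh (hg.comp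
        Computable.fst) Computable.snd) (c_hh (hf.comp Computable.fst) Computable.snd)) hx1
    · refine S1.ex (p := fun a (w : H) => ∃ z : ℕ, IsW (t a) (hh (f a)) w (x a).1 ∧ 0 < z ∧
        (hh (g a) (x a).1 = hh (f a) (x a).1 + (List.replicate z w).sum ∨
        hh (f a) (x a).1 = hh (g a) (x a).1 + (List.replicate z w).sum)) ?_
      refine S1.ex (α := α × H) (p := fun a z => IsW (t a.1) (hh (f a.1)) a.2 (x a.1).1 ∧ 0 < z ∧
        (hh (g a.1) (x a.1).1 = hh (f a.1) (x a.1).1 + (List.replicate z a.2).sum ∨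
        hh (f a.1) (x a.1).1 = hh (g a.1) (x a.1).1 + (List.replicate z a.2).sum)) ?_
      have e1 := Computable.fst.comp (Computable.fst (α := α × H) (β := ℕ))
      have e2 := Computable.snd.comp (Computable.fst (α := α × H) (β := ℕ))
      have hs : Computable fun L : List H => L.sum := computable_sum hadd
      have e3 := hs.comp (c_replicate (Computable.snd (α := α × H) (β := ℕ)) e2)
      have e4 := c_hh (hf.comp e1) (hx1.comp e1)
      have e5 := c_hh (hg.comp e1) (hx1.comp e1)
      exact (CD.and (cd_IsW hadd (ht.comp e1) (hf.comp e1) e2 (hx1.comp e1))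
        (CD.and (cd_lt (Computable.const 0) Computable.snd) (CD.or (CD.eqv e5 (hadd.comp e4 e3))
          (CD.eqv e4 (hadd.comp e5 e3))))).1

theorem s1_R2 (hadd : Computable₂ fun a b : H => a + b) {t : α → ℕ} {x : α → H}
    {f g : α → St H} (ht : Computable t) (hx : Computable x) (hf : Computable f)
    (hg : Computable g) : S1 fun a => R2 (t a) (x a) (f a) (g a) := by
  refine S1.and (CD.and (CD.eqv (c_D hg) (c_D hf)) (cd_Same hf hg)).1 (S1.or
    (CD.and (CD.eqv (c_nn hg) (c_nn hf)) (cd_mem hx (c_L hf))).1 (S1.and (CD.and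
    (cd_mem hx (c_L hf)).not (CD.and (CD.eqv (c_nn hg) (Computable.succ.comp (c_nn hf)))
      (CD.eqv (c_hh hg (c_nn hf)) hx))).1 (S1.or (cd_Dpt hadd ht hf hx (c_nn hf)).not.1 ?_)))
  refine S1.ex (p := fun a (r : ℕ × Rel) => Dr (hh (f a)) (x a) (nn (f a)) r ∧
        (¬ ∃ r' : ℕ × Rel, encode r' < encode r ∧ Dr (hh (f a)) (x a) (nn (f a)) r') ∧
        rho (nn (f a)) r ∈ (g a).2.1) ?_
  have e1 := Computable.fst (α := α) (β := ℕ × Rel)
  have e2 := Computable.snd (α := α) (β := ℕ × Rel)
  refine (CD.and (cd_Dr hadd (hf.comp e1) (hx.comp e1) (c_nn (hf.comp e1)) e2)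
    (CD.and (CD.not (CD.ex_code (α := α × (ℕ × Rel)) (p := fun a (r' : ℕ × Rel) =>
      Dr (hh (f a.1)) (x a.1) (nn (f a.1)) r')
    ?_ (c_encode e2))) (cd_mem (c_rho (c_nn (hf.comp e1)) e2) (c_C (hg.comp e1))))).1
  have e3 := Computable.fst.comp (Computable.fst (α := α × (ℕ × Rel)) (β := ℕ × Rel))
  exact cd_Dr hadd (hf.comp e3) (hx.comp e3) (c_nn (hf.comp e3)) Computable.snd

theorem cd_C3 {x : α → Kr} {f : α → St H} (hx : Computable x) (hf : Computable f) :
    CD fun a => C3 (f a) (x a) := by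
  have x1 := Computable.fst.comp hx
  have x2 := Computable.snd.comp hx
  have xe := Computable.fst.comp x1
  have xσ := Computable.snd.comp x1
  have x3 := Computable.fst.comp x2
  have xs := Computable.fst.comp x3
  have xτ := Computable.snd.comp x3
  have x4 := Computable.snd.comp x2
  have x5 := Computable.fst.comp x4
  have x6 := Computable.snd.comp x4
  have xu := Computable.fst.comp x5
  have xv := Computable.snd.comp x5
  have xg := Computable.fst.comp x6
  have xr := Computable.snd.comp x6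
  have hk := c_encode x1
  refine CD.and (CD.and (cd_mem hk (c_D hf)).not (CD.and (cd_le hk xs) (cd_le xs (c_nn hf))))
    (CD.and ?_ (CD.and (CD.and ?_ (CD.and (cd_lt xu xs) (CD.and (cd_lt xv xs)
    (cd_lt xg (c_nn hf))))) (CD.and ?_ (CD.and ?_ (CD.and ?_ (CD.and ?_ ?_))))))
  · refine CD.not (CD.ex_code (p := fun a (y : H) => ¬ ∃ i < (x a).2.1.1, hh (f a) i = y)
      (CD.not ?_) hk)
    refine CD.ex_lt (α := α × H) (p := fun a i => hh (f a.1) i = a.2) ?_ (xs.comp Computable.fst)
    have e1 := Computable.fst.comp (Computable.fst (α := α × H) (β := ℕ))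
    exact CD.eqv (c_hh (hf.comp e1) Computable.snd) (Computable.snd.comp Computable.fst)
  · refine CD.eqv ?_ xσ
    have h2 : Primrec fun x : ℕ × List Bool => x.2.take x.1 := by
      have h3 : Primrec fun x : ℕ × List Bool => (List.range x.1).flatMap
          fun i => (x.2[i]?).toList := by
        refine Primrec.list_flatMap (Primrec.list_range.comp Primrec.fst) ?_
        exact Primrec.optionToList.comp (Primrec.list_getElem?.comp (Primrec.snd.comp Primrec.fst)
          Primrec.snd)
      refine h3.of_eq fun x => ?_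
      obtain ⟨n, L⟩ := x
      simp only
      induction n with
      | zero => simp
      | succ n ih =>
        rw [List.range_succ, List.flatMap_append, ih, List.take_add_one]
        simp
    exact h2.to_comp.comp ((Primrec.list_length.to_comp.comp xσ).pair xτ)
  · exact CD.and (cd_qlt (Computable.const 0) (c_qq hf xu))
      (cd_qlt (Computable.const 0) (c_qq hf xv))
  · refine CD.all_lt (p := fun a i => i = 0 ∨ cv (x a).1.1 (x a).2.1.2 i true (x a).2.2.2.2 ∨
      cv (x a).1.1 (x a).2.1.2 i false (x a).2.2.2.2) ?_ xs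
    have e1 := Computable.fst (α := α) (β := ℕ)
    exact CD.or (CD.eqv Computable.snd (Computable.const 0)) (CD.or (cd_cv (xe.comp e1)
      (xτ.comp e1) Computable.snd (Computable.const true) (xr.comp e1)) (cd_cv (xe.comp e1)
      (xτ.comp e1) Computable.snd (Computable.const false) (xr.comp e1)))
  · exact CD.or (cd_cv xe xτ xg (Computable.const true) xr)
      (cd_cv xe xτ xg (Computable.const false) xr)
  · exact cd_cv xe xτ xu (Computable.const true) xr
  · exact cd_cv xe xτ xv (Computable.const false) xr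

theorem s1_Ct (hadd : Computable₂ fun a b : H => a + b) {x : α → Kr} {f : α → St H}
    (hx : Computable x) (hf : Computable f) : S1 fun a => Ct (f a) (x a) := by
  have x2 := Computable.snd.comp hx
  have xs := Computable.fst.comp (Computable.fst.comp x2)
  have x4 := Computable.snd.comp x2
  have x5 := Computable.fst.comp x4
  have xu := Computable.fst.comp x5
  have xv := Computable.snd.comp x5
  have xg := Computable.fst.comp (Computable.snd.comp x4)
  refine S1.or ?_ ?_
  · refine S1.ex (p := fun a (y : (ℕ × ℕ) × (ℕ × ℕ)) => ¬ y.1 = y.2 ∧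
      rl (hh (f a)) (List.replicate y.1.1 (x a).2.2.1.1 ++ List.replicate y.1.2 (x a).2.2.1.2,
        List.replicate y.2.1 (x a).2.2.1.1 ++ List.replicate y.2.2 (x a).2.2.1.2)) ?_
    have e1 := Computable.fst (α := α) (β := (ℕ × ℕ) × (ℕ × ℕ))
    have e2 := Computable.snd (α := α) (β := (ℕ × ℕ) × (ℕ × ℕ))
    refine (CD.and (CD.eqv (Computable.fst.comp e2) (Computable.snd.comp e2)).not
      (cd_rlh hadd (hf.comp e1) (Computable.pair ?_ ?_))).1
    · exact c_append (c_replicate (Computable.fst.comp (Computable.fst.comp e2)) (xu.comp e1))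
        (c_replicate (Computable.snd.comp (Computable.fst.comp e2)) (xv.comp e1))
    · exact c_append (c_replicate (Computable.fst.comp (Computable.snd.comp e2)) (xu.comp e1))
        (c_replicate (Computable.snd.comp (Computable.snd.comp e2)) (xv.comp e1))
  · refine S1.ex (p := fun a (r : ℕ × Rel) => Dr (hh (f a)) (hh (f a) (x a).2.2.2.1) (x a).2.1.1 r)
      ?_
    have e1 := Computable.fst (α := α) (β := ℕ × Rel)
    exact (cd_Dr hadd (hf.comp e1) (c_hh (hf.comp e1) (xg.comp e1)) (xs.comp e1)
      Computable.snd).1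

theorem cd_Gd {e : α → ℕ} {τ : α → List Bool} {r : α → ℕ} {c : α → Rel} (he : Computable e)
    (hτ : Computable τ) (hr : Computable r) (hc : Computable c) :
    CD fun a => Gd (e a) (τ a) (r a) (c a) := by
  have e1 := Computable.fst (α := α) (β := ℕ)
  refine CD.and (CD.eqv hc (Computable.const ([], []))).not (CD.and ?_ ?_)
  · exact CD.all_mem (p := fun a i => ¬ i = 0 ∧ cv (e a) (τ a) i true (r a))
      (CD.and (CD.eqv Computable.snd (Computable.const 0)).not (cd_cv (he.comp e1) (hτ.comp e1)
        Computable.snd (Computable.const true) (hr.comp e1))) (Computable.fst.comp hc)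
  · exact CD.all_mem (p := fun a i => ¬ i = 0 ∧ cv (e a) (τ a) i false (r a))
      (CD.and (CD.eqv Computable.snd (Computable.const 0)).not (cd_cv (he.comp e1) (hτ.comp e1)
        Computable.snd (Computable.const false) (hr.comp e1))) (Computable.snd.comp hc)

theorem s1_R3 (hadd : Computable₂ fun a b : H => a + b) {x : α → Kr} {f g : α → St H}
    (hx : Computable x) (hf : Computable f) (hg : Computable g) :
    S1 fun a => R3 (x a) (f a) (g a) := by
  have x1 := Computable.fst.comp hx
  have x2 := Computable.snd.comp hx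
  have xe := Computable.fst.comp x1
  have x3 := Computable.fst.comp x2
  have xs := Computable.fst.comp x3
  have xτ := Computable.snd.comp x3
  have xr := Computable.snd.comp (Computable.snd.comp (Computable.snd.comp x2))
  refine S1.and (CD.eqv (c_nn hg) (c_nn hf)).1 (S1.or ?_ ?_)
  · exact S1.and (cd_Same hf hg).1 (S1.and (CD.eqv (c_D hg) (c_D hf)).1 (S1.or
      (cd_C3 hx hf).not.1 (s1_Ct hadd hx hf)))
  · refine (CD.and (CD.and (cd_C3 hx hf) ?_) (CD.and (CD.eqv (c_D hg) ?_) ?_)).1
    · exact CD.all_lt (p := fun a i => hh (g a) i = hh (f a) i) (CD.eqv (c_hh (hg.comp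
        Computable.fst) Computable.snd) (c_hh (hf.comp Computable.fst) Computable.snd)) xs
    · exact Computable.list_cons.comp (c_encode x1) (c_D hf)
    · have e1 := Computable.fst (α := α) (β := Rel)
      exact CD.ex_mem (p := fun a c => Gd (x a).1.1 (x a).2.1.2 (x a).2.2.2.2 c)
        (cd_Gd (xe.comp e1) (xτ.comp e1) (xr.comp e1) Computable.snd) (c_C hg)

theorem c_dc {β : Type} [Primcodable β] [Inhabited β] {f : α → ℕ} (hf : Computable f) :
    Computable fun a => dc β (f a) :=
  (Primrec.option_getD.comp Primrec.decode (Primrec.const default)).to_comp.comp hf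

theorem s1_Step (hadd : Computable₂ fun a b : H => a + b) :
    S1 fun x : (ℕ × St H) × St H => Step x.1.1 x.1.2 x.2 := by
  have e1 : Computable fun x : (ℕ × St H) × St H => x.1.1 := Computable.fst.comp Computable.fst
  have e2 : Computable fun x : (ℕ × St H) × St H => x.1.2 := Computable.snd.comp Computable.fst
  have e3 : Computable fun x : (ℕ × St H) × St H => x.2 := Computable.snd
  have a1 : Computable fun x : (ℕ × St H) × St H => x.1.1.unpair.1.unpair.1 :=
    (Primrec.fst.comp (Primrec.unpair.comp (Primrec.fst.comp Primrec.unpair))).to_comp.comp e1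
  have a2 : Computable fun x : (ℕ × St H) × St H => x.1.1.unpair.1.unpair.2 :=
    (Primrec.snd.comp (Primrec.unpair.comp (Primrec.fst.comp Primrec.unpair))).to_comp.comp e1
  refine S1.and (cd_Vl hadd e3).1 (S1.and (cd_Com e1 e2 e3).1 (S1.or (S1.or ?_ ?_) (S1.or ?_ ?_)))
  · exact S1.and (CD.eqv a1 (Computable.const 0)).1 (cd_R0 hadd (c_dc a2) e2 e3).1
  · exact S1.and (CD.eqv a1 (Computable.const 1)).1 (s1_R1 hadd e1 (c_dc a2) e2 e3)
  · exact S1.and (CD.eqv a1 (Computable.const 2)).1 (s1_R2 hadd e1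
      ((Primrec.option_getD.comp Primrec.decode (Primrec.const 0)).to_comp.comp a2) e2 e3)
  · exact S1.and (cd_lt (Computable.const 2) a1).1 (s1_R3 hadd (c_dc a2) e2 e3)

end comp

end Pool.Agent.H54OG
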