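import Pool.Agent.H54OG.St
import Pool.Agent.H54OG.Kill

set_option autoImplicit false
set_option linter.unusedSectionVars false

namespace Pool.Agent.H54OG

open Encodable

section
variable {H : Type} [AddCommGroup H]

/-- building states -/
def mk (n : ℕ) (hf : ℕ → H) (qf : ℕ → ℤ) (C : List Rel) (D : List ℕ) : St H :=
  (((List.range n).map hf, (List.range n).map qf), (C, D))

@[simp] theorem nn_mk (n : ℕ) (hf : ℕ → H) (qf : ℕ → ℤ) (C : List Rel) (D : List ℕ) :
    nn (mk n hf qf C D) = n := by simp [nn, mk]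

theorem hh_mk {n : ℕ} {hf : ℕ → H} {qf : ℕ → ℤ} {C : List Rel} {D : List ℕ} {i : ℕ} (hi : i < n) :
    hh (mk n hf qf C D) i = hf i := by simp [hh, mk, List.getD, hi]

theorem qq_mk {n : ℕ} {hf : ℕ → H} {qf : ℕ → ℤ} {C : List Rel} {D : List ℕ} {i : ℕ} (hi : i < n) :
    qq (mk n hf qf C D) i = qf i := by simp [qq, mk, List.getD, hi]

theorem inj_of_ord {n : ℕ} {q q' : ℕ → ℤ} (hq : ∀ i < n, ∀ j < n, q i = q j → i = j)
    (ho : ∀ i < n, ∀ j < n, q i < q j → q' i < q' j) : ∀ i < n, ∀ j < n, q' i = q' j → i = j := by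
  intro i hi j hj hij
  rcases lt_trichotomy (q i) (q j) with h | h | h
  · exact absurd hij (ho i hi j hj h).ne
  · exact hq i hi j hj h
  · exact absurd hij (ho j hj i hi h).ne'

theorem Vl_mk {n : ℕ} {hf : ℕ → H} {qf : ℕ → ℤ} {C : List Rel} {D : List ℕ} (hn : 0 < n)
    (h1 : ∀ i < n, ∀ j < n, hf i = hf j → i = j) (h2 : ∀ i < n, ∀ j < n, qf i = qf j → i = j)
    (h3 : ∀ c ∈ C, sup n c ∧ rl hf c ∧ rl qf c) (h4 : (([0, 0], [0]) : Rel) ∈ C) :
    Vl (mk n hf qf C D) := by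
  refine ⟨by simpa using hn, ?_, ?_, ?_, h4⟩
  · intro i hi j hj hij
    rw [nn_mk] at hi hj
    rw [hh_mk hi, hh_mk hj] at hij
    exact h1 i hi j hj hij
  · intro i hi j hj hij
    rw [nn_mk] at hi hj
    rw [qq_mk hi, qq_mk hj] at hij
    exact h2 i hi j hj hij
  · intro c hc
    obtain ⟨h5, h6, h7⟩ := h3 c hc
    rw [nn_mk]
    refine ⟨h5, ?_, ?_⟩
    · exact (rl_congr h5 fun i hi => hh_mk hi).2 h6
    · exact (rl_congr h5 fun i hi => qq_mk hi).2 h7

theorem mem_L {p : St H} {i : ℕ} (hi : i < nn p) : hh p i ∈ p.1.1 := by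
  unfold hh
  have hi' : i < p.1.1.length := hi
  rw [List.getD_eq_getElem _ _ hi']
  exact List.getElem_mem hi'

theorem L_mem {p : St H} {x : H} (hx : x ∈ p.1.1) : ∃ i < nn p, hh p i = x := by
  obtain ⟨i, hi, rfl⟩ := List.mem_iff_getElem.1 hx
  exact ⟨i, hi, by unfold hh; rw [List.getD_eq_getElem _ _ hi]⟩

theorem rl_rho {M : Type} [AddCommGroup M] {h : ℕ → M} {l : ℕ} {r : ℕ × Rel} :
    rl h (rho l r) ↔ r.1 • h l + (r.2.1.map h).sum = (r.2.2.map h).sum := by
  unfold rl rho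
  simp only [List.map_append, List.map_replicate, List.sum_append, List.sum_replicate]

theorem rx_iff {h : ℕ → H} {x : H} {r : ℕ × Rel} :
    rx h x r ↔ r.1 • x + (r.2.1.map h).sum = (r.2.2.map h).sum := by
  unfold rx
  simp only [List.sum_append, List.sum_replicate]

theorem rx_congr {h h' : ℕ → H} {x : H} {l : ℕ} {r : ℕ × Rel} (hs : sup l r.2)
    (hh : ∀ i < l, h i = h' i) : rx h x r ↔ rx h' x r := by
  rw [rx_iff, rx_iff, List.map_congr_left fun i hi => hh i (hs.1 i hi),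
    List.map_congr_left fun i hi => hh i (hs.2 i hi)]

theorem Dr_congr {h h' : ℕ → H} {x : H} {l : ℕ} {r : ℕ × Rel}
    (hh : ∀ i < l, h i = h' i) : Dr h x l r ↔ Dr h' x l r := by
  unfold Dr
  constructor
  · rintro ⟨h1, h2, h3⟩
    exact ⟨h1, h2, (rx_congr h2 hh).1 h3⟩
  · rintro ⟨h1, h2, h3⟩
    exact ⟨h1, h2, (rx_congr h2 hh).2 h3⟩

theorem Vl.h0 {p : St H} (hp : Vl p) : hh p 0 = 0 := by
  have h := (hp.2.2.2.1 _ hp.2.2.2.2).2.1
  simp only [rl, List.map_cons, List.map_nil, List.sum_cons, List.sum_nil, add_zero] at h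
  exact add_eq_left.1 h

theorem Vl.q0 {p : St H} (hp : Vl p) : qq p 0 = 0 := by
  have h := (hp.2.2.2.1 _ hp.2.2.2.2).2.2
  simp only [rl, List.map_cons, List.map_nil, List.sum_cons, List.sum_nil, add_zero] at h
  exact add_eq_left.1 h

variable [Primcodable H]

theorem Com_mk {t n : ℕ} {p : St H} {hf : ℕ → H} {qf : ℕ → ℤ} {C : List Rel} {D : List ℕ}
    (hn : nn p ≤ n) (hC : ∀ c ∈ p.2.1, c ∈ C)
    (hq : ∀ i < nn p, ∀ j < nn p, qq p i < qq p j → qf i < qf j)
    (hh' : ∀ i < nn p, hf i = hh p i ∨ t < encode (hf i)) : Com t p (mk n hf qf C D) := by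
  refine ⟨by simpa using hn, hC, ?_, ?_⟩
  · intro i hi j hj hij
    rw [qq_mk (by omega), qq_mk (by omega)]
    exact hq i hi j hj hij
  · intro i hi
    rw [hh_mk (by omega)]
    exact hh' i hi

theorem Com.rfl (t : ℕ) (p : St H) : Com t p p :=
  ⟨le_rfl, fun _ h => h, fun _ _ _ _ h => h, fun _ _ => Or.inl (Eq.refl _)⟩

theorem tot_commit {t : ℕ} {p : St H} {c : Rel} (hp : Vl p) (h1 : sup (nn p) c)
    (h2 : rl (hh p) c) (h3 : rl (qq p) c) :
    Vl (p.1, (c :: p.2.1, p.2.2)) ∧ Com t p (p.1, (c :: p.2.1, p.2.2)) := by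
  constructor
  · refine ⟨hp.1, hp.2.1, hp.2.2.1, ?_, List.mem_cons_of_mem _ hp.2.2.2.2⟩
    intro c' hc'
    rcases List.mem_cons.1 hc' with h | h
    · subst h
      exact ⟨h1, h2, h3⟩
    · exact hp.2.2.2.1 c' h
  · exact ⟨le_rfl, fun c' h => List.mem_cons_of_mem _ h, fun i _ j _ h => h, fun i _ => Or.inl (Eq.refl _)⟩

theorem tot0 (t : ℕ) (c : Rel) (p : St H) (hp : Vl p) :
    ∃ p', Vl p' ∧ Com t p p' ∧ R0 c p p' := by
  by_cases h : sup (nn p) c ∧ rl (hh p) c ∧ rl (qq p) c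
  · obtain ⟨h1, h2⟩ := tot_commit (t := t) hp h.1 h.2.1 h.2.2
    exact ⟨_, h1, h2, Eq.refl _, fun i _ => Eq.refl _, Eq.refl _, fun _ => List.mem_cons_self⟩
  · exact ⟨p, hp, Com.rfl t p, Eq.refl _, fun i _ => Eq.refl _, Eq.refl _, fun h' => absurd h' h⟩

theorem exists_least {α : Type} [Encodable α] {P : α → Prop} (h : ∃ x, P x) :
    ∃ x, P x ∧ ¬ ∃ y, encode y < encode x ∧ P y := by
  classical
  have h1 : ∃ n, ∃ x, P x ∧ encode x = n := by
    obtain ⟨x, hx⟩ := h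
    exact ⟨_, x, hx, Eq.refl _⟩
  obtain ⟨x, hx, hn⟩ := Nat.find_spec h1
  refine ⟨x, hx, ?_⟩
  rintro ⟨y, hy, hPy⟩
  rw [hn] at hy
  exact Nat.find_min h1 hy ⟨y, hPy, Eq.refl _⟩

theorem exists_F (t : ℕ) : ∃ F : Finset H, ∀ x : H, x ∉ F → t < encode x := by
  classical
  have h : {x : H | encode x ≤ t}.Finite :=
    (Set.finite_Iic t).preimage (encode_injective.injOn)
  refine ⟨h.toFinset, fun x hx => ?_⟩
  by_contra h1
  exact hx (h.mem_toFinset.2 (not_lt.1 h1))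

theorem exists_IsW (hinf : ∀ (l : ℕ) (h : ℕ → H), ∃ w, ¬ Dep h w l) (t : ℕ) (h : ℕ → H) (l : ℕ) :
    ∃ w, IsW t h w l := by
  obtain ⟨w, hw⟩ := hinf l h
  have h1 : ∃ x : H, ¬ (x = 0 ∨ Dpt t h x l) := by
    refine ⟨w, ?_⟩
    rintro (h2 | ⟨r, _, hr⟩)
    · apply hw
      refine ⟨(1, ([], [])), one_pos, ⟨by simp, by simp⟩, ?_⟩
      rw [rx_iff, h2]
      simp
    · exact hw ⟨r, hr⟩
  obtain ⟨x, hx, hx'⟩ := exists_least h1
  exact ⟨x, fun h2 => hx (Or.inl h2), fun h2 => hx (Or.inr h2), hx'⟩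

theorem tot1 (htf : TF H) (hinf : ∀ (l : ℕ) (h : ℕ → H), ∃ w, ¬ Dep h w l) (t : ℕ)
    (x : ℕ × (ℕ × Rel)) (p : St H) (hp : Vl p) : ∃ p', Vl p' ∧ Com t p p' ∧ R1 t x p p' := by
  obtain ⟨l, r⟩ := x
  by_cases hc : C1 p (l, r)
  · obtain ⟨c1, c2, c3, c4⟩ := hc
    simp only at c1 c2 c3 c4
    have hsr : sup (nn p) (rho l r) := sup_rep c1 (c3.mono c1.le)
    by_cases hq : rl (qq p) (rho l r)
    · obtain ⟨h1, h2⟩ := tot_commit (t := t) hp hsr c4 hq
      exact ⟨_, h1, h2, ⟨Eq.refl _, Eq.refl _⟩, Or.inl ⟨fun i _ => Eq.refl _, Or.inr (Or.inl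
        List.mem_cons_self)⟩⟩
    · by_cases hlow : ∃ c, sup l c ∧ rl (hh p) c ∧ ¬ rl (qq p) c
      · exact ⟨p, hp, Com.rfl t p, ⟨Eq.refl _, Eq.refl _⟩, Or.inl ⟨fun i _ => Eq.refl _, Or.inr (Or.inr
          hlow)⟩⟩
      · obtain ⟨w, hw⟩ := exists_IsW hinf t (hh p) l
        obtain ⟨F, hF⟩ := exists_F (H := H) t
        obtain ⟨h', z, hz, e1, e2, e3, e4, e5⟩ := ex_shift htf (nn p) l (hh p) (qq p) c1 hp.2.1
          r.1 r.2 c3 c4 hq (by
            intro c' h1 h2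
            by_contra h3
            exact hlow ⟨c', h1, h2, h3⟩) w hw.1 F
        refine ⟨mk (nn p) h' (qq p) p.2.1 p.2.2, ?_, ?_, ⟨nn_mk _ _ _ _ _, Eq.refl _⟩, Or.inr ⟨⟨⟨c1, c2,
          c3, c4⟩, ?_⟩, ?_⟩⟩
        · refine Vl_mk hp.1 e3 hp.2.2.1 ?_ hp.2.2.2.2
          intro c hc
          obtain ⟨h5, h6, h7⟩ := hp.2.2.2.1 c hc
          exact ⟨h5, e4 c h5 h6 h7, h7⟩
        · refine Com_mk le_rfl (fun _ h => h) (fun i _ j _ h => h) fun i hi => ?_
          exact (e5 i hi).imp_right (hF _)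
        · intro i hi
          simp only at hi
          rw [hh_mk (by omega)]
          exact e2 i hi
        · simp only
          rw [hh_mk c1]
          refine ⟨w, z.natAbs, hw, Int.natAbs_pos.2 hz, ?_⟩
          rw [List.sum_replicate, ← natCast_zsmul, e1]
          rcases Int.natAbs_eq z with h5 | h5
          · left
            rw [← h5]
          · right
            have h6 : ((z.natAbs : ℕ) : ℤ) = -z := by omega
            rw [h6, neg_smul]
            abel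
  · exact ⟨p, hp, Com.rfl t p, ⟨Eq.refl _, Eq.refl _⟩, Or.inl ⟨fun i _ => Eq.refl _, Or.inl hc⟩⟩

theorem tot2 (htf : TF H) (t : ℕ) (x : H) (p : St H) (hp : Vl p) :
    ∃ p', Vl p' ∧ Com t p p' ∧ R2 t x p p' := by
  by_cases hx : x ∈ p.1.1
  · exact ⟨p, hp, Com.rfl t p, ⟨Eq.refl _, fun i _ => Eq.refl _⟩, Or.inl ⟨Eq.refl _, hx⟩⟩
  · have hx' : ∀ i < nn p, hh p i ≠ x := fun i hi h => hx (h ▸ mem_L hi)
    let h' : ℕ → H := fun i => if i < nn p then hh p i else x
    have hh1 : ∀ i < nn p, h' i = hh p i := fun i hi => if_pos hi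
    have hh2 : h' (nn p) = x := if_neg (lt_irrefl _)
    have hinj : ∀ i < nn p + 1, ∀ j < nn p + 1, h' i = h' j → i = j := by
      intro i hi j hj hij
      rcases Nat.lt_succ_iff_lt_or_eq.1 hi with h1 | h1 <;>
        rcases Nat.lt_succ_iff_lt_or_eq.1 hj with h2 | h2
      · rw [hh1 i h1, hh1 j h2] at hij
        exact hp.2.1 i h1 j h2 hij
      · rw [hh1 i h1, h2, hh2] at hij
        exact absurd hij (hx' i h1)
      · rw [hh1 j h2, h1, hh2] at hij
        exact absurd hij.symm (hx' j h2)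
      · rw [h1, h2]
    have qinj : ∀ q' : ℕ → ℤ, (∀ i < nn p, ∀ j < nn p, qq p i < qq p j → q' i < q' j) →
        (∀ i < nn p, q' i ≠ q' (nn p)) → ∀ i < nn p + 1, ∀ j < nn p + 1, q' i = q' j → i = j := by
      intro q' ho hne i hi j hj hij
      rcases Nat.lt_succ_iff_lt_or_eq.1 hi with h1 | h1 <;>
        rcases Nat.lt_succ_iff_lt_or_eq.1 hj with h2 | h2
      · exact inj_of_ord hp.2.2.1 ho i h1 j h2 hij
      · rw [h2] at hij
        exact absurd hij (hne i h1)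
      · rw [h1] at hij
        exact absurd hij.symm (hne j h2)
      · rw [h1, h2]
    by_cases hd : Dpt t (hh p) x (nn p)
    · obtain ⟨r0, _, hr0⟩ := hd
      obtain ⟨r, hr, hr'⟩ := exists_least (P := fun r : ℕ × Rel => Dr (hh p) x (nn p) r) ⟨r0, hr0⟩
      obtain ⟨q', e1, e2, e3, e4⟩ := ex_add htf (nn p) (hh p) (qq p) x hx' r.1 hr.1 r.2 hr.2.1
        (rx_iff.1 hr.2.2)
      refine ⟨mk (nn p + 1) h' q' (rho (nn p) r :: p.2.1) p.2.2, ?_, ?_, ⟨Eq.refl _, ?_⟩, Or.inr ⟨⟨hx,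
        nn_mk _ _ _ _ _, ?_⟩, Or.inr ⟨r, hr, hr', List.mem_cons_self⟩⟩⟩
      · refine Vl_mk (Nat.succ_pos _) hinj (qinj q' e1 e3) ?_ (List.mem_cons_of_mem _ hp.2.2.2.2)
        intro c hc
        rcases List.mem_cons.1 hc with h | h
        · subst h
          refine ⟨sup_rep (Nat.lt_succ_self _) (hr.2.1.mono (Nat.le_succ _)), ?_, ?_⟩
          · rw [rl_rho, hh2]
            exact rx_iff.1 ((rx_congr hr.2.1 hh1).2 hr.2.2)
          · rw [rl_rho]
            exact e4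
        · obtain ⟨h5, h6, h7⟩ := hp.2.2.2.1 c h
          exact ⟨h5.mono (Nat.le_succ _), (rl_congr h5 hh1).2 h6, e2 c h5 h6 h7⟩
      · exact Com_mk (Nat.le_succ _) (fun _ h => List.mem_cons_of_mem _ h) e1 fun i hi =>
          Or.inl (hh1 i hi)
      · intro i hi
        rw [hh_mk (Nat.lt_succ_of_lt hi)]
        exact hh1 i hi
      · rw [hh_mk (Nat.lt_succ_self _)]
        exact hh2
    · let M : ℤ := ∑ i ∈ Finset.range (nn p), |qq p i| + 1
      let q' : ℕ → ℤ := fun i => if i < nn p then qq p i else M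
      have q1 : ∀ i < nn p, q' i = qq p i := fun i hi => if_pos hi
      have q2 : q' (nn p) = M := if_neg (lt_irrefl _)
      have q3 : ∀ i < nn p, q' i ≠ q' (nn p) := by
        intro i hi
        rw [q1 i hi, q2]
        have h1 : |qq p i| ≤ ∑ i ∈ Finset.range (nn p), |qq p i| :=
          Finset.single_le_sum (f := fun i => |qq p i|) (fun i _ => abs_nonneg _)
            (Finset.mem_range.2 hi)
        have h2 := le_abs_self (qq p i)
        have h3 : qq p i < M := by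
          simp only [M]
          linarith
        exact h3.ne
      have q4 : ∀ i < nn p, ∀ j < nn p, qq p i < qq p j → q' i < q' j := by
        intro i hi j hj hij
        rw [q1 i hi, q1 j hj]
        exact hij
      refine ⟨mk (nn p + 1) h' q' p.2.1 p.2.2, ?_, ?_, ⟨Eq.refl _, ?_⟩, Or.inr ⟨⟨hx,
        nn_mk _ _ _ _ _, ?_⟩, Or.inl hd⟩⟩
      · refine Vl_mk (Nat.succ_pos _) hinj (qinj q' q4 q3) ?_ hp.2.2.2.2
        intro c hc
        obtain ⟨h5, h6, h7⟩ := hp.2.2.2.1 c hc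
        exact ⟨h5.mono (Nat.le_succ _), (rl_congr h5 hh1).2 h6, (rl_congr h5 q1).2 h7⟩
      · exact Com_mk (Nat.le_succ _) (fun _ h => h) q4 fun i hi => Or.inl (hh1 i hi)
      · intro i hi
        rw [hh_mk (Nat.lt_succ_of_lt hi)]
        exact hh1 i hi
      · rw [hh_mk (Nat.lt_succ_self _)]
        exact hh2

/-- the parts of an integer relation -/
theorem zrel {M : Type} [AddCommGroup M] {a b : ℤ} {x y : M} (h : a • x = b • y) :
    a.toNat • x + (-b).toNat • y = (-a).toNat • x + b.toNat • y := by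
  have ha : (a.toNat : ℤ) - ((-a).toNat : ℤ) = a := by omega
  have hb : (b.toNat : ℤ) - ((-b).toNat : ℤ) = b := by omega
  have h1 : ((a.toNat : ℤ) - ((-a).toNat : ℤ)) • x = ((b.toNat : ℤ) - ((-b).toNat : ℤ)) • y := by
    rw [ha, hb, h]
  simp only [sub_smul, natCast_zsmul] at h1
  rw [← sub_eq_zero]
  rw [← sub_eq_zero] at h1
  rw [← h1]
  abel

theorem Dr_of_sum {h : ℕ → H} {x : H} {s : ℕ} {m : ℤ} {b : ℕ → ℤ} (hm : m ≠ 0)
    (hx : m • x = ∑ i ∈ Finset.range s, b i • h i) : ∃ r, Dr h x s r := by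
  rcases lt_or_gt_of_ne hm with h1 | h1
  · refine ⟨(m.natAbs, pr s b), Int.natAbs_pos.2 hm, sup_pr s b, ?_⟩
    rw [rx_iff]
    have h2 := ev_pr s b h
    rw [← hx] at h2
    unfold ev at h2
    have h3 : ((m.natAbs : ℕ) : ℤ) = -m := by omega
    rw [← natCast_zsmul, h3, neg_smul, ← h2]
    abel
  · refine ⟨(m.natAbs, pr s fun i => -b i), Int.natAbs_pos.2 hm, sup_pr s _, ?_⟩
    rw [rx_iff]
    have h2 := ev_pr s (fun i => -b i) h
    simp only [neg_smul, Finset.sum_neg_distrib] at h2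
    rw [← hx] at h2
    unfold ev at h2
    have h3 : ((m.natAbs : ℕ) : ℤ) = m := by omega
    have h4 : m • x = -(-(m • x)) := (neg_neg _).symm
    rw [← natCast_zsmul, h3, h4, ← h2]
    abel

theorem tot3 (htf : TF H) (t : ℕ) (x : Kr) (p : St H) (hp : Vl p) :
    ∃ p', Vl p' ∧ Com t p p' ∧ R3 x p p' := by
  classical
  obtain ⟨⟨e, σ⟩, ⟨s, τ⟩, ⟨u, v⟩, ⟨g, r⟩⟩ := x
  by_cases hc : C3 p ((e, σ), ((s, τ), ((u, v), (g, r))))
  · by_cases hct : Ct p ((e, σ), ((s, τ), ((u, v), (g, r))))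
    · exact ⟨p, hp, Com.rfl t p, Eq.refl _, Or.inl ⟨fun i _ => Eq.refl _, Eq.refl _, Or.inr hct⟩⟩
    · have hc' := hc
      obtain ⟨⟨d1, d2, d3⟩, d4, ⟨d5, d6, d7, d8⟩, ⟨d9, d10⟩, d11, d12, d13, d14⟩ := hc
      simp only at d1 d2 d3 d4 d5 d6 d7 d8 d9 d10 d11 d12 d13 d14
      have hct1 : ∀ a b : ℤ, a • hh p u = b • hh p v → a = 0 ∧ b = 0 := by
        intro a b hab
        by_contra hne
        apply hct
        left
        refine ⟨((a.toNat, (-b).toNat), ((-a).toNat, b.toNat)), ?_, ?_⟩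
        · intro h1
          simp only [Prod.mk.injEq] at h1
          omega
        · unfold rl
          simp only [List.map_append, List.map_replicate, List.sum_append, List.sum_replicate]
          exact zrel hab
      have huv : u ≠ v := by
        intro h1
        have := hct1 1 1 (by rw [h1])
        omega
      obtain ⟨F, hF⟩ := exists_F (H := H) t
      let ε : ℕ → Bool := fun i => if i = v then false else if i = u then true else
        decide (cv e τ i true r)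
      have hεu : ε u = true := by simp [ε, huv]
      have hεv : ε v = false := by simp [ε]
      obtain ⟨h', q', D, f1, f2, f3, f4, f5, f6, f7, f8, f9, f10⟩ := ex_kill htf (nn p) s u v g
        (hh p) (qq p) d3 d6 d7 d8 hp.h0 hp.q0 d9 d10 hp.2.1 ε hεu hεv hct1 (by
          intro m b hm hmb
          exact hct (Or.inr (Dr_of_sum hm hmb))) F
      have hcv1 : ∀ i, ε i = true → (i < s ∨ i = g) → cv e τ i true r := by
        intro i hi _
        simp only [ε] at hi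
        split_ifs at hi with h1 h2
        · rw [h2]
          exact d13
        · exact of_decide_eq_true hi
      have hcv2 : ∀ i, i ≠ 0 → ε i = false → (i < s ∨ i = g) → cv e τ i false r := by
        intro i hi0 hi his
        simp only [ε] at hi
        split_ifs at hi with h1 h2
        · rw [h1]
          exact d14
        · have h3 := of_decide_eq_false hi
          rcases his with h4 | h4
          · exact ((d11 i h4).resolve_left hi0).resolve_left h3
          · rw [h4] at h3 ⊢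
            exact d12.resolve_left h3
      have hgood : Gd e τ r (pr (nn p) D) := by
        refine ⟨?_, ?_, ?_⟩
        · intro h1
          rcases lt_or_gt_of_ne f10 with h2 | h2
          · have h3 : g ∈ (pr (nn p) D).2 := mem_pr2.2 ⟨d8, h2⟩
            rw [h1] at h3
            simp at h3
          · have h3 : g ∈ (pr (nn p) D).1 := mem_pr1.2 ⟨d8, h2⟩
            rw [h1] at h3
            simp at h3
        · intro i hi
          obtain ⟨h1, h2⟩ := mem_pr1.1 hi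
          obtain ⟨h3, h4, h5⟩ := f8 i h1 h2
          exact ⟨h3, hcv1 i h5 h4⟩
        · intro i hi
          obtain ⟨h1, h2⟩ := mem_pr2.1 hi
          obtain ⟨h3, h4, h5⟩ := f9 i h1 h2
          exact ⟨h3, hcv2 i h3 h5 h4⟩
      refine ⟨mk (nn p) h' q' (pr (nn p) D :: p.2.1) (encode (e, σ) :: p.2.2), ?_, ?_,
        nn_mk _ _ _ _ _, Or.inr ⟨⟨hc', ?_⟩, Eq.refl _, pr (nn p) D, List.mem_cons_self, hgood⟩⟩
      · refine Vl_mk hp.1 f3 (inj_of_ord hp.2.2.1 f5) ?_ (List.mem_cons_of_mem _ hp.2.2.2.2)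
        intro c hc
        rcases List.mem_cons.1 hc with h | h
        · subst h
          refine ⟨sup_pr _ _, ?_, ?_⟩
          · rw [rl_iff, ev_pr]
            exact f6
          · rw [rl_iff, ev_pr]
            exact f7
        · obtain ⟨h5, h6, h7⟩ := hp.2.2.2.1 c h
          exact ⟨h5, f2 c h5 h6 h7⟩
      · exact Com_mk le_rfl (fun _ h => List.mem_cons_of_mem _ h) f5 fun i hi =>
          (f4 i hi).imp_right (hF _)
      · intro i hi
        simp only at hi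
        rw [hh_mk (by omega)]
        exact f1 i hi
  · exact ⟨p, hp, Com.rfl t p, Eq.refl _, Or.inl ⟨fun i _ => Eq.refl _, Eq.refl _, Or.inl hc⟩⟩

theorem tot (htf : TF H) (hinf : ∀ (l : ℕ) (h : ℕ → H), ∃ w, ¬ Dep h w l) (t : ℕ) (p : St H)
    (hp : Vl p) : ∃ p', Step t p p' := by
  have hk : t.unpair.1.unpair.1 = 0 ∨ t.unpair.1.unpair.1 = 1 ∨ t.unpair.1.unpair.1 = 2 ∨
      2 < t.unpair.1.unpair.1 := by omega
  rcases hk with h | h | h | h
  · obtain ⟨p', h1, h2, h3⟩ := tot0 t (dc Rel t.unpair.1.unpair.2) p hp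
    exact ⟨p', h1, h2, Or.inl (Or.inl ⟨h, h3⟩)⟩
  · obtain ⟨p', h1, h2, h3⟩ := tot1 htf hinf t (dc (ℕ × (ℕ × Rel)) t.unpair.1.unpair.2) p hp
    exact ⟨p', h1, h2, Or.inl (Or.inr ⟨h, h3⟩)⟩
  · obtain ⟨p', h1, h2, h3⟩ := tot2 htf t ((decode (α := H) t.unpair.1.unpair.2).getD 0) p hp
    exact ⟨p', h1, h2, Or.inr (Or.inl ⟨h, h3⟩)⟩
  · obtain ⟨p', h1, h2, h3⟩ := tot3 htf t (dc Kr t.unpair.1.unpair.2) p hp
    exact ⟨p', h1, h2, Or.inr (Or.inr ⟨h, h3⟩)⟩

/-- The construction. -/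
theorem exists_run (htf : TF H) (hinf : ∀ (l : ℕ) (h : ℕ → H), ∃ w, ¬ Dep h w l)
    (hadd : Computable₂ fun a b : H => a + b) :
    ∃ s : ℕ → St H, Computable s ∧ (∀ t, Vl (s t)) ∧ (∀ t, Step t (s t) (s (t + 1))) ∧
      (s 0).2.2 = [] := by
  obtain ⟨s, h1, h2, h3, h4⟩ := exists_seq (R := Step (H := H)) (V := Vl)
    (b0 := mk 1 (fun _ => 0) (fun _ => 0) [([0, 0], [0])] []) (s1_Step hadd) (by
      refine Vl_mk one_pos ?_ ?_ ?_ List.mem_cons_self
      · intro i hi j hj _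
        omega
      · intro i hi j hj _
        omega
      · intro c hc
        rw [List.mem_singleton] at hc
        subst hc
        refine ⟨⟨?_, ?_⟩, ?_, ?_⟩ <;> simp [rl]) (fun n b hb => tot htf hinf n b hb)
    (fun n b b' _ h => h.1)
  exact ⟨s, h1, h3, h4, by rw [h2]; rfl⟩

end

end Pool.Agent.H54OG
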